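import Pool.Agent.Phi4.Dsl2
import Pool.Agent.Helper81.HG.Mod
import Pool.Agent.Helper81.HG.Sch

/-!
# Classes closed under cutting and pasting only
-/

set_option autoImplicit false
set_option linter.unusedSectionVars false

open AlgebraicGeometry CategoryTheory MvPolynomial
open Pool.Agent.Helper81.CP Pool.Agent.Helper81.HG Pool.Agent.Phi4

namespace Pool.Agent.Sym3

/-- a class of rings of finite type over `ℤ` which is closed under cutting and pasting -/
structure CP0 (G : ∀ (R : Type) [CommRing R], Prop) : Prop where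
  triv : ∀ (R : Type) [CommRing R], Subsingleton R → G R
  iso : ∀ (R S : Type) [CommRing R] [CommRing S], FT R → (R ≃+* S) → G R → G S
  glue : ∀ (R : Type) [CommRing R], FT R → ∀ f : R,
    G (R ⧸ Ideal.span {f}) → G (Localization.Away f) → G R
  opn : ∀ (R : Type) [CommRing R], FT R → ∀ f : R,
    G R → G (R ⧸ Ideal.span {f}) → G (Localization.Away f)
  closed : ∀ (R : Type) [CommRing R], FT R → ∀ f : R,
    G R → G (Localization.Away f) → G (R ⧸ Ideal.span {f})

variable {G : ∀ (R : Type) [CommRing R], Prop}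

lemma _root_.Pool.Agent.Helper81.HG.RG.cp0 (h : RG G) : CP0 G :=
  ⟨h.triv, h.iso, h.glue, h.opn, h.closed⟩

lemma CP0.rep_iff (hG : CP0 G) {R : Type} [CommRing R] {σ : Type} [Finite σ]
    {E : Set (MvPolynomial σ ℤ)} {u : σ → R} (h : Rep R E u) : G R ↔ GS G E := by
  obtain ⟨e⟩ := (rep_rng E).iso' h
  exact ⟨hG.iso R (Rng σ E) h.ft e.symm, hG.iso (Rng σ E) R (ft_rng E) e⟩

section

variable (hG : CP0 G) {σ τ : Type} [Finite σ] [Finite τ]

include hG

/-- isomorphic systems -/
lemma CP0.gs_iso {E : Set (MvPolynomial σ ℤ)} {E' : Set (MvPolynomial τ ℤ)}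
    (f : ∀ (A : Type) [CommRing A], (σ → A) → (τ → A))
    (g : ∀ (A : Type) [CommRing A], (τ → A) → (σ → A))
    (nf : ∀ (A B : Type) [CommRing A] [CommRing B] (φ : A →+* B) (x : σ → A), Pt E x →
      ∀ j, φ (f A x j) = f B (fun i => φ (x i)) j)
    (ng : ∀ (A B : Type) [CommRing A] [CommRing B] (φ : A →+* B) (y : τ → A), Pt E' y →
      ∀ i, φ (g A y i) = g B (fun j => φ (y j)) i)
    (hf : ∀ (A : Type) [CommRing A] (x : σ → A), Pt E x → Pt E' (f A x))
    (hg : ∀ (A : Type) [CommRing A] (y : τ → A), Pt E' y → Pt E (g A y))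
    (gf : ∀ (A : Type) [CommRing A] (x : σ → A), Pt E x → g A (f A x) = x)
    (fg : ∀ (A : Type) [CommRing A] (y : τ → A), Pt E' y → f A (g A y) = y) :
    GS G E ↔ GS G E' := by
  obtain ⟨e⟩ := (rep_rng E).iso (rep_rng E') f g nf ng hf hg gf fg
  exact ⟨hG.iso _ _ (ft_rng E) e, hG.iso _ _ (ft_rng E') e.symm⟩

/-- systems with the same solutions -/
lemma CP0.gs_congr {E E' : Set (MvPolynomial σ ℤ)}
    (h : ∀ (A : Type) [CommRing A] (x : σ → A), Pt E x ↔ Pt E' x) : GS G E ↔ GS G E' :=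
  hG.gs_iso (fun _ _ x => x) (fun _ _ x => x) (fun _ _ _ _ _ _ _ _ => rfl)
    (fun _ _ _ _ _ _ _ _ => rfl) (fun A _ x hx => (h A x).mp hx) (fun A _ x hx => (h A x).mpr hx)
    (fun _ _ _ _ => rfl) (fun _ _ _ _ => rfl)

lemma CP0.gs_closed_iff (E : Set (MvPolynomial σ ℤ)) (p : MvPolynomial σ ℤ) :
    G (Rng σ E ⧸ Ideal.span {ev (tau E) p}) ↔ GS G (insert p E) :=
  hG.rep_iff ((rep_rng E).closed p)

lemma CP0.gs_opn_iff (E : Set (MvPolynomial σ ℤ)) (p : MvPolynomial σ ℤ) :
    G (Localization.Away (ev (tau E) p)) ↔ GS G (dop p E) :=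
  hG.rep_iff ((rep_rng E).dop p)

lemma CP0.gs_glue {E : Set (MvPolynomial σ ℤ)} {p : MvPolynomial σ ℤ}
    (h1 : GS G (insert p E)) (h2 : GS G (dop p E)) : GS G E :=
  hG.glue _ (ft_rng E) (ev (tau E) p) ((hG.gs_closed_iff E p).mpr h1)
    ((hG.gs_opn_iff E p).mpr h2)

lemma CP0.gs_opn {E : Set (MvPolynomial σ ℤ)} {p : MvPolynomial σ ℤ}
    (h1 : GS G E) (h2 : GS G (insert p E)) : GS G (dop p E) :=
  (hG.gs_opn_iff E p).mp
    (hG.opn _ (ft_rng E) (ev (tau E) p) h1 ((hG.gs_closed_iff E p).mpr h2))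

lemma CP0.gs_closed {E : Set (MvPolynomial σ ℤ)} {p : MvPolynomial σ ℤ}
    (h1 : GS G E) (h2 : GS G (dop p E)) : GS G (insert p E) :=
  (hG.gs_closed_iff E p).mp
    (hG.closed _ (ft_rng E) (ev (tau E) p) h1 ((hG.gs_opn_iff E p).mpr h2))

end

section

variable (hG : CP0 G) {σ τ : Type} [Finite σ] [Finite τ]

include hG

/-- isomorphic locally closed systems -/
theorem CP0.gl_iso {E : Set (MvPolynomial σ ℤ)} {p : MvPolynomial σ ℤ}
    {E' : Set (MvPolynomial τ ℤ)} {p' : MvPolynomial τ ℤ}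
    (f : ∀ (A : Type) [CommRing A], (σ → A) → (τ → A))
    (g : ∀ (A : Type) [CommRing A], (τ → A) → (σ → A))
    (nf : ∀ (A B : Type) [CommRing A] [CommRing B] (φ : A →+* B) (x : σ → A), Lc E p x →
      ∀ j, φ (f A x j) = f B (fun i => φ (x i)) j)
    (ng : ∀ (A B : Type) [CommRing A] [CommRing B] (φ : A →+* B) (y : τ → A), Lc E' p' y →
      ∀ i, φ (g A y i) = g B (fun j => φ (y j)) i)
    (hf : ∀ (A : Type) [CommRing A] (x : σ → A), Lc E p x → Lc E' p' (f A x))
    (hg : ∀ (A : Type) [CommRing A] (y : τ → A), Lc E' p' y → Lc E p (g A y))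
    (gf : ∀ (A : Type) [CommRing A] (x : σ → A), Lc E p x → g A (f A x) = x)
    (fg : ∀ (A : Type) [CommRing A] (y : τ → A), Lc E' p' y → f A (g A y) = y) :
    GO G E p ↔ GO G E' p' := by
  refine hG.gs_iso
    (fun A _ x => fun o => o.elim (Ring.inverse (ev (f A (fun i => x (some i))) p'))
      (f A (fun i => x (some i))))
    (fun A _ y => fun o => o.elim (Ring.inverse (ev (g A (fun i => y (some i))) p))
      (g A (fun i => y (some i)))) ?_ ?_ ?_ ?_ ?_ ?_
  · intro A B _ _ φ x hx j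
    rw [Pt.dop_iff_lc] at hx
    rcases j with _ | j
    · show φ (Ring.inverse (ev (f A (fun i => x (some i))) p')) =
        Ring.inverse (ev (f B (fun i => φ (x (some i)))) p')
      rw [map_inv_of_unit φ (hf A _ hx.1).2, ev_map]
      congr 2
      exact congrArg _ (funext fun j => nf A B φ _ hx.1 j)
    · exact nf A B φ _ hx.1 j
  · intro A B _ _ φ y hy i
    rw [Pt.dop_iff_lc] at hy
    rcases i with _ | i
    · show φ (Ring.inverse (ev (g A (fun i => y (some i))) p)) =
        Ring.inverse (ev (g B (fun i => φ (y (some i)))) p)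
      rw [map_inv_of_unit φ (hg A _ hy.1).2, ev_map]
      congr 2
      exact congrArg _ (funext fun j => ng A B φ _ hy.1 j)
    · exact ng A B φ _ hy.1 i
  · intro A _ x hx
    rw [Pt.dop_iff_lc] at hx ⊢
    exact ⟨hf A _ hx.1, rfl⟩
  · intro A _ y hy
    rw [Pt.dop_iff_lc] at hy ⊢
    exact ⟨hg A _ hy.1, rfl⟩
  · intro A _ x hx
    rw [Pt.dop_iff_lc] at hx
    have h1 := gf A _ hx.1
    funext o
    rcases o with _ | i
    · show Ring.inverse (ev (g A (f A (fun i => x (some i)))) p) = x none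
      rw [h1, hx.2]
    · exact congrFun h1 i
  · intro A _ y hy
    rw [Pt.dop_iff_lc] at hy
    have h1 := fg A _ hy.1
    funext o
    rcases o with _ | i
    · show Ring.inverse (ev (f A (g A (fun i => y (some i)))) p') = y none
      rw [h1, hy.2]
    · exact congrFun h1 i

/-- locally closed systems with the same solutions -/
lemma CP0.gl_congr {E E' : Set (MvPolynomial σ ℤ)} {p p' : MvPolynomial σ ℤ}
    (h : ∀ (A : Type) [CommRing A] (x : σ → A), Lc E p x ↔ Lc E' p' x) :
    GO G E p ↔ GO G E' p' :=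
  hG.gl_iso (fun _ _ x => x) (fun _ _ x => x) (fun _ _ _ _ _ _ _ _ => rfl)
    (fun _ _ _ _ _ _ _ _ => rfl) (fun A _ x hx => (h A x).mp hx) (fun A _ x hx => (h A x).mpr hx)
    (fun _ _ _ _ => rfl) (fun _ _ _ _ => rfl)

lemma CP0.gl_one (E : Set (MvPolynomial σ ℤ)) : GO G E 1 ↔ GS G E := by
  refine hG.gs_iso (fun A _ x i => x (some i)) (fun A _ y o => o.elim 1 y) ?_ ?_ ?_ ?_ ?_ ?_
  · intro A B _ _ φ x _ j; rfl
  · intro A B _ _ φ y _ o
    rcases o with _ | i
    · exact map_one φ
    · rfl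
  · intro A _ x hx
    rw [Pt.dop_iff] at hx
    exact hx.2
  · intro A _ y hy
    rw [Pt.dop_iff]
    exact ⟨by simp, hy⟩
  · intro A _ x hx
    rw [Pt.dop_iff, map_one, mul_one] at hx
    funext o
    rcases o with _ | i
    · exact hx.1.symm
    · rfl
  · intro A _ y _; rfl

lemma CP0.gl_dop (E : Set (MvPolynomial σ ℤ)) (p q : MvPolynomial σ ℤ) :
    GS G (dop (rename some q) (dop p E)) ↔ GO G E (p * q) := by
  refine hG.gs_iso
    (fun A _ x => fun o => o.elim (x none * x (some none)) (fun i => x (some (some i))))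
    (fun A _ y => fun o => o.elim (y none * ev (fun i => y (some i)) p)
      (fun o' => o'.elim (y none * ev (fun i => y (some i)) q) (fun i => y (some i))))
    ?_ ?_ ?_ ?_ ?_ ?_
  · intro A B _ _ φ x _ o
    rcases o with _ | i
    · exact map_mul φ _ _
    · rfl
  · intro A B _ _ φ y _ o
    rcases o with _ | _ | i
    · exact (map_mul φ _ _).trans (congrArg (φ (y none) * ·) (ev_map φ _ _))
    · exact (map_mul φ _ _).trans (congrArg (φ (y none) * ·) (ev_map φ _ _))
    · rfl
  · intro A _ x hx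
    rw [Pt.dop_iff, Pt.dop_iff, ev_rename] at hx
    rw [Pt.dop_iff, map_mul]
    obtain ⟨h1, h2, h3⟩ := hx
    refine ⟨?_, h3⟩
    show (x none * x (some none)) * (ev (fun i => x (some (some i))) p *
      ev (fun i => x (some (some i))) q) = 1
    linear_combination (x (some none) * ev (fun i => x (some (some i))) p) * h1 + h2
  · intro A _ y hy
    rw [Pt.dop_iff, map_mul] at hy
    rw [Pt.dop_iff, Pt.dop_iff, ev_rename]
    refine ⟨?_, ?_, hy.2⟩
    · show (y none * ev (fun i => y (some i)) p) * ev (fun i => y (some i)) q = 1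
      linear_combination hy.1
    · show (y none * ev (fun i => y (some i)) q) * ev (fun i => y (some i)) p = 1
      linear_combination hy.1
  · intro A _ x hx
    rw [Pt.dop_iff, Pt.dop_iff, ev_rename] at hx
    obtain ⟨h1, h2, h3⟩ := hx
    funext o
    rcases o with _ | _ | i
    · show (x none * x (some none)) * ev (fun i => x (some (some i))) p = x none
      linear_combination x none * h2
    · show (x none * x (some none)) * ev (fun i => x (some (some i))) q = x (some none)
      linear_combination x (some none) * h1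
    · rfl
  · intro A _ y hy
    rw [Pt.dop_iff, map_mul] at hy
    funext o
    rcases o with _ | i
    · show (y none * ev (fun i => y (some i)) p) * (y none * ev (fun i => y (some i)) q) = y none
      linear_combination y none * hy.1
    · rfl

lemma CP0.gl_glue {E : Set (MvPolynomial σ ℤ)} {p : MvPolynomial σ ℤ} (q : MvPolynomial σ ℤ)
    (h1 : GO G (insert q E) p) (h2 : GO G E (p * q)) : GO G E p :=
  hG.gs_glue ((hG.gs_congr fun _ _ x => pt_insert_dop x).mpr h1) ((hG.gl_dop E p q).mpr h2)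

lemma CP0.gl_opn {E : Set (MvPolynomial σ ℤ)} {p : MvPolynomial σ ℤ} (q : MvPolynomial σ ℤ)
    (h1 : GO G E p) (h2 : GO G (insert q E) p) : GO G E (p * q) :=
  (hG.gl_dop E p q).mp
    (hG.gs_opn h1 ((hG.gs_congr fun _ _ x => pt_insert_dop x).mpr h2))

lemma CP0.gl_closed {E : Set (MvPolynomial σ ℤ)} {p : MvPolynomial σ ℤ} (q : MvPolynomial σ ℤ)
    (h1 : GO G E p) (h2 : GO G E (p * q)) : GO G (insert q E) p :=
  (hG.gs_congr fun _ _ x => pt_insert_dop x).mp (hG.gs_closed h1 ((hG.gl_dop E p q).mpr h2))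

end

end Pool.Agent.Sym3
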