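import Pool.Agent.Sym3.Net

/-!
# The networks
-/

set_option autoImplicit false
set_option linter.unusedSectionVars false

open Matrix MvPolynomial
open Pool.Agent.Helper81.CP Pool.Agent.Helper81.HG Pool.Agent.Phi4

namespace Pool.Agent.Sym3

/-- the star -/
def Kstar : Nw (Fin 0 ⊕ Fin 4) (Fin 3) (Fin 1) (Fin 4) where
  s := Sum.elim finZeroElim ![Sum.inr 0, Sum.inr 1, Sum.inr 2, Sum.inr 3]
  t := Sum.elim finZeroElim ![Sum.inl 0, Sum.inl 0, Sum.inl 0, Sum.inl 0]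
  e :=
    { toFun := Sum.elim ![Sum.inr 1, Sum.inr 2, Sum.inr 3] ![Sum.inr 0]
      invFun := Sum.elim finZeroElim ![Sum.inr 0, Sum.inl (0), Sum.inl (1), Sum.inl (2)]
      left_inv := by decide
      right_inv := by decide }
  P := of (Sum.elim finZeroElim ![![-1, -1, -1], ![1, 0, 0], ![0, 1, 0], ![0, 0, 1]])
  R := of ![![-1]]
  hP := by decide
  hK := by decide
  hR := by decide

/-- the graph H, strands 01 and 23 -/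
def Kha : Nw (Fin 1 ⊕ Fin 4) (Fin 3) (Fin 2) (Fin 4) where
  s := Sum.elim ![Sum.inl 1] ![Sum.inr 0, Sum.inr 1, Sum.inr 2, Sum.inr 3]
  t := Sum.elim ![Sum.inl 0] ![Sum.inl 0, Sum.inl 0, Sum.inl 1, Sum.inl 1]
  e :=
    { toFun := Sum.elim ![Sum.inr 1, Sum.inr 2, Sum.inr 3] ![Sum.inr 0, Sum.inl 0]
      invFun := Sum.elim ![Sum.inr 1] ![Sum.inr 0, Sum.inl (0), Sum.inl (1), Sum.inl (2)]
      left_inv := by decide
      right_inv := by decide }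
  P := of (Sum.elim ![![0, 1, 1]] ![![-1, -1, -1], ![1, 0, 0], ![0, 1, 0], ![0, 0, 1]])
  R := of ![![-1, -1], ![0, 1]]
  hP := by decide
  hK := by decide
  hR := by decide

/-- the graph H, strands 03 and 12 -/
def Khb : Nw (Fin 1 ⊕ Fin 4) (Fin 3) (Fin 2) (Fin 4) where
  s := Sum.elim ![Sum.inl 1] ![Sum.inr 0, Sum.inr 1, Sum.inr 2, Sum.inr 3]
  t := Sum.elim ![Sum.inl 0] ![Sum.inl 0, Sum.inl 1, Sum.inl 1, Sum.inl 0]
  e :=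
    { toFun := Sum.elim ![Sum.inr 1, Sum.inr 2, Sum.inr 3] ![Sum.inr 0, Sum.inl 0]
      invFun := Sum.elim ![Sum.inr 1] ![Sum.inr 0, Sum.inl (0), Sum.inl (1), Sum.inl (2)]
      left_inv := by decide
      right_inv := by decide }
  P := of (Sum.elim ![![1, 1, 0]] ![![-1, -1, -1], ![1, 0, 0], ![0, 1, 0], ![0, 0, 1]])
  R := of ![![-1, -1], ![0, 1]]
  hP := by decide
  hK := by decide
  hR := by decide

/-- the graph H, strands 02 and 13 -/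
def Khc : Nw (Fin 1 ⊕ Fin 4) (Fin 3) (Fin 2) (Fin 4) where
  s := Sum.elim ![Sum.inl 1] ![Sum.inr 0, Sum.inr 1, Sum.inr 2, Sum.inr 3]
  t := Sum.elim ![Sum.inl 0] ![Sum.inl 0, Sum.inl 1, Sum.inl 0, Sum.inl 1]
  e :=
    { toFun := Sum.elim ![Sum.inr 1, Sum.inr 2, Sum.inr 3] ![Sum.inr 0, Sum.inl 0]
      invFun := Sum.elim ![Sum.inr 1] ![Sum.inr 0, Sum.inl (0), Sum.inl (1), Sum.inl (2)]
      left_inv := by decide
      right_inv := by decide }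
  P := of (Sum.elim ![![1, 0, 1]] ![![-1, -1, -1], ![1, 0, 0], ![0, 1, 0], ![0, 0, 1]])
  R := of ![![-1, -1], ![0, 1]]
  hP := by decide
  hK := by decide
  hR := by decide

/-- the ring -/
def Kring : Nw (Fin 4 ⊕ Fin 4) (Fin 3 ⊕ Fin 1) (Fin 4) (Fin 4) where
  s := Sum.elim ![Sum.inl 1, Sum.inl 2, Sum.inl 3, Sum.inl 0] ![Sum.inr 0, Sum.inr 1, Sum.inr 2, Sum.inr 3]
  t := Sum.elim ![Sum.inl 0, Sum.inl 1, Sum.inl 2, Sum.inl 3] ![Sum.inl 0, Sum.inl 1, Sum.inl 2, Sum.inl 3]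
  e :=
    { toFun := Sum.elim (Sum.elim ![Sum.inr 1, Sum.inr 2, Sum.inr 3] ![Sum.inl 1]) ![Sum.inr 0, Sum.inl 0, Sum.inl 2, Sum.inl 3]
      invFun := Sum.elim ![Sum.inr 1, Sum.inl (Sum.inr 0), Sum.inr 2, Sum.inr 3] ![Sum.inr 0, Sum.inl (Sum.inl 0), Sum.inl (Sum.inl 1), Sum.inl (Sum.inl 2)]
      left_inv := by decide
      right_inv := by decide }
  P := of (Sum.elim ![(Sum.elim ![1, 0, 0] ![1]), (Sum.elim ![0, 0, 0] ![1]), (Sum.elim ![0, -1, 0] ![1]), (Sum.elim ![0, -1, -1] ![1])] ![(Sum.elim ![-1, -1, -1] ![0]), (Sum.elim ![1, 0, 0] ![0]), (Sum.elim ![0, 1, 0] ![0]), (Sum.elim ![0, 0, 1] ![0])])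
  R := of ![![-1, -1, -1, -1], ![0, 1, 0, 0], ![0, 0, -1, 0], ![0, 0, -1, -1]]
  hP := by decide
  hK := by decide
  hR := by decide

/-- the ring with a triangle -/
def Kntwo : Nw (Fin 7 ⊕ Fin 4) ((Fin 3 ⊕ Fin 1) ⊕ Fin 1) (Fin 6) (Fin 4) where
  s := Sum.elim ![Sum.inl 1, Sum.inl 4, Sum.inl 3, Sum.inl 0, Sum.inl 5, Sum.inl 2, Sum.inl 5] ![Sum.inr 0, Sum.inr 1, Sum.inr 2, Sum.inr 3]
  t := Sum.elim ![Sum.inl 0, Sum.inl 1, Sum.inl 5, Sum.inl 3, Sum.inl 4, Sum.inl 4, Sum.inl 2] ![Sum.inl 0, Sum.inl 1, Sum.inl 2, Sum.inl 3]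
  e :=
    { toFun := Sum.elim (Sum.elim (Sum.elim ![Sum.inr 1, Sum.inr 2, Sum.inr 3] ![Sum.inl 1]) ![Sum.inl 4]) ![Sum.inr 0, Sum.inl 0, Sum.inl 6, Sum.inl 3, Sum.inl 5, Sum.inl 2]
      invFun := Sum.elim ![Sum.inr 1, Sum.inl (Sum.inl (Sum.inr 0)), Sum.inr 5, Sum.inr 3, Sum.inl (Sum.inr 0), Sum.inr 4, Sum.inr 2] ![Sum.inr 0, Sum.inl (Sum.inl (Sum.inl 0)), Sum.inl (Sum.inl (Sum.inl 1)), Sum.inl (Sum.inl (Sum.inl 2))]
      left_inv := by decide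
      right_inv := by decide }
  P := of (Sum.elim ![(Sum.elim (Sum.elim ![1, 0, 0] ![1]) ![0]), (Sum.elim (Sum.elim ![0, 0, 0] ![1]) ![0]), (Sum.elim (Sum.elim ![0, -1, 0] ![1]) ![0]), (Sum.elim (Sum.elim ![0, -1, -1] ![1]) ![0]), (Sum.elim (Sum.elim ![0, 0, 0] ![0]) ![1]), (Sum.elim (Sum.elim ![0, 0, 0] ![1]) ![-1]), (Sum.elim (Sum.elim ![0, -1, 0] ![1]) ![-1])] ![(Sum.elim (Sum.elim ![-1, -1, -1] ![0]) ![0]), (Sum.elim (Sum.elim ![1, 0, 0] ![0]) ![0]), (Sum.elim (Sum.elim ![0, 1, 0] ![0]) ![0]), (Sum.elim (Sum.elim ![0, 0, 1] ![0]) ![0])])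
  R := of ![![-1, -1, -1, -1, -1, -1], ![0, 1, 0, 0, 0, 0], ![0, 0, -1, 0, -1, 0], ![0, 0, -1, -1, -1, -1], ![0, 0, 0, 0, -1, 0], ![0, 0, -1, 0, -1, -1]]
  hP := by decide
  hK := by decide
  hR := by decide

/-- the triangle with three legs -/
def Ktri : Nw (Fin 3 ⊕ Fin 3) (Fin 2 ⊕ Fin 1) (Fin 3) (Fin 4) where
  s := Sum.elim ![Sum.inl 1, Sum.inl 2, Sum.inl 0] ![Sum.inr 0, Sum.inr 1, Sum.inr 3]
  t := Sum.elim ![Sum.inl 0, Sum.inl 1, Sum.inl 2] ![Sum.inl 0, Sum.inl 1, Sum.inl 2]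
  e :=
    { toFun := Sum.elim (Sum.elim ![Sum.inr 1, Sum.inr 2] ![Sum.inl 1]) ![Sum.inr 0, Sum.inl 0, Sum.inl 2]
      invFun := Sum.elim ![Sum.inr 1, Sum.inl (Sum.inr 0), Sum.inr 2] ![Sum.inr 0, Sum.inl (Sum.inl 0), Sum.inl (Sum.inl 1)]
      left_inv := by decide
      right_inv := by decide }
  P := of (Sum.elim ![(Sum.elim ![1, 0] ![1]), (Sum.elim ![0, 0] ![1]), (Sum.elim ![0, -1] ![1])] ![(Sum.elim ![-1, -1] ![0]), (Sum.elim ![1, 0] ![0]), (Sum.elim ![0, 1] ![0])])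
  R := of ![![-1, -1, -1], ![0, 1, 0], ![0, 0, -1]]
  hP := by decide
  hK := by decide
  hR := by decide

/-- the star with three legs -/
def Kstar3 : Nw (Fin 0 ⊕ Fin 3) (Fin 2) (Fin 1) (Fin 4) where
  s := Sum.elim finZeroElim ![Sum.inr 0, Sum.inr 1, Sum.inr 3]
  t := Sum.elim finZeroElim ![Sum.inl 0, Sum.inl 0, Sum.inl 0]
  e :=
    { toFun := Sum.elim ![Sum.inr 1, Sum.inr 2] ![Sum.inr 0]
      invFun := Sum.elim finZeroElim ![Sum.inr 0, Sum.inl (0), Sum.inl (1)]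
      left_inv := by decide
      right_inv := by decide }
  P := of (Sum.elim finZeroElim ![![-1, -1], ![1, 0], ![0, 1]])
  R := of ![![-1]]
  hP := by decide
  hK := by decide
  hR := by decide

/-- the triangle with two legs and an edge to a vertex with two legs -/
def Knh : Nw (Fin 4 ⊕ Fin 4) (Fin 3 ⊕ Fin 1) (Fin 4) (Fin 4) where
  s := Sum.elim ![Sum.inl 0, Sum.inl 1, Sum.inl 2, Sum.inl 2] ![Sum.inr 0, Sum.inr 1, Sum.inr 2, Sum.inr 3]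
  t := Sum.elim ![Sum.inl 2, Sum.inl 0, Sum.inl 1, Sum.inl 3] ![Sum.inl 3, Sum.inl 0, Sum.inl 1, Sum.inl 3]
  e :=
    { toFun := Sum.elim (Sum.elim ![Sum.inr 1, Sum.inr 2, Sum.inr 3] ![Sum.inl 0]) ![Sum.inl 1, Sum.inl 2, Sum.inl 3, Sum.inr 0]
      invFun := Sum.elim ![Sum.inl (Sum.inr 0), Sum.inr 0, Sum.inr 1, Sum.inr 2] ![Sum.inr 3, Sum.inl (Sum.inl 0), Sum.inl (Sum.inl 1), Sum.inl (Sum.inl 2)]
      left_inv := by decide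
      right_inv := by decide }
  P := of (Sum.elim ![(Sum.elim ![0, 0, 0] ![1]), (Sum.elim ![-1, 0, 0] ![1]), (Sum.elim ![-1, -1, 0] ![1]), (Sum.elim ![1, 1, 0] ![0])] ![(Sum.elim ![-1, -1, -1] ![0]), (Sum.elim ![1, 0, 0] ![0]), (Sum.elim ![0, 1, 0] ![0]), (Sum.elim ![0, 0, 1] ![0])])
  R := of ![![-1, 0, 0, 0], ![-1, -1, 0, 0], ![1, 1, 1, 0], ![-1, -1, -1, -1]]
  hP := by decide
  hK := by decide
  hR := by decide

/-- the triangle with two legs and a vertex with two legs -/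
def Kkc : Nw (Fin 3 ⊕ Fin 4) (Fin 3 ⊕ Fin 1) (Fin 3) (Fin 4) where
  s := Sum.elim ![Sum.inl 0, Sum.inl 1, Sum.inl 2] ![Sum.inr 0, Sum.inr 1, Sum.inr 2, Sum.inr 3]
  t := Sum.elim ![Sum.inl 2, Sum.inl 0, Sum.inl 1] ![Sum.inl 2, Sum.inl 0, Sum.inl 1, Sum.inl 2]
  e :=
    { toFun := Sum.elim (Sum.elim ![Sum.inr 1, Sum.inr 2, Sum.inr 3] ![Sum.inl 0]) ![Sum.inl 1, Sum.inl 2, Sum.inr 0]
      invFun := Sum.elim ![Sum.inl (Sum.inr 0), Sum.inr 0, Sum.inr 1] ![Sum.inr 2, Sum.inl (Sum.inl 0), Sum.inl (Sum.inl 1), Sum.inl (Sum.inl 2)]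
      left_inv := by decide
      right_inv := by decide }
  P := of (Sum.elim ![(Sum.elim ![0, 0, 0] ![1]), (Sum.elim ![-1, 0, 0] ![1]), (Sum.elim ![-1, -1, 0] ![1])] ![(Sum.elim ![-1, -1, -1] ![0]), (Sum.elim ![1, 0, 0] ![0]), (Sum.elim ![0, 1, 0] ![0]), (Sum.elim ![0, 0, 1] ![0])])
  R := of ![![-1, 0, 0], ![-1, -1, 0], ![-1, -1, -1]]
  hP := by decide
  hK := by decide
  hR := by decide

/-- the same, other terminals -/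
def Kkc1 : Nw (Fin 3 ⊕ Fin 4) (Fin 3 ⊕ Fin 1) (Fin 3) (Fin 4) where
  s := Sum.elim ![Sum.inl 0, Sum.inl 1, Sum.inl 2] ![Sum.inr 1, Sum.inr 2, Sum.inr 3, Sum.inr 0]
  t := Sum.elim ![Sum.inl 2, Sum.inl 0, Sum.inl 1] ![Sum.inl 2, Sum.inl 0, Sum.inl 1, Sum.inl 2]
  e :=
    { toFun := Sum.elim (Sum.elim ![Sum.inr 0, Sum.inr 1, Sum.inr 2] ![Sum.inl 0]) ![Sum.inl 1, Sum.inl 2, Sum.inr 3]
      invFun := Sum.elim ![Sum.inl (Sum.inr 0), Sum.inr 0, Sum.inr 1] ![Sum.inl (Sum.inl 0), Sum.inl (Sum.inl 1), Sum.inl (Sum.inl 2), Sum.inr 2]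
      left_inv := by decide
      right_inv := by decide }
  P := of (Sum.elim ![(Sum.elim ![0, 0, 0] ![1]), (Sum.elim ![0, -1, 0] ![1]), (Sum.elim ![0, -1, -1] ![1])] ![(Sum.elim ![1, 0, 0] ![0]), (Sum.elim ![0, 1, 0] ![0]), (Sum.elim ![0, 0, 1] ![0]), (Sum.elim ![-1, -1, -1] ![0])])
  R := of ![![-1, 0, 0], ![-1, -1, 0], ![-1, -1, -1]]
  hP := by decide
  hK := by decide
  hR := by decide

/-- the same, other terminals -/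
def Kkc2 : Nw (Fin 3 ⊕ Fin 4) (Fin 3 ⊕ Fin 1) (Fin 3) (Fin 4) where
  s := Sum.elim ![Sum.inl 0, Sum.inl 1, Sum.inl 2] ![Sum.inr 3, Sum.inr 1, Sum.inr 0, Sum.inr 2]
  t := Sum.elim ![Sum.inl 2, Sum.inl 0, Sum.inl 1] ![Sum.inl 2, Sum.inl 0, Sum.inl 1, Sum.inl 2]
  e :=
    { toFun := Sum.elim (Sum.elim ![Sum.inr 1, Sum.inr 3, Sum.inr 0] ![Sum.inl 0]) ![Sum.inl 1, Sum.inr 2, Sum.inl 2]
      invFun := Sum.elim ![Sum.inl (Sum.inr 0), Sum.inr 0, Sum.inr 2] ![Sum.inl (Sum.inl 2), Sum.inl (Sum.inl 0), Sum.inr 1, Sum.inl (Sum.inl 1)]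
      left_inv := by decide
      right_inv := by decide }
  P := of (Sum.elim ![(Sum.elim ![0, 0, 0] ![1]), (Sum.elim ![-1, 0, 0] ![1]), (Sum.elim ![0, 1, 1] ![1])] ![(Sum.elim ![0, 0, 1] ![0]), (Sum.elim ![1, 0, 0] ![0]), (Sum.elim ![-1, -1, -1] ![0]), (Sum.elim ![0, 1, 0] ![0])])
  R := of ![![-1, 0, 0], ![-1, -1, -1], ![0, 0, 1]]
  hP := by decide
  hK := by decide
  hR := by decide

/-- a rung and the star -/
def Kkrs : Nw (Fin 3 ⊕ Fin 4) (Fin 3 ⊕ Fin 1) (Fin 3) (Fin 4) where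
  s := Sum.elim ![Sum.inl 1, Sum.inl 2, Sum.inl 1] ![Sum.inr 0, Sum.inr 1, Sum.inr 2, Sum.inr 3]
  t := Sum.elim ![Sum.inl 0, Sum.inl 0, Sum.inl 2] ![Sum.inl 1, Sum.inl 2, Sum.inl 0, Sum.inl 0]
  e :=
    { toFun := Sum.elim (Sum.elim ![Sum.inr 1, Sum.inr 2, Sum.inr 3] ![Sum.inl 1]) ![Sum.inl 0, Sum.inr 0, Sum.inl 2]
      invFun := Sum.elim ![Sum.inr 0, Sum.inl (Sum.inr 0), Sum.inr 2] ![Sum.inr 1, Sum.inl (Sum.inl 0), Sum.inl (Sum.inl 1), Sum.inl (Sum.inl 2)]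
      left_inv := by decide
      right_inv := by decide }
  P := of (Sum.elim ![(Sum.elim ![0, -1, -1] ![-1]), (Sum.elim ![0, 0, 0] ![1]), (Sum.elim ![-1, 0, 0] ![1])] ![(Sum.elim ![-1, -1, -1] ![0]), (Sum.elim ![1, 0, 0] ![0]), (Sum.elim ![0, 1, 0] ![0]), (Sum.elim ![0, 0, 1] ![0])])
  R := of ![![-1, 0, 0], ![-1, -1, -1], ![0, 0, -1]]
  hP := by decide
  hK := by decide
  hR := by decide

/-- a rung and the ring -/
def Kkrr : Nw (Fin 7 ⊕ Fin 4) ((Fin 3 ⊕ Fin 1) ⊕ Fin 1) (Fin 6) (Fin 4) where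
  s := Sum.elim ![Sum.inl 1, Sum.inl 2, Sum.inl 3, Sum.inl 0, Sum.inl 4, Sum.inl 5, Sum.inl 4] ![Sum.inr 0, Sum.inr 1, Sum.inr 2, Sum.inr 3]
  t := Sum.elim ![Sum.inl 0, Sum.inl 1, Sum.inl 2, Sum.inl 3, Sum.inl 0, Sum.inl 1, Sum.inl 5] ![Sum.inl 4, Sum.inl 5, Sum.inl 2, Sum.inl 3]
  e :=
    { toFun := Sum.elim (Sum.elim (Sum.elim ![Sum.inr 1, Sum.inr 2, Sum.inr 3] ![Sum.inl 5]) ![Sum.inl 1]) ![Sum.inl 4, Sum.inl 0, Sum.inl 2, Sum.inl 3, Sum.inr 0, Sum.inl 6]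
      invFun := Sum.elim ![Sum.inr 1, Sum.inl (Sum.inr 0), Sum.inr 2, Sum.inr 3, Sum.inr 0, Sum.inl (Sum.inl (Sum.inr 0)), Sum.inr 5] ![Sum.inr 4, Sum.inl (Sum.inl (Sum.inl 0)), Sum.inl (Sum.inl (Sum.inl 1)), Sum.inl (Sum.inl (Sum.inl 2))]
      left_inv := by decide
      right_inv := by decide }
  P := of (Sum.elim ![(Sum.elim (Sum.elim ![0, 0, 0] ![1]) ![1]), (Sum.elim (Sum.elim ![0, 0, 0] ![0]) ![1]), (Sum.elim (Sum.elim ![0, -1, 0] ![0]) ![1]), (Sum.elim (Sum.elim ![0, -1, -1] ![0]) ![1]), (Sum.elim (Sum.elim ![0, -1, -1] ![-1]) ![0]), (Sum.elim (Sum.elim ![0, 0, 0] ![1]) ![0]), (Sum.elim (Sum.elim ![-1, 0, 0] ![1]) ![0])] ![(Sum.elim (Sum.elim ![-1, -1, -1] ![0]) ![0]), (Sum.elim (Sum.elim ![1, 0, 0] ![0]) ![0]), (Sum.elim (Sum.elim ![0, 1, 0] ![0]) ![0]), (Sum.elim (Sum.elim ![0, 0, 1] ![0]) ![0])])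
  R := of ![![-1, -1, -1, -1, 0, 0], ![0, 1, 0, 0, 0, 0], ![0, 0, -1, 0, 0, 0], ![0, 0, -1, -1, 0, 0], ![-1, -1, -1, -1, -1, -1], ![0, 0, 0, 0, 0, -1]]
  hP := by decide
  hK := by decide
  hR := by decide

end Pool.Agent.Sym3
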