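import Pool.Agent.Sym3.Dat

/-!
# The polynomials of the networks
-/

set_option autoImplicit false
set_option linter.unusedSectionVars false
set_option linter.unnecessarySeqFocus false
set_option linter.unreachableTactic false

open Matrix MvPolynomial
open Pool.Agent.Helper81.CP Pool.Agent.Helper81.HG Pool.Agent.Phi4

namespace Pool.Agent.Sym3

variable {E V A A' : Type} [CommRing A] [CommRing A'] [DecidableEq V] [DecidableEq E] [Fintype E]
  [Fintype V]

/-- the currents through the four terminals -/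
def C3 : Matrix (Fin 4) (Fin 3) ℤ := of ![![-1, -1, -1], ![1, 0, 0], ![0, 1, 0], ![0, 0, 1]]

/-- the polynomial with four legs -/
def FR (s t : E → V) (o : V) (g : Fin 4 → V) (x : Fin 4 → A) (w : E → A) (u v : A) : A :=
  FL (MM s t o w 1) (BV E A g C3) x u v

/-- the polynomial of the graph with a network -/
def NF {κ L N : Type} [DecidableEq κ] [Fintype κ] [DecidableEq N] [Fintype N] [DecidableEq L]
    (K : Nw κ L N (Fin 4)) (s t : E → V) (o : V) (g : Fin 4 → V) (y : κ → A) (w : E → A) : A :=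
  DD (aE K.s g s) (aE K.t g t) (Sum.inr o) (Sum.elim y w) 1

lemma BV_cols {T L K : Type} [Fintype T] [DecidableEq L] [DecidableEq K] (g : T → V)
    (C : Matrix T L ℤ) :
    BV E A g (fromCols C (0 : Matrix T K ℤ)) = fromCols (BV E A g C) (0 : Matrix (E ⊕ V) K A) := by
  ext i l
  rcases i with e | v <;> rcases l with l | l
  · rfl
  · rfl
  · rfl
  · simp [BV]

lemma map_FR (φ : A →+* A') (s t : E → V) (o : V) (g : Fin 4 → V) (x : Fin 4 → A) (w : E → A)
    (u v : A) : φ (FR s t o g x w u v) =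
      FR s t o g (fun i => φ (x i)) (fun e => φ (w e)) (φ u) (φ v) := by
  unfold FR
  rw [map_FL, map_BV]
  congr 1
  unfold MM
  rw [fromBlocks_map]
  congr 1
  · ext i j
    simp only [Matrix.map_apply, diagonal_apply]
    split_ifs <;> simp
  · ext i j
    simp only [Matrix.map_apply, of_apply, inc, map_mul, map_sub]
    split_ifs <;> simp
  · ext i j
    simp only [Matrix.map_apply, of_apply, inc, map_neg, map_sub]
    split_ifs <;> simp
  · ext i j
    simp only [Matrix.map_apply, Matrix.single_apply]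
    split_ifs <;> simp

variable (s t : E → V) (o : V) (g : Fin 4 → V) (w : E → A)

lemma NFA_eq {κ L N : Type} [DecidableEq κ] [Fintype κ] [DecidableEq N] [Fintype N] [DecidableEq L]
    [Fintype L] (K : Nw κ L N (Fin 4)) (y : κ → A) : NF K s t o g y w =
      BF (MM s t o w 1) (BV E A g K.C) (K.Q y) := DD_net K g s t o y w

/-! ### The ring -/

lemma Kring_C : Kring.C = fromCols C3 0 := by
  ext i j
  revert i j
  decide

lemma Kring_Q (y x : Fin 4 → A) : Kring.Q (Sum.elim y x) =
    fromBlocks !![x 0 + x 1 + y 0, x 0, x 0; x 0, x 0 + x 2 + y 2 + y 3, x 0 + y 3;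
      x 0, x 0 + y 3, x 0 + x 3 + y 3] (of fun i _ => ![y 0, -(y 2 + y 3), -y 3] i)
      (of fun _ j => ![y 0, -(y 2 + y 3), -y 3] j) (of fun _ _ => y 0 + y 1 + y 2 + y 3) := by
  ext i j
  rcases i with i | i <;> rcases j with j | j <;> fin_cases i <;> fin_cases j <;>
    simp [Nw.Q, Kring, Fin.sum_univ_succ] <;> ring

theorem NF_ring (S a b c d : A) (h : a + b + c + d = 1) (x : Fin 4 → A) :
    NF Kring s t o g (Sum.elim ![S * a, S * b, S * c, S * d] x) w =
      S * FR s t o g ![x 0 + S * (a * d), x 1 + S * (a * (b + c)),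
        x 2 + S * (a * c + b * c + b * d), x 3 + S * (d * (b + c))] w (S * (b * d))
        (S * (a * c)) := by
  obtain rfl : a = 1 - b - c - d := by linear_combination h
  have hQ : Kring.Q (Sum.elim ![S * (1 - b - c - d), S * b, S * c, S * d] x) =
      fromBlocks !![x 0 + x 1 + S * (1 - b - c - d), x 0, x 0;
        x 0, x 0 + x 2 + S * c + S * d, x 0 + S * d;
        x 0, x 0 + S * d, x 0 + x 3 + S * d]
        (of fun i _ => S * ![1 - b - c - d, -(c + d), -d] i)
        (of fun _ j => S * ![1 - b - c - d, -(c + d), -d] j) (of fun _ _ => S) := by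
    ext i j
    rcases i with i | i <;> rcases j with j | j <;> fin_cases i <;> fin_cases j <;>
      simp [Nw.Q, Kring, Fin.sum_univ_succ] <;> ring
  rw [NFA_eq, Kring_C, BV_cols, hQ, BF_schur, FR, FL]
  congr 2
  ext i j
  fin_cases i <;> fin_cases j <;> simp [TQ] <;> ring

lemma Kstar_C : Kstar.C = C3 := by
  ext i j
  revert i j
  decide

lemma Kha_C : Kha.C = C3 := by
  ext i j
  revert i j
  decide

lemma Khb_C : Khb.C = C3 := by
  ext i j
  revert i j
  decide

lemma Khc_C : Khc.C = C3 := by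
  ext i j
  revert i j
  decide

lemma Kkc1_C : Kkc1.C = fromCols C3 0 := by
  ext i j
  revert i j
  decide

lemma Kkc2_C : Kkc2.C = fromCols C3 0 := by
  ext i j
  revert i j
  decide

lemma Kkrs_C : Kkrs.C = fromCols C3 0 := by
  ext i j
  revert i j
  decide

/-! ### The star and the graphs H -/

theorem NF_star (z : Fin 0 → A) (x : Fin 4 → A) :
    NF Kstar s t o g (Sum.elim z x) w = FR s t o g x w 0 0 := by
  rw [NFA_eq, Kstar_C, FR, FL]
  congr 1
  ext i j
  fin_cases i <;> fin_cases j <;> simp [Nw.Q, Kstar, TQ, Fin.sum_univ_succ]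

theorem NF_ha (z : Fin 1 → A) (x : Fin 4 → A) :
    NF Kha s t o g (Sum.elim z x) w =
      FR s t o g ![x 0, x 1, x 2 + z 0, x 3 + z 0] w (z 0) 0 := by
  rw [NFA_eq, Kha_C, FR, FL]
  congr 1
  ext i j
  fin_cases i <;> fin_cases j <;> simp [Nw.Q, Kha, TQ, Fin.sum_univ_succ] <;> ring

theorem NF_hb (z : Fin 1 → A) (x : Fin 4 → A) :
    NF Khb s t o g (Sum.elim z x) w =
      FR s t o g ![x 0, x 1 + z 0, x 2 + z 0, x 3] w 0 (z 0) := by
  rw [NFA_eq, Khb_C, FR, FL]
  congr 1
  ext i j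
  fin_cases i <;> fin_cases j <;> simp [Nw.Q, Khb, TQ, Fin.sum_univ_succ] <;> ring

theorem NF_hc (z : Fin 1 → A) (x : Fin 4 → A) :
    NF Khc s t o g (Sum.elim z x) w =
      FR s t o g ![x 0 + z 0, x 1, x 2 - z 0, x 3] w (- z 0) (- z 0) := by
  rw [NFA_eq, Khc_C, FR, FL]
  congr 1
  ext i j
  fin_cases i <;> fin_cases j <;> simp [Nw.Q, Khc, TQ, Fin.sum_univ_succ] <;> ring

/-! ### Other terminals, and a rung -/

theorem NF_ring_kc (y2 y3 y4 : A) (x : Fin 4 → A) :
    NF Kring s t o g (Sum.elim ![0, y2, y3, y4] x) w =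
      NF Kkc1 s t o g (Sum.elim ![y2, y3, y4] ![x 1, x 2, x 3, x 0]) w := by
  rw [NFA_eq, NFA_eq, Kring_C, Kkc1_C]
  congr 1
  ext i j
  rcases i with i | i <;> rcases j with j | j <;> fin_cases i <;> fin_cases j <;>
    simp [Nw.Q, Kring, Kkc1, Fin.sum_univ_succ] <;> ring

/-- the parameters of `Kkrs` are `x0`, `x1`, `ρ`, the legs are `Z0`, `Z1`, `x2`, `x3` -/
theorem NF_krs_kc (x0 x1 r : A) (x : Fin 4 → A) :
    NF Kkrs s t o g (Sum.elim ![x0, x1, r] x) w =
      NF Kkc2 s t o g (Sum.elim ![x1, r, x0] ![x 3, x 1, x 0, x 2]) w := by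
  rw [NFA_eq, NFA_eq, Kkrs_C, Kkc2_C]
  congr 1
  ext i j
  rcases i with i | i <;> rcases j with j | j <;> fin_cases i <;> fin_cases j <;>
    simp [Nw.Q, Kkrs, Kkc2, Fin.sum_univ_succ] <;> ring

/-- `ρ = D α`, `x0 = D β`, `x1 = D γ` -/
theorem NF_krs_unit (D α β γ : A) (h : α + β + γ = 1) (x : Fin 4 → A) :
    NF Kkrs s t o g (Sum.elim ![D * β, D * γ, D * α] x) w =
      D * FR s t o g ![x 0 + D * (α * β), x 1 + D * (α * γ), x 2 + D * (β * γ),
        x 3 + D * (β * γ)] w (D * (β * γ)) 0 := by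
  obtain rfl : α = 1 - β - γ := by linear_combination h
  have hQ : Kkrs.Q (Sum.elim ![D * β, D * γ, D * (1 - β - γ)] x) =
      fromBlocks !![x 0 + x 1 + D * (1 - β - γ), x 0, x 0;
        x 0, x 0 + x 2 + D * β, x 0 + D * β;
        x 0, x 0 + D * β, x 0 + x 3 + D * β]
        (of fun i _ => D * ![-(1 - β - γ), β, β] i)
        (of fun _ j => D * ![-(1 - β - γ), β, β] j) (of fun _ _ => D) := by
    ext i j
    rcases i with i | i <;> rcases j with j | j <;> fin_cases i <;> fin_cases j <;>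
      simp [Nw.Q, Kkrs, Fin.sum_univ_succ] <;> ring
  rw [NFA_eq, Kkrs_C, BV_cols, hQ, BF_schur, FR, FL]
  congr 2
  ext i j
  fin_cases i <;> fin_cases j <;> simp [TQ] <;> ring

end Pool.Agent.Sym3
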