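import Pool.Agent.Sym3.EvA

/-!
# The polynomials of the networks, second part
-/

set_option autoImplicit false
set_option linter.unusedSectionVars false
set_option linter.unnecessarySeqFocus false
set_option linter.unreachableTactic false

open Matrix MvPolynomial
open Pool.Agent.Helper81.CP Pool.Agent.Helper81.HG Pool.Agent.Phi4

namespace Pool.Agent.Sym3

variable {E V A A' : Type} [CommRing A] [CommRing A'] [DecidableEq V] [DecidableEq E] [Fintype E]
  [Fintype V]

variable (s t : E → V) (o : V) (g : Fin 4 → V) (w : E → A)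

lemma NFB_eq {κ L N : Type} [DecidableEq κ] [Fintype κ] [DecidableEq N] [Fintype N] [DecidableEq L]
    [Fintype L] (K : Nw κ L N (Fin 4)) (y : κ → A) : NF K s t o g y w =
      BF (MM s t o w 1) (BV E A g K.C) (K.Q y) := DD_net K g s t o y w

/-! ### The ring with a triangle

The parameters of `Kntwo` are `ρ`, `X1`, `e`, `X0`, `y1`, `y2`, `y3`. -/

lemma Kntwo_C : Kntwo.C = fromCols (fromCols C3 0) 0 := by
  ext i j
  revert i j
  decide

theorem NF_ntwo_unit (r X1 e X0 S a b c : A) (h : a + b + c = 1) (x : Fin 4 → A) :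
    NF Kntwo s t o g (Sum.elim ![r, X1, e, X0, S * a, S * b, S * c] x) w =
      S * NF Kring s t o g (Sum.elim ![r, X1 + S * (a * b), e + S * (a * c), X0]
        ![x 0, x 1, x 2 + S * (b * c), x 3]) w := by
  obtain rfl : a = 1 - b - c := by linear_combination h
  have hQ : Kntwo.Q (Sum.elim ![r, X1, e, X0, S * (1 - b - c), S * b, S * c] x) =
      fromBlocks (fromBlocks !![x 0 + x 1 + r, x 0, x 0;
        x 0, x 0 + x 2 + e + X0 + S * c, x 0 + X0;
        x 0, x 0 + X0, x 0 + x 3 + X0] (of fun i _ => ![r, -(e + X0 + S * c), -X0] i)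
        (of fun _ j => ![r, -(e + X0 + S * c), -X0] j)
        (of fun _ _ => r + X1 + e + X0 + S * b + S * c))
        (of fun i _ => S * Sum.elim ![0, c, 0] (fun _ => -(b + c)) i)
        (of fun _ j => S * Sum.elim ![0, c, 0] (fun _ => -(b + c)) j) (of fun _ _ => S) := by
    ext i j
    rcases i with (i | i) | i <;> rcases j with (j | j) | j <;> fin_cases i <;> fin_cases j <;>
      simp [Nw.Q, Kntwo, Fin.sum_univ_succ] <;> ring
  rw [NFB_eq, Kntwo_C, BV_cols, hQ, BF_schur, NFB_eq, Kring_C, Kring_Q]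
  congr 2
  ext i j
  rcases i with i | i <;> rcases j with j | j <;> fin_cases i <;> fin_cases j <;> simp <;> ring

theorem NF_ntwo_zero (r X1 e X0 y1 k : A) (x : Fin 4 → A) :
    NF Kntwo s t o g (Sum.elim ![r, X1, e, X0, y1, -((1 + k) * y1), k * y1] x) w =
      -(y1 * y1) * FR s t o g ![x 0, x 1 + r, x 2 + r * (k * k) + X1 * (k * k) +
        (e + X0) * ((1 + k) * (1 + k)) + y1 * (k * (1 + k)), x 3 + X0] w (X0 * (1 + k))
        (-(r * k)) := by
  have hQ : Kntwo.Q (Sum.elim ![r, X1, e, X0, y1, -((1 + k) * y1), k * y1] x) =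
      fromBlocks (fromBlocks !![x 0 + x 1 + r, x 0, x 0;
        x 0, x 0 + x 2 + e + X0 + k * y1, x 0 + X0;
        x 0, x 0 + X0, x 0 + x 3 + X0] (of fun i _ => ![r, -(e + X0 + k * y1), -X0] i)
        (of fun _ j => ![r, -(e + X0 + k * y1), -X0] j)
        (of fun _ _ => r + X1 + e + X0 - y1))
        (of fun i _ => Sum.elim (fun i => y1 * ![0, k, 0] i) (fun _ => y1) i)
        (of fun _ j => Sum.elim (fun j => y1 * ![0, k, 0] j) (fun _ => y1) j) 0 := by
    ext i j
    rcases i with (i | i) | i <;> rcases j with (j | j) | j <;> fin_cases i <;> fin_cases j <;>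
      simp [Nw.Q, Kntwo, Fin.sum_univ_succ] <;> ring
  rw [NFB_eq, Kntwo_C, BV_cols, BV_cols, hQ, BF_hyp, FR, FL]
  congr 2
  ext i j
  fin_cases i <;> fin_cases j <;> simp [TQ] <;> ring

lemma BVB_submatrix {T L K : Type} [Fintype T] (g : T → V) (C : Matrix T L ℤ) (e : K → L) :
    (BV E A g C).submatrix id e = BV E A g (C.submatrix id e) := by
  ext i l
  rcases i with i | v
  · rfl
  · rfl

lemma BVB_cols {T L K : Type} [Fintype T] (g : T → V) (C : Matrix T L ℤ) (C' : Matrix T K ℤ) :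
    BV E A g (fromCols C C') = fromCols (BV E A g C) (BV E A g C') := by
  ext i l
  rcases i with e | v <;> rcases l with l | l <;> rfl

lemma BVB_one {T : Type} [Fintype T] (g : T → V) (C : Matrix T (Fin 1) ℤ) :
    BV E A g C = of fun i (_ : Fin 1) => BV E A g C i 0 := by
  ext i l
  fin_cases l
  rfl

/-- the column of the current which vanishes -/
def Cm : Matrix (Fin 4) (Fin 1) ℤ := of ![![-1], ![0], ![1], ![0]]

/-- the order of the currents -/
def eNt : ((Fin 2 ⊕ Fin 1) ⊕ Fin 1) ⊕ Fin 1 ≃ (Fin 3 ⊕ Fin 1) ⊕ Fin 1 where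
  toFun := Sum.elim (Sum.elim (Sum.elim ![Sum.inl (Sum.inl 0), Sum.inl (Sum.inl 2)]
    ![Sum.inl (Sum.inr 0)]) ![Sum.inl (Sum.inl 1)]) ![Sum.inr 0]
  invFun := Sum.elim (Sum.elim ![Sum.inl (Sum.inl (Sum.inl 0)), Sum.inl (Sum.inr 0),
    Sum.inl (Sum.inl (Sum.inl 1))] ![Sum.inl (Sum.inl (Sum.inr 0))]) ![Sum.inr 0]
  left_inv := by decide
  right_inv := by decide

lemma Kntwo_C' : Kntwo.C.submatrix id eNt = fromCols (fromCols Ktri.C Cm) 0 := by
  ext i j
  revert i j
  decide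

theorem NF_ntwo_tri (r X1 e X0 y3 : A) (x : Fin 4 → A) :
    NF Kntwo s t o g (Sum.elim ![r, X1, e, X0, 0, -y3, y3] x) w =
      -(y3 * y3) * NF Ktri s t o g (Sum.elim ![r, X1 + e, X0] ![x 0, x 1, x 3]) w := by
  have hQ : (Kntwo.Q (Sum.elim ![r, X1, e, X0, 0, -y3, y3] x)).submatrix eNt eNt =
      fromBlocks (fromBlocks (Ktri.Q (Sum.elim ![r, X1 + e, X0] ![x 0, x 1, x 3]))
        (of fun i _ => Sum.elim ![x 0, x 0 + X0] ![-(e + X0 + y3)] i)
        (of fun _ j => Sum.elim ![x 0, x 0 + X0] ![-(e + X0 + y3)] j)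
        (of fun _ _ => x 0 + x 2 + e + X0 + y3))
        (of fun i _ => Sum.elim (fun _ => 0) (fun _ => y3) i)
        (of fun _ j => Sum.elim (fun _ => 0) (fun _ => y3) j) 0 := by
    ext i j
    rcases i with ((i | i) | i) | i <;> rcases j with ((j | j) | j) | j <;> fin_cases i <;>
      fin_cases j <;> simp [Nw.Q, Kntwo, Ktri, eNt, Fin.sum_univ_succ] <;> ring
  rw [NFB_eq, ← BF_reindex eNt, BVB_submatrix, Kntwo_C', BV_cols, BVB_cols, BVB_one g Cm, hQ,
    BF_drop, NFB_eq]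

/-! ### The triangle with two legs -/

lemma Knh_C : Knh.C = fromCols C3 0 := by
  ext i j
  revert i j
  decide

lemma Kkc_C : Kkc.C = fromCols C3 0 := by
  ext i j
  revert i j
  decide

theorem NF_nh_unit (S a b c e : A) (h : a + b + c = 1) (x : Fin 4 → A) :
    NF Knh s t o g (Sum.elim ![S * a, S * b, S * c, e] x) w =
      S * FR s t o g ![x 0, x 1 + e + S * (a * (b + c)), x 2 + e + S * (c * (a + b)), x 3] w 0
        (e + S * (a * c)) := by
  obtain rfl : a = 1 - b - c := by linear_combination h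
  have hQ : Knh.Q (Sum.elim ![S * (1 - b - c), S * b, S * c, e] x) =
      fromBlocks !![x 0 + x 1 + S * b + S * c + e, x 0 + S * c + e, x 0;
        x 0 + S * c + e, x 0 + x 2 + S * c + e, x 0;
        x 0, x 0, x 0 + x 3] (of fun i _ => S * ![-(b + c), -c, 0] i)
        (of fun _ j => S * ![-(b + c), -c, 0] j) (of fun _ _ => S) := by
    ext i j
    rcases i with i | i <;> rcases j with j | j <;> fin_cases i <;> fin_cases j <;>
      simp [Nw.Q, Knh, Fin.sum_univ_succ] <;> ring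
  rw [NFB_eq, Knh_C, BV_cols, hQ, BF_schur, FR, FL]
  congr 2
  ext i j
  fin_cases i <;> fin_cases j <;> simp [TQ] <;> ring

/-- the order of the currents -/
def eNh : (Fin 2 ⊕ Fin 1) ⊕ Fin 1 ≃ Fin 3 ⊕ Fin 1 where
  toFun := Sum.elim (Sum.elim ![Sum.inl 0, Sum.inl 2] ![Sum.inl 1]) ![Sum.inr 0]
  invFun := Sum.elim ![Sum.inl (Sum.inl 0), Sum.inl (Sum.inr 0), Sum.inl (Sum.inl 1)] ![Sum.inr 0]
  left_inv := by decide
  right_inv := by decide

lemma Knh_C' : Knh.C.submatrix id eNh = fromCols (fromCols Kstar3.C Cm) 0 := by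
  ext i j
  revert i j
  decide

theorem NF_nh_star (z3 e : A) (x : Fin 4 → A) :
    NF Knh s t o g (Sum.elim ![0, -z3, z3, e] x) w =
      -(z3 * z3) * NF Kstar3 s t o g (Sum.elim (finZeroElim : Fin 0 → A) ![x 0, x 1 + e, x 3]) w := by
  have hQ : (Knh.Q (Sum.elim ![0, -z3, z3, e] x)).submatrix eNh eNh =
      fromBlocks (fromBlocks (Kstar3.Q (Sum.elim (finZeroElim : Fin 0 → A) ![x 0, x 1 + e, x 3]))
        (of fun i _ => ![x 0 + z3 + e, x 0] i) (of fun _ j => ![x 0 + z3 + e, x 0] j)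
        (of fun _ _ => x 0 + x 2 + z3 + e))
        (of fun i _ => Sum.elim (fun _ => 0) (fun _ => -z3) i)
        (of fun _ j => Sum.elim (fun _ => 0) (fun _ => -z3) j) 0 := by
    ext i j
    rcases i with (i | i) | i <;> rcases j with (j | j) | j <;> fin_cases i <;> fin_cases j <;>
      simp [Nw.Q, Knh, Kstar3, eNh, Fin.sum_univ_succ] <;> ring
  rw [NFB_eq, ← BF_reindex eNh, BVB_submatrix, Knh_C', BV_cols, BVB_cols, BVB_one g Cm, hQ, BF_drop,
    NFB_eq]
  ring

lemma Kkc_C' : Kkc.C.submatrix id eNh = fromCols (fromCols Kstar3.C Cm) 0 := by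
  ext i j
  revert i j
  decide

theorem NF_kc_star (z3 : A) (x : Fin 4 → A) :
    NF Kkc s t o g (Sum.elim ![0, -z3, z3] x) w =
      -(z3 * z3) * NF Kstar3 s t o g (Sum.elim (finZeroElim : Fin 0 → A) ![x 0, x 1, x 3]) w := by
  have hQ : (Kkc.Q (Sum.elim ![0, -z3, z3] x)).submatrix eNh eNh =
      fromBlocks (fromBlocks (Kstar3.Q (Sum.elim (finZeroElim : Fin 0 → A) ![x 0, x 1, x 3]))
        (of fun i _ => ![x 0 + z3, x 0] i) (of fun _ j => ![x 0 + z3, x 0] j)
        (of fun _ _ => x 0 + x 2 + z3))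
        (of fun i _ => Sum.elim (fun _ => 0) (fun _ => -z3) i)
        (of fun _ j => Sum.elim (fun _ => 0) (fun _ => -z3) j) 0 := by
    ext i j
    rcases i with (i | i) | i <;> rcases j with (j | j) | j <;> fin_cases i <;> fin_cases j <;>
      simp [Nw.Q, Kkc, Kstar3, eNh, Fin.sum_univ_succ] <;> ring
  rw [NFB_eq, ← BF_reindex eNh, BVB_submatrix, Kkc_C', BV_cols, BVB_cols, BVB_one g Cm, hQ, BF_drop,
    NFB_eq]
  ring

/-- the edge `e` is absorbed by the leg `2` -/
theorem NF_nh_kc (z1 k e : A) (x : Fin 4 → A) :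
    NF Knh s t o g (Sum.elim ![z1, -((1 + k) * z1), k * z1, e * z1] x) w =
      NF Kkc s t o g (Sum.elim ![z1, -((1 + k) * z1), k * z1]
        ![x 0, x 1, x 2 + e * z1 * ((1 + k) * (1 + k)), x 3]) w := by
  have h1 : Kkc.Q (Sum.elim ![z1, -((1 + k) * z1), k * z1]
        ![x 0, x 1, x 2 + e * z1 * ((1 + k) * (1 + k)), x 3]) =
      fromBlocks !![x 0 + x 1 - z1, x 0 + k * z1, x 0;
        x 0 + k * z1, x 0 + x 2 + e * z1 * ((1 + k) * (1 + k)) + k * z1, x 0;
        x 0, x 0, x 0 + x 3]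
        (of fun i _ => ![z1, -(k * z1), 0] i) (of fun _ j => ![z1, -(k * z1), 0] j) 0 := by
    ext i j
    rcases i with i | i <;> rcases j with j | j <;> fin_cases i <;> fin_cases j <;>
      simp [Nw.Q, Kkc, Fin.sum_univ_succ] <;> ring
  have h2 : Knh.Q (Sum.elim ![z1, -((1 + k) * z1), k * z1, e * z1] x) =
      fromBlocks (!![x 0 + x 1 - z1, x 0 + k * z1, x 0;
        x 0 + k * z1, x 0 + x 2 + e * z1 * ((1 + k) * (1 + k)) + k * z1, x 0;
        x 0, x 0, x 0 + x 3] + of fun i j => ![e, e, 0] i * ![z1, -(k * z1), 0] j +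
          ![z1, -(k * z1), 0] i * ![0, e * (1 + k), 0] j)
        (of fun i _ => ![z1, -(k * z1), 0] i) (of fun _ j => ![z1, -(k * z1), 0] j) 0 := by
    ext i j
    rcases i with i | i <;> rcases j with j | j <;> fin_cases i <;> fin_cases j <;>
      simp [Nw.Q, Knh, Fin.sum_univ_succ, vecHead, vecTail] <;> ring
  rw [NFB_eq, NFB_eq, Knh_C, Kkc_C, BV_cols, h1, h2, BF_mult]


lemma Kkrr_C : Kkrr.C = fromCols (fromCols C3 0) 0 := by
  ext i j
  revert i j
  decide

/-- the parameters of `Kkrr` are `y1`, `y2`, `y3`, `y4`, `x0`, `x1`, `ρ` -/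
theorem NF_krr (y1 a b x0 x1 r : A) (x : Fin 4 → A) :
    NF Kkrr s t o g (Sum.elim ![y1, a * y1, (b - a) * y1, -((1 + b) * y1), x0, x1, r] x) w =
      -(y1 * y1) * FR s t o g ![x 0 + r * (1 + b), x 1 - r * b,
        x 2 + r * ((1 + a) * (1 + a)) + x0 * (a * a) + (x1 + y1) * ((1 + a) * (1 + a)) -
          (1 + a) * y1 - r * (1 + b),
        x 3 + r * ((1 + b) * (1 + b)) + x0 * (b * b) + (x1 + y1) * ((1 + b) * (1 + b)) -
          (1 + b) * y1 - r * (1 + b)] w
        ((r + y1) * (a * (1 + b)) + x0 * (a * b) + x1 * ((1 + a) * (1 + b))) (r * (a - b)) := by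
  have hQ : Kkrr.Q (Sum.elim ![y1, a * y1, (b - a) * y1, -((1 + b) * y1), x0, x1, r] x) =
      fromBlocks (fromBlocks !![x 0 + x 1 + r, x 0, x 0;
        x 0, x 0 + x 2 - (1 + a) * y1 + x0, x 0 - (1 + b) * y1 + x0;
        x 0, x 0 - (1 + b) * y1 + x0, x 0 + x 3 - (1 + b) * y1 + x0]
        (of fun i _ => ![-r, x0, x0] i)
        (of fun _ j => ![-r, x0, x0] j)
        (of fun _ _ => y1 + x0 + x1 + r))
        (of fun i _ => Sum.elim (fun i => y1 * ![0, 1 + a, 1 + b] i) (fun _ => y1) i)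
        (of fun _ j => Sum.elim (fun j => y1 * ![0, 1 + a, 1 + b] j) (fun _ => y1) j) 0 := by
    ext i j
    rcases i with (i | i) | i <;> rcases j with (j | j) | j <;> fin_cases i <;> fin_cases j <;>
      simp [Nw.Q, Kkrr, Fin.sum_univ_succ] <;> ring
  rw [NFB_eq, Kkrr_C, BV_cols, BV_cols, hQ, BF_hyp, FR, FL]
  congr 2
  ext i j
  fin_cases i <;> fin_cases j <;> simp [TQ] <;> ring

end Pool.Agent.Sym3
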