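import Mathlib

/-!
# Bordered determinants
-/

set_option autoImplicit false
set_option linter.unusedSectionVars false

open Matrix

namespace Pool.Agent.Sym3

section

variable {A A' m L K : Type} [CommRing A] [CommRing A'] [Fintype m] [DecidableEq m] [Fintype L]
  [DecidableEq L] [Fintype K] [DecidableEq K]

/-- the determinant of the matrix with the blocks `M`, `B`, `-Bᵀ`, `Q` -/
def BF (M : Matrix m m A) (B : Matrix m L A) (Q : Matrix L L A) : A :=
  (fromBlocks M B (-Bᵀ) Q).det

lemma map_BF (φ : A →+* A') (M : Matrix m m A) (B : Matrix m L A) (Q : Matrix L L A) :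
    φ (BF M B Q) = BF (M.map φ) (B.map φ) (Q.map φ) := by
  unfold BF
  rw [RingHom.map_det, RingHom.mapMatrix_apply, fromBlocks_map]
  congr 2
  ext i j
  simp

lemma BF_reindex (e : K ≃ L) (M : Matrix m m A) (B : Matrix m L A) (Q : Matrix L L A) :
    BF M (B.submatrix id e) (Q.submatrix e e) = BF M B Q := by
  unfold BF
  rw [← det_submatrix_equiv_self (Equiv.sumCongr (Equiv.refl m) e) (fromBlocks M B (-Bᵀ) Q)]
  congr 1
  ext i j
  rcases i with i | i <;> rcases j with j | j <;> rfl

/-- change of the basis -/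
lemma BF_congr (S : Matrix L L A) (M : Matrix m m A) (B : Matrix m L A) (Q : Matrix L L A) :
    BF M (B * S) (Sᵀ * Q * S) = S.det ^ 2 * BF M B Q := by
  unfold BF
  have h : fromBlocks M (B * S) (-(B * S)ᵀ) (Sᵀ * Q * S) =
      fromBlocks 1 0 0 Sᵀ * fromBlocks M B (-Bᵀ) Q * fromBlocks 1 0 0 S := by
    rw [fromBlocks_multiply, fromBlocks_multiply]
    simp [Matrix.mul_assoc]
  rw [h, det_mul, det_mul, det_fromBlocks_zero₂₁, det_fromBlocks_zero₂₁, det_one, det_transpose]
  ring

/-! ### Shears -/

/-- an associated block form -/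
lemma BF_assoc (M : Matrix m m A) (B : Matrix m L A) (C : Matrix m K A) (Q : Matrix L L A)
    (R : Matrix L K A) (R' : Matrix K L A) (T : Matrix K K A) :
    BF M (fromCols B C) (fromBlocks Q R R' T) =
      (fromBlocks (fromBlocks M B (-Bᵀ) Q) (fromRows C R) (fromCols (-Cᵀ) R') T).det := by
  unfold BF
  rw [← det_submatrix_equiv_self (Equiv.sumAssoc m L K)]
  congr 1
  ext i j
  rcases i with (i | i) | i <;> rcases j with (j | j) | j <;> rfl

lemma det_shear (X : Matrix m m A) (R : Matrix m K A) (R' : Matrix K m A) (T : Matrix K K A)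
    (U : Matrix m K A) (V : Matrix K m A) :
    (fromBlocks (X + U * R' + (R + U * T) * V) (R + U * T) (R' + T * V) T).det =
      (fromBlocks X R R' T).det := by
  have h : fromBlocks (X + U * R' + (R + U * T) * V) (R + U * T) (R' + T * V) T =
      fromBlocks 1 U 0 1 * fromBlocks X R R' T * fromBlocks 1 0 V 1 := by
    rw [fromBlocks_multiply, fromBlocks_multiply]
    simp
  rw [h, det_mul, det_mul, det_fromBlocks_zero₂₁, det_fromBlocks_zero₁₂]
  simp

lemma det_two (X : Matrix m m A) (a b : m → A) (w q q' : A) :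
    (fromBlocks X (fromCols (of fun i (_ : Fin 1) => a i) (0 : Matrix m (Fin 1) A))
      (fromRows (of fun (_ : Fin 1) j => b j) (0 : Matrix (Fin 1) m A))
      (fromBlocks (of fun (_ : Fin 1) (_ : Fin 1) => w) (of fun (_ : Fin 1) (_ : Fin 1) => q)
        (of fun (_ : Fin 1) (_ : Fin 1) => q') (0 : Matrix (Fin 1) (Fin 1) A))).det =
      - (q * q') * X.det := by
  have hJ : (fromBlocks 0 1 1 0 : Matrix (Fin 1 ⊕ Fin 1) (Fin 1 ⊕ Fin 1) A).det = -1 := by
    rw [← det_submatrix_equiv_self (finSumFinEquiv (m := 1) (n := 1)).symm, det_fin_two]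
    have h0 : (finSumFinEquiv (m := 1) (n := 1)).symm 0 = Sum.inl 0 := by decide
    have h1 : (finSumFinEquiv (m := 1) (n := 1)).symm 1 = Sum.inr 0 := by decide
    simp [h0, h1]
  have h1 : fromBlocks X (fromCols (of fun i (_ : Fin 1) => a i) (0 : Matrix m (Fin 1) A))
      (fromRows (of fun (_ : Fin 1) j => b j) (0 : Matrix (Fin 1) m A))
      (fromBlocks (of fun (_ : Fin 1) (_ : Fin 1) => w) (of fun (_ : Fin 1) (_ : Fin 1) => q)
        (of fun (_ : Fin 1) (_ : Fin 1) => q') (0 : Matrix (Fin 1) (Fin 1) A)) *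
      fromBlocks 1 0 0 (fromBlocks 0 1 1 0 : Matrix (Fin 1 ⊕ Fin 1) (Fin 1 ⊕ Fin 1) A) =
      (fromBlocks (fromBlocks X 0 (of fun (_ : Fin 1) j => b j)
        (of fun (_ : Fin 1) (_ : Fin 1) => q))
        (fromRows (of fun i (_ : Fin 1) => a i) (of fun (_ : Fin 1) (_ : Fin 1) => w)) 0
        (of fun (_ : Fin 1) (_ : Fin 1) => q')).submatrix (Equiv.sumAssoc m (Fin 1) (Fin 1)).symm
        (Equiv.sumAssoc m (Fin 1) (Fin 1)).symm := by
    rw [fromBlocks_multiply]
    ext i j
    rcases i with i | i | i <;> rcases j with j | j | j <;>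
      simp [Matrix.mul_apply, Matrix.one_apply, Fin.ext_iff]
  have h2 := congrArg Matrix.det h1
  rw [det_mul, det_fromBlocks_zero₂₁, det_one, one_mul, hJ, det_submatrix_equiv_self,
    det_fromBlocks_zero₂₁, det_fromBlocks_zero₁₂] at h2
  simp only [det_unique, of_apply] at h2
  linear_combination -h2

lemma det_shear' {X X' : Matrix m m A} {R S : Matrix m K A} {R' S' : Matrix K m A}
    {T : Matrix K K A} (U : Matrix m K A) (V : Matrix K m A)
    (hX : X' = X + U * R' + (R + U * T) * V) (hR : S = R + U * T) (hR' : S' = R' + T * V) :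
    (fromBlocks X' S S' T).det = (fromBlocks X R R' T).det := by
  rw [hX, hR, hR', det_shear]

/-- elimination of a variable -/
lemma BF_schur (M : Matrix m m A) (B : Matrix m L A) (Q : Matrix L L A) (γ γ' : L → A) (s : A) :
    BF M (fromCols B (0 : Matrix m (Fin 1) A)) (fromBlocks Q (of fun i _ => s * γ i)
      (of fun _ j => s * γ' j) (of fun _ _ => s)) =
      s * BF M B (Q - of fun i j => s * (γ i * γ' j)) := by
  rw [BF_assoc, det_shear' (X := fromBlocks M B (-Bᵀ) (Q - of fun i j => s * (γ i * γ' j)))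
    (R := 0) (R' := 0) (of fun i (_ : Fin 1) => Sum.elim 0 γ i)
    (of fun (_ : Fin 1) j => Sum.elim 0 γ' j), det_fromBlocks_zero₂₁, mul_comm]
  · congr 1
    simp
  · ext i j
    rcases i with i | i <;> rcases j with j | j <;> simp [Matrix.mul_apply]
    ring
  · ext i j
    rcases i with i | i <;> simp [Matrix.mul_apply]
    ring
  · ext i j
    rcases j with j | j <;> simp [Matrix.mul_apply]

/-- elimination of two variables -/
lemma BF_hyp (M : Matrix m m A) (B : Matrix m L A) (Q : Matrix L L A) (c c' γ γ' : L → A)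
    (w q q' : A) :
    BF M (fromCols (fromCols B (0 : Matrix m (Fin 1) A)) (0 : Matrix m (Fin 1) A))
      (fromBlocks (fromBlocks Q (of fun i _ => c i) (of fun _ j => c' j) (of fun _ _ => w))
        (of fun i _ => Sum.elim (fun i => q * γ i) (fun _ => q) i)
        (of fun _ j => Sum.elim (fun j => q' * γ' j) (fun _ => q') j) 0) =
      - (q * q') * BF M B (Q - of fun i j => c i * γ' j + γ i * c' j - w * (γ i * γ' j)) := by
  have h1 := BF_assoc M B (0 : Matrix m (Fin 1 ⊕ Fin 1) A) Q
    (fromCols (of fun i (_ : Fin 1) => c i) (of fun i (_ : Fin 1) => q * γ i))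
    (fromRows (of fun (_ : Fin 1) j => c' j) (of fun (_ : Fin 1) j => q' * γ' j))
    (fromBlocks (of fun (_ _ : Fin 1) => w) (of fun (_ _ : Fin 1) => q) (of fun (_ _ : Fin 1) => q')
      0)
  rw [← BF_reindex (Equiv.sumAssoc L (Fin 1) (Fin 1))] at h1
  refine Eq.trans ?_ (h1.trans ?_)
  · congr 1
    · ext i j
      rcases j with (j | j) | j <;> rfl
    · ext i j
      rcases i with (i | i) | i <;> rcases j with (j | j) | j <;> rfl
  rw [det_shear' (X := fromBlocks M B (-Bᵀ)
      (Q - of fun i j => c i * γ' j + γ i * c' j - w * (γ i * γ' j)))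
    (R := fromCols (of fun i (_ : Fin 1) => Sum.elim 0 (fun i => c i - w * γ i) i) 0)
    (R' := fromRows (of fun (_ : Fin 1) j => Sum.elim 0 (fun j => c' j - w * γ' j) j) 0)
    (fromCols (of fun i (_ : Fin 1) => Sum.elim 0 γ i) 0)
    (fromRows (of fun (_ : Fin 1) j => Sum.elim 0 γ' j) 0), det_two]
  · rfl
  · ext i j
    rcases i with i | i <;> rcases j with j | j <;> simp [Matrix.mul_apply]
    ring
  · ext i j
    rcases i with i | i <;> rcases j with j | j <;> simp [Matrix.mul_apply]
    · ring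
    · ring
  · ext i j
    rcases i with i | i <;> rcases j with j | j <;> simp [Matrix.mul_apply]

/-- a variable that is forced to be zero -/
lemma BF_drop (M : Matrix m m A) (B : Matrix m L A) (b : m → A) (Q : Matrix L L A) (c c' : L → A)
    (w q q' : A) :
    BF M (fromCols (fromCols B (of fun i (_ : Fin 1) => b i)) (0 : Matrix m (Fin 1) A))
      (fromBlocks (fromBlocks Q (of fun i _ => c i) (of fun _ j => c' j) (of fun _ _ => w))
        (of fun i _ => Sum.elim (fun _ => 0) (fun _ => q) i)
        (of fun _ j => Sum.elim (fun _ => 0) (fun _ => q') j) 0) =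
      - (q * q') * BF M B Q := by
  have h1 := BF_assoc M B (fromCols (of fun i (_ : Fin 1) => b i) (0 : Matrix m (Fin 1) A)) Q
    (fromCols (of fun i (_ : Fin 1) => c i) (0 : Matrix L (Fin 1) A))
    (fromRows (of fun (_ : Fin 1) j => c' j) (0 : Matrix (Fin 1) L A))
    (fromBlocks (of fun (_ _ : Fin 1) => w) (of fun (_ _ : Fin 1) => q) (of fun (_ _ : Fin 1) => q')
      0)
  rw [← BF_reindex (Equiv.sumAssoc L (Fin 1) (Fin 1))] at h1
  have h2 := det_two (fromBlocks M B (-Bᵀ) Q) (Sum.elim b c) (Sum.elim (fun i => - b i) c') w q q'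
  refine Eq.trans ?_ (h1.trans (Eq.trans ?_ h2))
  · congr 1
    · ext i j
      rcases j with (j | j) | j <;> rfl
    · ext i j
      rcases i with (i | i) | i <;> rcases j with (j | j) | j <;> rfl
  · congr 2
    · ext i j
      rcases i with i | i <;> rcases j with j | j <;> rfl
    · ext i j
      rcases i with i | i <;> rcases j with j | j <;> simp

/-- forms which agree where the multiplier vanishes -/
lemma BF_mult (M : Matrix m m A) (B : Matrix m L A) (Q : Matrix L L A) (a b r r' : L → A) :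
    BF M (fromCols B (0 : Matrix m (Fin 1) A)) (fromBlocks (Q + of fun i j => a i * r' j + r i * b j)
      (of fun i _ => r i) (of fun _ j => r' j) 0) =
    BF M (fromCols B (0 : Matrix m (Fin 1) A)) (fromBlocks Q (of fun i _ => r i)
      (of fun _ j => r' j) 0) := by
  rw [BF_assoc, BF_assoc]
  refine det_shear' (of fun i (_ : Fin 1) => Sum.elim 0 a i) (of fun (_ : Fin 1) j => Sum.elim 0 b j)
    ?_ ?_ ?_
  · ext i j
    rcases i with i | i <;> rcases j with j | j <;> simp [Matrix.mul_apply]
    ring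
  · simp
  · simp

lemma BF_zero (M : Matrix m m A) (B : Matrix m L A) (Q : Matrix L L A) :
    BF M (fromCols B (0 : Matrix m (Fin 1) A)) (fromBlocks Q 0 0 0) = 0 := by
  rw [BF_assoc]
  refine det_eq_zero_of_column_eq_zero (Sum.inr 0) fun i => ?_
  rcases i with (i | i) | i <;> rfl

/-! ### The forms in three variables -/

/-- the general symmetric matrix -/
def TQ (d1 d2 d3 c u v : A) : Matrix (Fin 3) (Fin 3) A :=
  !![d1, c + v, c; c + v, d2, c + u; c, c + u, d3]

/-- the polynomial of the graph with the four legs `x` and the form `2 u i₂ i₃ + 2 v i₁ i₂` -/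
def FL (M : Matrix m m A) (B : Matrix m (Fin 3) A) (x : Fin 4 → A) (u v : A) : A :=
  BF M B (TQ (x 0 + x 1) (x 0 + x 2) (x 0 + x 3) (x 0) u v)

lemma map_FL (φ : A →+* A') (M : Matrix m m A) (B : Matrix m (Fin 3) A) (x : Fin 4 → A) (u v : A) :
    φ (FL M B x u v) = FL (M.map φ) (B.map φ) (fun i => φ (x i)) (φ u) (φ v) := by
  unfold FL
  rw [map_BF]
  congr 1
  ext i j
  fin_cases i <;> fin_cases j <;> simp [TQ]

end

end Pool.Agent.Sym3
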