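import Pool.Agent.Sym3.Cp0

/-!
# The weight rule
-/

set_option autoImplicit false
set_option linter.unusedSectionVars false

open AlgebraicGeometry CategoryTheory MvPolynomial
open Pool.Agent.Helper81.CP Pool.Agent.Helper81.HG Pool.Agent.Phi4

namespace Pool.Agent.Sym3

variable {G : ∀ (R : Type) [CommRing R], Prop}

/-! ### The rules for predicates -/

section

variable {σ τ : Type} [Finite σ] [Finite τ] (hG : CP0 G)

include hG

lemma gd_go {P : Pd τ} (h : Gd G P) {E : Set (MvPolynomial τ ℤ)} {p : MvPolynomial τ ℤ}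
    (e : ∀ (A : Type) [CommRing A] (x : τ → A), P A x ↔ Lc E p x) : GO G E p := by
  obtain ⟨E', p', h1, h2⟩ := h
  exact (hG.gl_congr fun A _ x => (h1 A x).symm.trans (e A x)).mp h2

lemma gd_glue {P : Pd τ} (hP : Rp P) (q : MvPolynomial τ ℤ)
    (h0 : Gd G (fun A _ x => P A x ∧ ev x q = 0))
    (h1 : Gd G (fun A _ x => P A x ∧ IsUnit (ev x q))) : Gd G P := by
  obtain ⟨E, p, e⟩ := hP
  refine ⟨E, p, e, hG.gl_glue q (gd_go hG h0 fun A _ x => ?_) (gd_go hG h1 fun A _ x => ?_)⟩
  · rw [e]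
    unfold Lc
    rw [Pt.insert_iff]
    tauto
  · rw [e]
    unfold Lc
    rw [map_mul, IsUnit.mul_iff]
    tauto

lemma gd_opn {P : Pd τ} (hP : Gd G P) (q : MvPolynomial τ ℤ)
    (h0 : Gd G (fun A _ x => P A x ∧ ev x q = 0)) :
    Gd G (fun A _ x => P A x ∧ IsUnit (ev x q)) := by
  obtain ⟨E, p, e, h⟩ := hP
  refine ⟨E, p * q, fun A _ x => ?_, hG.gl_opn q h (gd_go hG h0 fun A _ x => ?_)⟩
  · show P A x ∧ IsUnit (ev x q) ↔ _
    rw [e]
    unfold Lc
    rw [map_mul, IsUnit.mul_iff]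
    tauto
  · rw [e]
    unfold Lc
    rw [Pt.insert_iff]
    tauto

lemma gd_closed {P : Pd τ} (hP : Gd G P) (q : MvPolynomial τ ℤ)
    (h1 : Gd G (fun A _ x => P A x ∧ IsUnit (ev x q))) :
    Gd G (fun A _ x => P A x ∧ ev x q = 0) := by
  obtain ⟨E, p, e, h⟩ := hP
  refine ⟨insert q E, p, fun A _ x => ?_, hG.gl_closed q h (gd_go hG h1 fun A _ x => ?_)⟩
  · show P A x ∧ ev x q = 0 ↔ _
    rw [e]
    unfold Lc
    rw [Pt.insert_iff]
    tauto
  · rw [e]
    unfold Lc
    rw [map_mul, IsUnit.mul_iff]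
    tauto

/-- isomorphic predicates -/
lemma gd_iso {P : Pd σ} {P' : Pd τ} (hP' : Rp P')
    (f : ∀ (A : Type) [CommRing A], (σ → A) → (τ → A))
    (g : ∀ (A : Type) [CommRing A], (τ → A) → (σ → A))
    (nf : ∀ (A B : Type) [CommRing A] [CommRing B] (φ : A →+* B) (x : σ → A), P A x →
      ∀ j, φ (f A x j) = f B (fun i => φ (x i)) j)
    (ng : ∀ (A B : Type) [CommRing A] [CommRing B] (φ : A →+* B) (y : τ → A), P' A y →
      ∀ i, φ (g A y i) = g B (fun j => φ (y j)) i)
    (hf : ∀ (A : Type) [CommRing A] (x : σ → A), P A x → P' A (f A x))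
    (hg : ∀ (A : Type) [CommRing A] (y : τ → A), P' A y → P A (g A y))
    (gf : ∀ (A : Type) [CommRing A] (x : σ → A), P A x → g A (f A x) = x)
    (fg : ∀ (A : Type) [CommRing A] (y : τ → A), P' A y → f A (g A y) = y)
    (h : Gd G P) : Gd G P' := by
  obtain ⟨E, p, e, h⟩ := h
  obtain ⟨E', p', e'⟩ := hP'
  refine ⟨E', p', e', (hG.gl_iso f g ?_ ?_ ?_ ?_ ?_ ?_).mp h⟩
  · intro A B _ _ φ x hx
    exact nf A B φ x ((e A x).mpr hx)
  · intro A B _ _ φ y hy
    exact ng A B φ y ((e' A y).mpr hy)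
  · intro A _ x hx
    exact (e' A _).mp (hf A x ((e A x).mpr hx))
  · intro A _ y hy
    exact (e A _).mp (hg A y ((e' A y).mpr hy))
  · intro A _ x hx
    exact gf A x ((e A x).mpr hx)
  · intro A _ y hy
    exact fg A y ((e' A y).mpr hy)

/-- a nilpotent function -/
lemma gd_nil {P : Pd τ} (q : MvPolynomial τ ℤ)
    (h : ∀ (A : Type) [CommRing A] (x : τ → A), P A x → IsNilpotent (ev x q)) (hP : Gd G P) :
    Gd G (fun A _ x => P A x ∧ ev x q = 0) := by
  refine gd_closed hG hP q ?_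
  obtain ⟨E, p, e⟩ := hP.rp.unit q
  have hE : ∀ (A : Type) [CommRing A] (x : τ → A), Lc E p x → (1 : A) = 0 := by
    intro A _ x hx
    have h1 := (e A x).mpr hx
    by_contra hne
    have : Nontrivial A := ⟨⟨1, 0, hne⟩⟩
    exact (h A x h1.1).not_isUnit h1.2
  refine ⟨E, p, e, hG.triv _ ?_⟩
  have h1 := hE (Rng (Option τ) (dop p E)) (fun i => tau (dop p E) (some i))
    (Pt.dop_iff_lc.mp (rep_rng (dop p E)).pt).1
  exact subsingleton_of_zero_eq_one h1.symm

end

/-! ### The weight rule -/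

/-- the weight rule: `R` is in the class if each larger class closed under cutting and pasting
which contains the product of `R` and the affine line contains the product of `R` and the affine
plane -/
def WT (G : ∀ (R : Type) [CommRing R], Prop) : Prop :=
  ∀ (σ : Type) [Finite σ] (E : Set (MvPolynomial σ ℤ)),
    (∀ G' : ∀ (R : Type) [CommRing R], Prop, CP0 G' → (∀ (R : Type) [CommRing R], G R → G' R) →
      GS G' (lft E) → GS G' (lft (lft E))) → GS G E

/-! ### Predicates on schemes -/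

/-- the rings which follow from `R` in each weight, up to finitely many members of `𝒞` -/
def Fol (𝒞 : Set Scheme.{0}) (R : Type) [CommRing R] (S : Type) [CommRing S] : Prop :=
  ∃ F : Set Scheme.{0}, F.Finite ∧ F ⊆ 𝒞 ∧ ∀ P : Scheme.{0} → ℤ → Prop, SchemeCP P →
    (∀ Y ∈ F, ∀ s, P Y s) → ∀ n : ℤ, (∀ s, n ≤ s → P (Spec (CommRingCat.of R)) s) →
      ∀ s, n ≤ s → P (Spec (CommRingCat.of S)) s

lemma Fol.mono {𝒞 : Set Scheme.{0}} {R : Type} [CommRing R] {S T U : Type} [CommRing S]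
    [CommRing T] [CommRing U] (h1 : Fol 𝒞 R S) (h2 : Fol 𝒞 R T)
    (h : ∀ P : Scheme.{0} → ℤ → Prop, SchemeCP P → ∀ s, P (Spec (CommRingCat.of S)) s →
      P (Spec (CommRingCat.of T)) s → P (Spec (CommRingCat.of U)) s) : Fol 𝒞 R U := by
  obtain ⟨F, hF, hF', h1⟩ := h1
  obtain ⟨F₂, hF₂, hF₂', h2⟩ := h2
  refine ⟨F ∪ F₂, hF.union hF₂, Set.union_subset hF' hF₂', fun P hP hh n hn s hs => ?_⟩
  exact h P hP s (h1 P hP (fun W hW => hh W (Or.inl hW)) n hn s hs)
    (h2 P hP (fun W hW => hh W (Or.inr hW)) n hn s hs)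

lemma cp0_fol (𝒞 : Set Scheme.{0}) (R : Type) [CommRing R] :
    CP0 (fun S _ => Fol 𝒞 R S) := by
  constructor
  · intro S _ hS
    exact ⟨∅, Set.finite_empty, Set.empty_subset _, fun P hP _ _ _ s _ =>
      hP.empty _ (inferInstance : IsEmpty (PrimeSpectrum S)) s⟩
  · intro S T _ _ hS e h
    exact h.mono h fun P hP s h1 _ => hP.ringCP.iso S T hS e s h1
  · intro S _ hS f h1 h2
    exact h1.mono h2 fun P hP s h1 h2 => hP.ringCP.glue S hS f s h1 h2
  · intro S _ hS f h1 h2
    exact h1.mono h2 fun P hP s h1 h2 => hP.ringCP.opn S hS f s h1 h2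
  · intro S _ hS f h1 h2
    exact h1.mono h2 fun P hP s h1 h2 => hP.ringCP.closed S hS f s h1 h2

theorem wt_ctl (𝒞 : Set Scheme.{0}) : WT (rg (Ctl 𝒞)) := by
  intro σ _ E h
  have h1 : Fol 𝒞 (Rng (Option σ) (lft E)) (Rng (Option (Option σ)) (lft (lft E))) := by
    refine h (fun S _ => Fol 𝒞 (Rng (Option σ) (lft E)) S) (cp0_fol 𝒞 _) ?_ ?_
    · intro S _ hS
      obtain ⟨F, hF, hF', hS⟩ := hS
      exact ⟨F, hF, hF', fun P hP hh n _ s _ => hS P hP hh s⟩
    · exact ⟨∅, Set.finite_empty, Set.empty_subset _, fun P _ _ n hn => hn⟩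
  obtain ⟨F, hF, hF', h2⟩ := h1
  refine ⟨F, hF, hF', fun P hP hh => ?_⟩
  have hQ := hP.ringCP
  obtain ⟨s₀, hs₀⟩ := hQ.bdd _ (ft_rng (lft E))
  have key : ∀ n : ℕ, ∀ s : ℤ, s₀ - n ≤ s →
      P (Spec (CommRingCat.of (Rng (Option σ) (lft E)))) s := by
    intro n
    induction n with
    | zero =>
      intro s hs
      exact hs₀ s (by simpa using hs)
    | succ n ih =>
      intro s hs
      have h3 := h2 P hP hh (s₀ - n) ih (s + 1) (by push_cast at hs; linarith)
      exact (hQ.qs_line (lft E) s).mp h3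
  intro s
  refine (hQ.qs_line E s).mp ?_
  exact key (s₀ - (s + 1)).toNat (s + 1) (by
    have := Int.self_le_toNat (s₀ - (s + 1))
    linarith)

/-! ### Reduction modulo `m` -/

section

variable (hG : CP0 G) {m : ℕ}

include hG

lemma CP0.md_rep {R : Type} [CommRing R] {σ : Type} [Finite σ] {E : Set (MvPolynomial σ ℤ)}
    {u : σ → R} (h : Rep R E u) : md G m R ↔ GS G (insert (C (m : ℤ)) E) := by
  have h1 := h.closed (C (m : ℤ))
  have e : ev u (C (m : ℤ)) = (m : R) := ev_nat u m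
  rw [e] at h1
  exact hG.rep_iff h1

lemma CP0.gs_md {σ : Type} [Finite σ] (E : Set (MvPolynomial σ ℤ)) :
    GS (md G m) E ↔ GS G (insert (C (m : ℤ)) E) := hG.md_rep (rep_rng E)

lemma CP0.gs_md_dop {σ : Type} [Finite σ] (E : Set (MvPolynomial σ ℤ)) (p : MvPolynomial σ ℤ) :
    GS G (insert (C (m : ℤ)) (dop p E)) ↔ GS G (dop p (insert (C (m : ℤ)) E)) := by
  refine hG.gs_congr fun A _ x => ?_
  rw [pt_md, Pt.dop_iff, Pt.dop_iff, pt_md]
  tauto

/-- the class of the rings whose reduction modulo `m` is in a class closed under cutting and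
pasting -/
theorem CP0.mod (m : ℕ) : CP0 (md G m) := by
  constructor
  · intro R _ hR
    exact hG.triv _ inferInstance
  · intro R S _ _ hR e h
    obtain ⟨n, E, u, hu, _⟩ := ft_rep hR
    have h1 : Rep S E (fun i => e (u i)) := by
      refine ⟨hu.pt.map e.toRingHom, fun A _ x hx => ?_, fun A _ φ ψ hh => ?_⟩
      · obtain ⟨φ, hφ⟩ := hu.ex A x hx
        exact ⟨φ.comp e.symm.toRingHom, fun i => by simpa using hφ i⟩
      · have h2 := hu.uniq A (φ.comp e.toRingHom) (ψ.comp e.toRingHom) hh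
        refine RingHom.ext fun s => ?_
        have h3 := congrArg (fun χ : R →+* A => χ (e.symm s)) h2
        simpa using h3
    rw [hG.md_rep h1]
    exact (hG.md_rep hu).mp h
  · intro R _ hR f h1 h2
    obtain ⟨n, E, u, hu, hs⟩ := ft_rep hR
    obtain ⟨p, rfl⟩ := hs f
    rw [hG.md_rep (hu.closed p), gs_md_ins] at h1
    rw [hG.md_rep (hu.dop p), hG.gs_md_dop] at h2
    rw [hG.md_rep hu]
    exact hG.gs_glue h1 h2
  · intro R _ hR f h1 h2
    obtain ⟨n, E, u, hu, hs⟩ := ft_rep hR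
    obtain ⟨p, rfl⟩ := hs f
    rw [hG.md_rep hu] at h1
    rw [hG.md_rep (hu.closed p), gs_md_ins] at h2
    rw [hG.md_rep (hu.dop p), hG.gs_md_dop]
    exact hG.gs_opn h1 h2
  · intro R _ hR f h1 h2
    obtain ⟨n, E, u, hu, hs⟩ := ft_rep hR
    obtain ⟨p, rfl⟩ := hs f
    rw [hG.md_rep hu] at h1
    rw [hG.md_rep (hu.dop p), hG.gs_md_dop] at h2
    rw [hG.md_rep (hu.closed p), gs_md_ins]
    exact hG.gs_closed h1 h2

end

theorem WT.mod (hG : RG G) (hW : WT G) (m : ℕ) : WT (md G m) := by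
  intro σ _ E h
  rw [hG.cp0.gs_md]
  refine hW σ _ fun G' hG' hsub h1 => ?_
  have e1 : GS (md G' m) (lft E) ↔ GS G' (lft (insert (C (m : ℤ)) E)) := by
    rw [hG'.gs_md]
    refine hG'.gs_congr fun A _ x => ?_
    rw [pt_md, Pt.lft_iff, Pt.lft_iff, pt_md]
  have e2 : GS (md G' m) (lft (lft E)) ↔ GS G' (lft (lft (insert (C (m : ℤ)) E))) := by
    rw [hG'.gs_md]
    refine hG'.gs_congr fun A _ x => ?_
    rw [pt_md, Pt.lft_iff, Pt.lft_iff, Pt.lft_iff, Pt.lft_iff, pt_md]
  exact e2.mp (h (md G' m) (hG'.mod m) (fun R _ hR => hsub _ hR) (e1.mpr h1))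

/-! ### The weight rule for predicates -/

theorem gd_wt (hG : RG G) (hW : WT G) {τ : Type} [Finite τ] {P : Pd τ} (hP : Rp P)
    (h : ∀ G' : ∀ (R : Type) [CommRing R], Prop, CP0 G' →
      (∀ (R : Type) [CommRing R], G R → G' R) →
      Gd G' (fun A _ (x : Option τ → A) => P A (fun i => x (some i))) →
      Gd G' (fun A _ (x : Option (Option τ) → A) => P A (fun i => x (some (some i))))) :
    Gd G P := by
  obtain ⟨E, p, e⟩ := hP
  refine ⟨E, p, e, hW _ (dop p E) fun G' hG' hsub h1 => ?_⟩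
  have l1 : ∀ (A : Type) [CommRing A] (x : Option τ → A),
      P A (fun i => x (some i)) ↔ Lc (lft E) (rename some p) x := by
    intro A _ x
    rw [e]
    unfold Lc
    rw [Pt.lft_iff, ev_rename]
  have l2 : ∀ (A : Type) [CommRing A] (x : Option (Option τ) → A),
      P A (fun i => x (some (some i))) ↔
        Lc (lft (lft E)) (rename some (rename some p)) x := by
    intro A _ x
    rw [e]
    unfold Lc
    rw [Pt.lft_iff, Pt.lft_iff, ev_rename, ev_rename]
  have s1 : GS G' (lft (dop p E)) ↔ GO G' (lft E) (rename some p) := by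
    refine hG'.gs_iso
      (fun A _ x => fun o => o.elim (x (some none)) fun o' => o'.elim (x none)
        fun i => x (some (some i)))
      (fun A _ x => fun o => o.elim (x (some none)) fun o' => o'.elim (x none)
        fun i => x (some (some i))) ?_ ?_ ?_ ?_ ?_ ?_
    · intro A B _ _ φ x _ o
      rcases o with _ | _ | i <;> rfl
    · intro A B _ _ φ x _ o
      rcases o with _ | _ | i <;> rfl
    · intro A _ x hx
      rw [Pt.lft_iff, Pt.dop_iff] at hx
      rw [Pt.dop_iff, Pt.lft_iff, ev_rename]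
      exact hx
    · intro A _ x hx
      rw [Pt.dop_iff, Pt.lft_iff, ev_rename] at hx
      rw [Pt.lft_iff, Pt.dop_iff]
      exact hx
    · intro A _ x _
      funext o
      rcases o with _ | _ | i <;> rfl
    · intro A _ x _
      funext o
      rcases o with _ | _ | i <;> rfl
  have s2 : GS G' (lft (lft (dop p E))) ↔
      GO G' (lft (lft E)) (rename some (rename some p)) := by
    refine hG'.gs_iso
      (fun A _ x => fun o => o.elim (x (some (some none))) fun o' => o'.elim (x (some none))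
        fun o'' => o''.elim (x none) fun i => x (some (some (some i))))
      (fun A _ x => fun o => o.elim (x (some (some none))) fun o' => o'.elim (x (some none))
        fun o'' => o''.elim (x none) fun i => x (some (some (some i)))) ?_ ?_ ?_ ?_ ?_ ?_
    · intro A B _ _ φ x _ o
      rcases o with _ | _ | _ | i <;> rfl
    · intro A B _ _ φ x _ o
      rcases o with _ | _ | _ | i <;> rfl
    · intro A _ x hx
      rw [Pt.lft_iff, Pt.lft_iff, Pt.dop_iff] at hx
      rw [Pt.dop_iff, Pt.lft_iff, Pt.lft_iff, ev_rename, ev_rename]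
      exact hx
    · intro A _ x hx
      rw [Pt.dop_iff, Pt.lft_iff, Pt.lft_iff, ev_rename, ev_rename] at hx
      rw [Pt.lft_iff, Pt.lft_iff, Pt.dop_iff]
      exact hx
    · intro A _ x _
      funext o
      rcases o with _ | _ | _ | i <;> rfl
    · intro A _ x _
      funext o
      rcases o with _ | _ | _ | i <;> rfl
  exact s2.mpr (gd_go hG' (h G' hG' hsub ⟨lft E, rename some p, l1, s1.mp h1⟩) l2)

end Pool.Agent.Sym3
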