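import Pool.Agent.Sym3.EvA
import Pool.Agent.Sym3.Wt

/-!
# The induction
-/

set_option autoImplicit false
set_option linter.unusedSectionVars false

open Matrix MvPolynomial
open Pool.Agent.Helper81.CP Pool.Agent.Helper81.HG Pool.Agent.Phi4

namespace Pool.Agent.Sym3

section

variable {E V : Type} [DecidableEq V] [DecidableEq E] [Fintype E] [Fintype V]

/-- the excess over three -/
def exc3 (s t : E → V) : ℕ := ∑ v, (dg s t v - 3)

/-- the excess over three of a graph with four legs -/
def exl (s t : E → V) (g : Fin 4 → V) : ℕ :=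
  ∑ v, (dg s t v + (Finset.univ.filter fun k => g k = v).card - 3)

/-- with the legs all degrees are at most four -/
def D4 (s t : E → V) (g : Fin 4 → V) : Prop :=
  ∀ v, dg s t v + (Finset.univ.filter fun k => g k = v).card ≤ 4

/-- the ends of the edges of a rung between the strands `0` and `1`, with two legs -/
def rS : Fin 3 → Fin 2 ⊕ Fin 4 := ![Sum.inr 0, Sum.inr 1, Sum.inl 0]

/-- the ends of the edges of a rung between the strands `0` and `1`, with two legs -/
def rT : Fin 3 → Fin 2 ⊕ Fin 4 := ![Sum.inl 0, Sum.inl 1, Sum.inl 1]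

/-- the terminals of the graph with a rung -/
def rg' (g : Fin 4 → V) : Fin 4 → Fin 2 ⊕ V :=
  ![Sum.inl 0, Sum.inl 1, Sum.inr (g 2), Sum.inr (g 3)]

end

/-- the induction hypothesis -/
def IH3 (G : ∀ (R : Type) [CommRing R], Prop) (n : ℕ) : Prop :=
  ∀ (E V : Type) [Fintype E] [DecidableEq E] [Fintype V] [DecidableEq V] (s t : E → V) (o : V),
    (∀ e, s e ≠ t e) → (∀ v, dg s t v ≤ 4) → exc3 s t < n →
      Gd G (fun A _ (x : E → A) => DD s t o x 1 = 0)

/-- the predicate of a network, the coordinates are those of the edges of the network and of the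
graph -/
def NP {κ L N E V : Type} [DecidableEq κ] [Fintype κ] [DecidableEq N] [Fintype N] [DecidableEq L]
    [DecidableEq V] [DecidableEq E] [Fintype E] [Fintype V] (K : Nw κ L N (Fin 4)) (s t : E → V)
    (o : V) (g : Fin 4 → V) : Pd (κ ⊕ E) :=
  fun A _ x => NF K s t o g (fun i => x (Sum.inl i)) (fun e => x (Sum.inr e)) = (0 : A)

/-! ### Degrees and orientations -/

section

variable {E V κ N T A : Type} [CommRing A] [DecidableEq V] [DecidableEq E] [Fintype E]
  [Fintype V] [DecidableEq κ] [Fintype κ] [DecidableEq N] [Fintype N] [DecidableEq T] [Fintype T]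

lemma dg_aE_inl (kS kT : κ → N ⊕ T) (g : T → V) (s t : E → V) (n : N) :
    dg (aE kS g s) (aE kT g t) (Sum.inl n) = dg kS kT (Sum.inl n) := by
  unfold dg
  rw [Fintype.sum_sum_type]
  have h1 : ∀ x : N ⊕ T, (Sum.map id g x = Sum.inl n) ↔ x = Sum.inl n := by
    rintro (x | x) <;> simp
  have h2 : ∑ e : E, ((if aE kS g s (Sum.inr e) = Sum.inl n then 1 else 0) +
      (if aE kT g t (Sum.inr e) = Sum.inl n then 1 else 0)) = 0 := by
    refine Finset.sum_eq_zero fun e _ => ?_
    simp [aE]
  rw [h2, add_zero]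
  refine Finset.sum_congr rfl fun i _ => ?_
  simp only [aE, Sum.elim_inl, h1]

lemma dg_aE_inr (kS kT : κ → N ⊕ T) (g : T → V) (s t : E → V) (v : V) :
    dg (aE kS g s) (aE kT g t) (Sum.inr v) =
      (∑ k ∈ Finset.univ.filter (fun k => g k = v), dg kS kT (Sum.inr k)) + dg s t v := by
  unfold dg
  rw [Fintype.sum_sum_type]
  have h1 : ∀ x : N ⊕ T, (if Sum.map id g x = Sum.inr v then 1 else 0) =
      ∑ k ∈ Finset.univ.filter (fun k => g k = v), if x = Sum.inr k then 1 else 0 := by
    rintro (x | x)
    · rw [if_neg (by simp), Finset.sum_eq_zero fun k _ => by simp]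
    · by_cases hx : g x = v
      · rw [if_pos (by simp [hx]), Finset.sum_eq_single x]
        · simp
        · intro k _ hk
          rw [if_neg]
          intro h
          exact hk (Sum.inr_injective h).symm
        · intro h
          exact (h (Finset.mem_filter.2 ⟨Finset.mem_univ _, hx⟩)).elim
      · rw [if_neg (by simp [hx]), Finset.sum_eq_zero]
        intro k hk
        rw [if_neg]
        intro h
        rw [Finset.mem_filter] at hk
        exact hx ((Sum.inr_injective h) ▸ hk.2)
  congr 1
  · rw [Finset.sum_comm]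
    refine Finset.sum_congr rfl fun i _ => ?_
    show (if Sum.map id g (kS i) = Sum.inr v then 1 else 0) +
      (if Sum.map id g (kT i) = Sum.inr v then 1 else 0) = _
    rw [h1, h1, Finset.sum_add_distrib]
  · refine Finset.sum_congr rfl fun e _ => ?_
    simp [aE]

/-- the orientations of the edges do not matter -/
lemma DD_flip (s t s' t' : E → V) (o : V) (a b : E → A)
    (h : ∀ e, (s' e = s e ∧ t' e = t e) ∨ (s' e = t e ∧ t' e = s e)) :
    DD s' t' o a b = DD s t o a b := by
  have h1 : ∀ e, ∃ c : A, c * c = 1 ∧ ∀ v, (inc s' t' e v : A) = c * inc s t e v := by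
    intro e
    rcases h e with ⟨h2, h3⟩ | ⟨h2, h3⟩
    · exact ⟨1, by ring, fun v => by simp [inc, h2, h3]⟩
    · exact ⟨-1, by ring, fun v => by simp [inc, h2, h3]⟩
  choose c hc hinc using h1
  set D : Matrix (E ⊕ V) (E ⊕ V) A := diagonal (Sum.elim c 1) with hD
  have hDD : D.det * D.det = 1 := by
    rw [hD, ← det_mul, diagonal_mul_diagonal]
    have : (fun i : E ⊕ V => Sum.elim c (1 : V → A) i * Sum.elim c (1 : V → A) i) =
        fun _ => 1 := by
      funext i
      rcases i with e | v
      · exact hc e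
      · simp
    rw [this, diagonal_one, det_one]
  have hM : MM s' t' o a b = D * MM s t o a b * D := by
    ext i j
    rw [hD, mul_diagonal, diagonal_mul]
    rcases i with e | v <;> rcases j with e' | v'
    · by_cases he : e = e'
      · subst he
        simp only [MM, fromBlocks_apply₁₁, diagonal_apply_eq, Sum.elim_inl]
        linear_combination (- a e) * hc e
      · simp [MM, he]
    · simp only [MM, fromBlocks_apply₁₂, of_apply, Sum.elim_inl, Sum.elim_inr, Pi.one_apply,
        hinc]
      ring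
    · simp only [MM, fromBlocks_apply₂₁, of_apply, Sum.elim_inl, Sum.elim_inr, Pi.one_apply,
        hinc]
      ring
    · simp [MM]
  unfold DD
  rw [hM, det_mul, det_mul, mul_comm D.det, mul_assoc, hDD, mul_one]

lemma dg_flip (s t s' t' : E → V) (v : V)
    (h : ∀ e, (s' e = s e ∧ t' e = t e) ∨ (s' e = t e ∧ t' e = s e)) :
    dg s' t' v = dg s t v := by
  unfold dg
  refine Finset.sum_congr rfl fun e _ => ?_
  rcases h e with ⟨h2, h3⟩ | ⟨h2, h3⟩
  · rw [h2, h3]
  · rw [h2, h3, add_comm]

end

section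

variable {G : ∀ (R : Type) [CommRing R], Prop} {E V κ L N : Type} [DecidableEq V] [DecidableEq E]
  [Fintype E] [Fintype V] [DecidableEq κ] [Fintype κ] [DecidableEq N] [Fintype N] [DecidableEq L]
  [Fintype L]

lemma NP_iff (K : Nw κ L N (Fin 4)) (s t : E → V) (o : V) (g : Fin 4 → V) {A : Type}
    [CommRing A] (x : κ ⊕ E → A) :
    NP K s t o g A x ↔ DD (aE K.s g s) (aE K.t g t) (Sum.inr o) x 1 = 0 := by
  unfold NP NF
  have : Sum.elim (fun i => x (Sum.inl i)) (fun e => x (Sum.inr e)) = x := by
    funext i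
    rcases i with i | i <;> rfl
  rw [this]

/-- the predicates of the networks are representable -/
theorem rp_np (K : Nw κ L N (Fin 4)) (s t : E → V) (o : V) (g : Fin 4 → V) :
    Rp (NP K s t o g) := by
  refine (rp_pt {psi (aE K.s g s) (aE K.t g t) (Sum.inr o)}).congr fun A _ x => ?_
  rw [NP_iff, ← ev_psi]
  constructor
  · intro h
    exact h _ rfl
  · rintro h _ rfl
    exact h

lemma exc3_aE_le (K : Nw κ L N (Fin 4)) (hin : ∀ v, dg K.s K.t (Sum.inl v) ≤ 3)
    (hleg : ∀ k, dg K.s K.t (Sum.inr k) ≤ 1) (s t : E → V) (g : Fin 4 → V) :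
    exc3 (aE K.s g s) (aE K.t g t) ≤ exl s t g := by
  unfold exc3 exl
  rw [Fintype.sum_sum_type]
  have h1 : ∑ n : N, (dg (aE K.s g s) (aE K.t g t) (Sum.inl n) - 3) = 0 := by
    refine Finset.sum_eq_zero fun n _ => ?_
    rw [dg_aE_inl]
    have := hin n
    omega
  rw [h1, zero_add]
  refine Finset.sum_le_sum fun v _ => ?_
  rw [dg_aE_inr]
  have h2 : (∑ k ∈ Finset.univ.filter (fun k => g k = v), dg K.s K.t (Sum.inr k)) ≤
      (Finset.univ.filter (fun k => g k = v)).card := by
    refine (Finset.sum_le_card_nsmul _ _ 1 fun k _ => hleg k).trans ?_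
    simp
  omega

/-- the graphs with a network of degrees at most three -/
theorem gd_np {n : ℕ} (hI : IH3 G n) (K : Nw κ L N (Fin 4)) (hK : ∀ i, K.s i ≠ K.t i)
    (hT : ∀ i, (K.s i).isLeft = true ∨ (K.t i).isLeft = true)
    (hin : ∀ v, dg K.s K.t (Sum.inl v) ≤ 3) (hleg : ∀ k, dg K.s K.t (Sum.inr k) ≤ 1)
    (s t : E → V) (o : V) (g : Fin 4 → V) (hl : ∀ e, s e ≠ t e) (hd : D4 s t g)
    (hx : exl s t g < n) : Gd G (NP K s t o g) := by
  refine (hI (κ ⊕ E) (N ⊕ V) (aE K.s g s) (aE K.t g t) (Sum.inr o) ?_ ?_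
    ((exc3_aE_le K hin hleg s t g).trans_lt hx)).congr fun A _ x => (NP_iff K s t o g x).symm
  · rintro (i | e)
    · simp only [aE, Sum.elim_inl]
      have h1 := hK i
      rcases hT i with h2 | h2
      · obtain ⟨a, ha⟩ := Sum.isLeft_iff.1 h2
        rw [ha] at h1 ⊢
        rcases hb : K.t i with b | b
        · rw [hb] at h1
          simpa using h1
        · simp
      · obtain ⟨a, ha⟩ := Sum.isLeft_iff.1 h2
        rw [ha] at h1 ⊢
        rcases hb : K.s i with b | b
        · rw [hb] at h1
          simpa using h1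
        · simp
    · simp only [aE, Sum.elim_inr]
      intro h
      exact hl e (Sum.inr_injective h)
  · rintro (m | v)
    · rw [dg_aE_inl]
      exact (hin m).trans (by norm_num)
    · rw [dg_aE_inr]
      have h2 : (∑ k ∈ Finset.univ.filter (fun k => g k = v), dg K.s K.t (Sum.inr k)) ≤
          (Finset.univ.filter (fun k => g k = v)).card := by
        refine (Finset.sum_le_card_nsmul _ _ 1 fun k _ => hleg k).trans ?_
        simp
      have h3 := hd v
      omega

theorem loop_rung (s t : E → V) (g : Fin 4 → V) (hl : ∀ e, s e ≠ t e) (e : Fin 3 ⊕ E) :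
    aE rS g s e ≠ aE rT g t e := by
  rcases e with i | e
  · fin_cases i <;> simp [aE, rS, rT]
  · simp only [aE, Sum.elim_inr]
    intro h
    exact hl e (Sum.inr_injective h)

lemma rung_inl (s t : E → V) (g : Fin 4 → V) (i : Fin 2) :
    dg (aE rS g s) (aE rT g t) (Sum.inl i) +
      (Finset.univ.filter fun k => rg' g k = Sum.inl i).card = 3 := by
  rw [dg_aE_inl, Finset.card_filter, Fin.sum_univ_four]
  have h1 : dg rS rT (Sum.inl i) = 2 := by
    revert i
    decide
  rw [h1]
  fin_cases i <;> simp [rg']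

lemma rung_inr (s t : E → V) (g : Fin 4 → V) (v : V) :
    dg (aE rS g s) (aE rT g t) (Sum.inr v) +
      (Finset.univ.filter fun k => rg' g k = Sum.inr v).card =
    dg s t v + (Finset.univ.filter fun k => g k = v).card := by
  rw [dg_aE_inr, Finset.card_filter, Finset.card_filter, Finset.sum_filter, Fin.sum_univ_four,
    Fin.sum_univ_four, Fin.sum_univ_four]
  have h0 : dg rS rT (Sum.inr 0) = 1 := by decide
  have h1 : dg rS rT (Sum.inr 1) = 1 := by decide
  have h2 : dg rS rT (Sum.inr 2) = 0 := by decide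
  have h3 : dg rS rT (Sum.inr 3) = 0 := by decide
  have e0 : rg' g 0 = Sum.inl 0 := rfl
  have e1 : rg' g 1 = Sum.inl 1 := rfl
  have e2 : rg' g 2 = Sum.inr (g 2) := rfl
  have e3 : rg' g 3 = Sum.inr (g 3) := rfl
  rw [h0, h1, h2, h3, e0, e1, e2, e3]
  simp only [reduceCtorEq, if_false, Sum.inr.injEq]
  split_ifs <;> omega

theorem exl_rung (s t : E → V) (g : Fin 4 → V) :
    exl (aE rS g s) (aE rT g t) (rg' g) ≤ exl s t g := by
  unfold exl
  rw [Fintype.sum_sum_type]
  have h1 : ∑ i : Fin 2, (dg (aE rS g s) (aE rT g t) (Sum.inl i) +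
      (Finset.univ.filter fun k => rg' g k = Sum.inl i).card - 3) = 0 := by
    refine Finset.sum_eq_zero fun i _ => ?_
    rw [rung_inl, Nat.sub_self]
  rw [h1, zero_add]
  refine Finset.sum_le_sum fun v _ => ?_
  rw [rung_inr]

theorem D4.rung {s t : E → V} {g : Fin 4 → V} (h : D4 s t g) :
    D4 (aE rS g s) (aE rT g t) (rg' g) := by
  rintro (i | v)
  · rw [rung_inl]
    norm_num
  · rw [rung_inr]
    exact h v

lemma card_perm (g : Fin 4 → V) (p : Fin 4 → Fin 4) (hp : Function.Bijective p) (v : V) :
    (Finset.univ.filter fun k => g (p k) = v).card = (Finset.univ.filter fun k => g k = v).card := by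
  refine Finset.card_bij (fun k _ => p k) ?_ ?_ ?_
  · intro k hk
    rw [Finset.mem_filter] at hk ⊢
    exact ⟨Finset.mem_univ _, hk.2⟩
  · intro a _ b _ h
    exact hp.1 h
  · intro k hk
    obtain ⟨j, rfl⟩ := hp.2 k
    rw [Finset.mem_filter] at hk
    exact ⟨j, Finset.mem_filter.2 ⟨Finset.mem_univ _, hk.2⟩, rfl⟩

theorem exl_perm (s t : E → V) (g : Fin 4 → V) (p : Fin 4 → Fin 4) (hp : Function.Bijective p) :
    exl s t (fun k => g (p k)) = exl s t g := by
  unfold exl
  exact Finset.sum_congr rfl fun v _ => by rw [card_perm g p hp]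

theorem D4.perm {s t : E → V} {g : Fin 4 → V} (h : D4 s t g) (p : Fin 4 → Fin 4)
    (hp : Function.Bijective p) : D4 s t (fun k => g (p k)) := by
  intro v
  rw [card_perm g p hp]
  exact h v

end

/-- a vertex of degree four is a star -/
theorem exists_star {E V : Type} [Fintype E] [DecidableEq E] [Fintype V] [DecidableEq V]
    (s t : E → V) (hl : ∀ e, s e ≠ t e) (h4 : ∀ v, dg s t v ≤ 4) (v : V) (hv : dg s t v = 4) :
    ∃ (E' V' : Type) (_ : Fintype E') (_ : DecidableEq E') (_ : Fintype V') (_ : DecidableEq V')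
      (s' t' : E' → V') (o' : V') (g : Fin 4 → V') (o : V) (f : (Fin 0 ⊕ Fin 4) ⊕ E' ≃ E),
      (∀ e, s' e ≠ t' e) ∧ D4 s' t' g ∧ exl s' t' g < exc3 s t ∧
      ∀ (A : Type) [CommRing A] (x : E → A),
        DD (aE Kstar.s g s') (aE Kstar.t g t') (Sum.inr o') (fun e => x (f e)) 1 =
          DD s t o x 1 := by
  classical
  let S := {e : E // s e = v ∨ t e = v}
  let E' := {e : E // ¬ (s e = v ∨ t e = v)}
  let V' := {w : V // w ≠ v}
  have hcard : Fintype.card S = 4 := by
    rw [← hv, Fintype.card_subtype]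
    unfold dg
    rw [Finset.card_filter]
    refine Finset.sum_congr rfl fun e _ => ?_
    have := hl e
    by_cases h1 : s e = v <;> by_cases h2 : t e = v
    · exact absurd (h1.trans h2.symm) this
    · simp [h1, h2]
    · simp [h1, h2]
    · simp [h1, h2]
  let σ : Fin 4 ≃ S := (Fintype.equivFinOfCardEq hcard).symm
  let oth : E → V := fun e => if s e = v then t e else s e
  have hoth : ∀ e, oth e ≠ v := by
    intro e
    simp only [oth]
    split_ifs with h
    · intro h'
      exact hl e (h.trans h'.symm)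
    · exact h
  let g : Fin 4 → V' := fun k => ⟨oth (σ k).1, hoth _⟩
  let s' : E' → V' := fun e => ⟨s e.1, fun h => e.2 (Or.inl h)⟩
  let t' : E' → V' := fun e => ⟨t e.1, fun h => e.2 (Or.inr h)⟩
  let f : (Fin 0 ⊕ Fin 4) ⊕ E' ≃ E :=
    { toFun := Sum.elim (Sum.elim finZeroElim (fun k => (σ k).1)) Subtype.val
      invFun := fun e => if h : s e = v ∨ t e = v then Sum.inl (Sum.inr (σ.symm ⟨e, h⟩))
        else Sum.inr ⟨e, h⟩
      left_inv := by
        rintro ((i | k) | e)
        · exact i.elim0
        · refine (dif_pos (σ k).2).trans ?_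
          simp
        · exact dif_neg e.2
      right_inv := by
        intro e
        dsimp only
        split_ifs with h
        · simp
        · rfl }
  let gV : Fin 1 ⊕ V' ≃ V :=
    { toFun := Sum.elim (fun _ => v) Subtype.val
      invFun := fun w => if h : w = v then Sum.inl 0 else Sum.inr ⟨w, h⟩
      left_inv := by
        rintro (i | w)
        · have hi : i = 0 := Subsingleton.elim _ _
          subst hi
          exact dif_pos rfl
        · exact dif_neg w.2
      right_inv := by
        intro w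
        dsimp only
        split_ifs with h
        · exact h.symm
        · rfl }
  let sf : E → V := fun e => if s e = v ∨ t e = v then oth e else s e
  let tf : E → V := fun e => if s e = v ∨ t e = v then v else t e
  have hflip : ∀ e, (sf e = s e ∧ tf e = t e) ∨ (sf e = t e ∧ tf e = s e) := by
    intro e
    simp only [sf, tf, oth]
    by_cases h1 : s e = v
    · right
      rw [if_pos (Or.inl h1), if_pos (Or.inl h1), if_pos h1]
      exact ⟨rfl, h1.symm⟩
    · by_cases h2 : t e = v
      · left
        rw [if_pos (Or.inr h2), if_pos (Or.inr h2), if_neg h1]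
        exact ⟨rfl, h2.symm⟩
      · left
        have h3 : ¬ (s e = v ∨ t e = v) := by tauto
        rw [if_neg h3, if_neg h3]
        exact ⟨rfl, rfl⟩
  have hs : ∀ e, gV (aE Kstar.s g s' e) = sf (f e) := by
    rintro ((i | k) | e)
    · exact i.elim0
    · have e1 : aE Kstar.s g s' (Sum.inl (Sum.inr k)) = Sum.inr (g k) := by
        fin_cases k <;> rfl
      have e2 : f (Sum.inl (Sum.inr k)) = (σ k).1 := rfl
      rw [e1, e2]
      show oth (σ k).1 = sf (σ k).1
      simp only [sf]
      rw [if_pos (σ k).2]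
    · show s e.1 = sf e.1
      simp only [sf]
      rw [if_neg e.2]
  have ht : ∀ e, gV (aE Kstar.t g t' e) = tf (f e) := by
    rintro ((i | k) | e)
    · exact i.elim0
    · have e1 : aE Kstar.t g t' (Sum.inl (Sum.inr k)) = Sum.inl 0 := by
        fin_cases k <;> rfl
      have e2 : f (Sum.inl (Sum.inr k)) = (σ k).1 := rfl
      rw [e1, e2]
      show v = tf (σ k).1
      simp only [tf]
      rw [if_pos (σ k).2]
    · show t e.1 = tf e.1
      simp only [tf]
      rw [if_neg e.2]
  have hdg : ∀ x, dg (aE Kstar.s g s') (aE Kstar.t g t') x = dg s t (gV x) := by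
    intro x
    rw [dg_reindex f gV sf tf _ _ hs ht x, dg_flip s t sf tf _ hflip]
  have hleg : ∀ k, dg Kstar.s Kstar.t (Sum.inr k) = 1 := by decide
  have hdV : ∀ w : V', dg s' t' w + (Finset.univ.filter fun k => g k = w).card = dg s t w.1 := by
    intro w
    have h1 := hdg (Sum.inr w)
    rw [dg_aE_inr, Finset.sum_congr rfl fun k _ => hleg k] at h1
    rw [Finset.sum_const, smul_eq_mul, mul_one] at h1
    have h2 : gV (Sum.inr w) = w.1 := rfl
    rw [h2] at h1
    omega
  refine ⟨E', V', inferInstance, inferInstance, inferInstance, inferInstance, s', t', g 0, g,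
    (g 0).1, f, ?_, ?_, ?_, ?_⟩
  · intro e h
    exact hl e.1 (congrArg Subtype.val h)
  · intro w
    rw [hdV]
    exact h4 _
  · have h1 : exc3 s t = exl s' t' g + 1 := by
      unfold exc3 exl
      rw [← Equiv.sum_comp gV, Fintype.sum_sum_type, Fin.sum_univ_one]
      have h2 : gV (Sum.inl 0) = v := rfl
      rw [h2, hv, add_comm]
      congr 1
      refine Finset.sum_congr rfl fun w _ => ?_
      rw [hdV]
      rfl
    omega
  · intro A _ x
    have h1 := DD_reindex f gV sf tf _ _ hs ht (Sum.inr (g 0)) x (1 : E → A)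
    have h2 : gV (Sum.inr (g 0)) = (g 0).1 := rfl
    rw [h2, DD_flip s t sf tf _ _ _ hflip] at h1
    exact h1

/-- **from degrees at most `3` to degrees at most `4`** -/
theorem gs_psi_four {G : ∀ (R : Type) [CommRing R], Prop} (hG : RG G)
    (hM : ∀ n, IH3 G n → ∀ (E V : Type) [Fintype E] [DecidableEq E] [Fintype V] [DecidableEq V]
      (s t : E → V) (o : V) (g : Fin 4 → V), (∀ e, s e ≠ t e) → D4 s t g → exl s t g < n →
      Gd G (NP Kstar s t o g))
    (h3 : ∀ (E V : Type) [Fintype E] [DecidableEq E] [Fintype V] [DecidableEq V] (s t : E → V)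
      (o : V), (∀ e, s e ≠ t e) → (∀ v, dg s t v ≤ 3) →
      GS G ({psi s t o} : Set (MvPolynomial E ℤ)))
    (E V : Type) [Fintype E] [DecidableEq E] [Fintype V] [DecidableEq V] (s t : E → V) (o : V)
    (hl : ∀ e, s e ≠ t e) (h4 : ∀ v, dg s t v ≤ 4) :
    GS G ({psi s t o} : Set (MvPolynomial E ℤ)) := by
  have hpt : ∀ {E V : Type} [Fintype E] [DecidableEq E] [Fintype V] [DecidableEq V] (s t : E → V)
      (o : V) (A : Type) [CommRing A] (x : E → A),
      Pt ({psi s t o} : Set (MvPolynomial E ℤ)) x ↔ DD s t o x 1 = 0 := by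
    intro E V _ _ _ _ s t o A _ x
    rw [← ev_psi]
    constructor
    · intro h
      exact h _ rfl
    · rintro h _ rfl
      exact h
  have key : ∀ n, IH3 G n := by
    intro n
    induction n with
    | zero =>
      intro E V _ _ _ _ s t o _ _ h
      exact absurd h (Nat.not_lt_zero _)
    | succ n ih =>
      intro E V _ _ _ _ s t o hl h4 h
      by_cases h0 : ∀ v, dg s t v ≤ 3
      · exact (Gd.of_gs hG (h3 E V s t o hl h0)).congr fun A _ x => hpt s t o A x
      · push Not at h0
        obtain ⟨v, hv⟩ := h0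
        have hv4 : dg s t v = 4 := le_antisymm (h4 v) hv
        obtain ⟨E', V', _, _, _, _, s', t', o', g, o1, f, a1, a2, a3, a4⟩ :=
          exists_star s t hl h4 v hv4
        have h5 := hM n ih E' V' s' t' o' g a1 a2 (by omega)
        refine (Gd.ext hG f f.injective h5).congr fun A _ x => ?_
        rw [NP_iff, a4 A x, ← ev_psi, ← ev_psi, psi_root s t o1 o]
  exact Gd.gs hG (key (exc3 s t + 1) E V s t o hl h4 (Nat.lt_succ_self _))
    fun A _ x => (hpt s t o A x).symm

end Pool.Agent.Sym3
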