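import Pool.Agent.Sym3.IndA

/-!
# The rung
-/

set_option autoImplicit false
set_option linter.unusedSectionVars false

open Matrix MvPolynomial
open Pool.Agent.Helper81.CP Pool.Agent.Helper81.HG Pool.Agent.Phi4

namespace Pool.Agent.Sym3

section

variable {E V : Type} [DecidableEq V] [DecidableEq E] [Fintype E] [Fintype V]

/-- the edges of the ring with a rung -/
def fRR : (Fin 4 ⊕ Fin 4) ⊕ Fin 3 ≃ Fin 7 ⊕ Fin 4 where
  toFun := Sum.elim (Sum.elim ![Sum.inl 0, Sum.inl 1, Sum.inl 2, Sum.inl 3]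
    ![Sum.inl 4, Sum.inl 5, Sum.inr 2, Sum.inr 3]) ![Sum.inr 0, Sum.inr 1, Sum.inl 6]
  invFun := Sum.elim ![Sum.inl (Sum.inl 0), Sum.inl (Sum.inl 1), Sum.inl (Sum.inl 2),
    Sum.inl (Sum.inl 3), Sum.inl (Sum.inr 0), Sum.inl (Sum.inr 1), Sum.inr 2]
    ![Sum.inr 0, Sum.inr 1, Sum.inl (Sum.inr 2), Sum.inl (Sum.inr 3)]
  left_inv := by decide
  right_inv := by decide

/-- the vertices of the ring with a rung -/
def gRR : Fin 4 ⊕ Fin 2 ≃ Fin 6 where
  toFun := Sum.elim ![0, 1, 2, 3] ![4, 5]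
  invFun := ![Sum.inl 0, Sum.inl 1, Sum.inl 2, Sum.inl 3, Sum.inr 0, Sum.inr 1]
  left_inv := by decide
  right_inv := by decide

/-- the edges of the star with a rung -/
def fRS : (Fin 0 ⊕ Fin 4) ⊕ Fin 3 ≃ Fin 3 ⊕ Fin 4 where
  toFun := Sum.elim (Sum.elim finZeroElim
    ![Sum.inl 0, Sum.inl 1, Sum.inr 2, Sum.inr 3]) ![Sum.inr 0, Sum.inr 1, Sum.inl 2]
  invFun := Sum.elim ![Sum.inl (Sum.inr 0), Sum.inl (Sum.inr 1), Sum.inr 2]
    ![Sum.inr 0, Sum.inr 1, Sum.inl (Sum.inr 2), Sum.inl (Sum.inr 3)]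
  left_inv := by decide
  right_inv := by decide

/-- the vertices of the star with a rung -/
def gRS : Fin 1 ⊕ Fin 2 ≃ Fin 3 where
  toFun := Sum.elim ![0] ![1, 2]
  invFun := ![Sum.inl 0, Sum.inr 0, Sum.inr 1]
  left_inv := by decide
  right_inv := by decide

/-- adding an outer summand -/
def up3 {P Q R S : Type} (f : (P ⊕ Q) ≃ R) : P ⊕ (Q ⊕ S) ≃ R ⊕ S :=
  (Equiv.sumAssoc P Q S).symm.trans (Equiv.sumCongr f (Equiv.refl S))

/-- the ring for the graph with a rung -/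
theorem NF_ring_rung {A : Type} [CommRing A] (s t : E → V) (o : V) (g : Fin 4 → V)
    (y : Fin 4 → A) (x : Fin 4 → A) (z : Fin 3 → A) (w : E → A) :
    NF Kring (aE rS g s) (aE rT g t) (Sum.inr o) (rg' g) (Sum.elim y x) (Sum.elim z w) =
      NF Kkrr s t o g (Sum.elim ![y 0, y 1, y 2, y 3, x 0, x 1, z 2] ![z 0, z 1, x 2, x 3]) w := by
  unfold NF
  have h := DD_reindex (up3 (S := E) fRR) (up3 (S := V) gRR) (aE Kkrr.s g s) (aE Kkrr.t g t)
    (aE Kring.s (rg' g) (aE rS g s)) (aE Kring.t (rg' g) (aE rT g t)) ?_ ?_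
    (Sum.inr (Sum.inr o))
    (Sum.elim (Sum.elim ![y 0, y 1, y 2, y 3, x 0, x 1, z 2] ![z 0, z 1, x 2, x 3]) w) 1
  · have h1 : (up3 (S := V) gRR) (Sum.inr (Sum.inr o)) = Sum.inr o := rfl
    rw [h1] at h
    rw [← h]
    congr 1
    funext e
    rcases e with (i | i) | (i | e)
    · fin_cases i <;> rfl
    · fin_cases i <;> rfl
    · fin_cases i <;> rfl
    · rfl
  · rintro ((i | i) | (i | e))
    · fin_cases i <;> rfl
    · fin_cases i <;> rfl
    · fin_cases i <;> rfl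
    · rfl
  · rintro ((i | i) | (i | e))
    · fin_cases i <;> rfl
    · fin_cases i <;> rfl
    · fin_cases i <;> rfl
    · rfl

/-- the star for the graph with a rung -/
theorem NF_star_rung {A : Type} [CommRing A] (s t : E → V) (o : V) (g : Fin 4 → V)
    (y : Fin 0 → A) (x : Fin 4 → A) (z : Fin 3 → A) (w : E → A) :
    NF Kstar (aE rS g s) (aE rT g t) (Sum.inr o) (rg' g) (Sum.elim y x) (Sum.elim z w) =
      NF Kkrs s t o g (Sum.elim ![x 0, x 1, z 2] ![z 0, z 1, x 2, x 3]) w := by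
  unfold NF
  have h := DD_reindex (up3 (S := E) fRS) (up3 (S := V) gRS) (aE Kkrs.s g s) (aE Kkrs.t g t)
    (aE Kstar.s (rg' g) (aE rS g s)) (aE Kstar.t (rg' g) (aE rT g t)) ?_ ?_
    (Sum.inr (Sum.inr o))
    (Sum.elim (Sum.elim ![x 0, x 1, z 2] ![z 0, z 1, x 2, x 3]) w) 1
  · have h1 : (up3 (S := V) gRS) (Sum.inr (Sum.inr o)) = Sum.inr o := rfl
    rw [h1] at h
    rw [← h]
    congr 1
    funext e
    rcases e with (i | i) | (i | e)
    · exact i.elim0
    · fin_cases i <;> rfl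
    · fin_cases i <;> rfl
    · rfl
  · rintro ((i | i) | (i | e))
    · exact i.elim0
    · fin_cases i <;> rfl
    · fin_cases i <;> rfl
    · rfl
  · rintro ((i | i) | (i | e))
    · exact i.elim0
    · fin_cases i <;> rfl
    · fin_cases i <;> rfl
    · rfl

/-- the permutation of the terminals for `Kkc1` -/
def p1 : Fin 4 → Fin 4 := ![1, 2, 3, 0]

/-- the permutation of the terminals for `Kkc2` -/
def p2 : Fin 4 → Fin 4 := ![3, 1, 0, 2]

theorem NF_kc1 {A : Type} [CommRing A] (s t : E → V) (o : V) (g : Fin 4 → V)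
    (y : Fin 3 ⊕ Fin 4 → A) (w : E → A) :
    NF Kkc s t o (fun k => g (p1 k)) y w = NF Kkc1 s t o g y w := by
  unfold NF
  have h1 : aE Kkc.s (fun k => g (p1 k)) s = aE Kkc1.s g s := by
    funext e
    rcases e with (i | i) | e
    · fin_cases i <;> rfl
    · fin_cases i <;> rfl
    · rfl
  have h2 : aE Kkc.t (fun k => g (p1 k)) t = aE Kkc1.t g t := by
    funext e
    rcases e with (i | i) | e
    · fin_cases i <;> rfl
    · fin_cases i <;> rfl
    · rfl
  rw [h1, h2]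

theorem NF_kc2 {A : Type} [CommRing A] (s t : E → V) (o : V) (g : Fin 4 → V)
    (y : Fin 3 ⊕ Fin 4 → A) (w : E → A) :
    NF Kkc s t o (fun k => g (p2 k)) y w = NF Kkc2 s t o g y w := by
  unfold NF
  have h1 : aE Kkc.s (fun k => g (p2 k)) s = aE Kkc2.s g s := by
    funext e
    rcases e with (i | i) | e
    · fin_cases i <;> rfl
    · fin_cases i <;> rfl
    · rfl
  have h2 : aE Kkc.t (fun k => g (p2 k)) t = aE Kkc2.t g t := by
    funext e
    rcases e with (i | i) | e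
    · fin_cases i <;> rfl
    · fin_cases i <;> rfl
    · rfl
  rw [h1, h2]

end

end Pool.Agent.Sym3
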