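import Pool.Agent.Phi4.Main

/-!
# Graphs of maximum degree three: girth, simple graphs, the point; graphs of maximum degree two
-/

set_option autoImplicit false
set_option linter.unusedSectionVars false

open Matrix MvPolynomial
open Pool.Agent.Helper81.CP Pool.Agent.Helper81.HG Pool.Agent.Phi4
open Pool.Agent.Helper50.KR (kirchhoff)

namespace Pool.Agent.Sym3

section

variable {E V : Type} [DecidableEq V] [DecidableEq E] [Fintype E] [Fintype V]

/-- the degrees of the subdivision -/
lemma nb_sdv_of (d : ℕ) (h2 : 2 ≤ d) (s t : E → V) (hd : ∀ v, dg s t v ≤ d) (v : V ⊕ E) :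
    ((sdv s t).neighborSet v).ncard ≤ d := by
  classical
  rcases v with v | e
  · have h1 : (sdv s t).neighborSet (Sum.inl v) ⊆
        ((Finset.univ.filter fun e => v = s e ∨ v = t e).map ⟨Sum.inr, Sum.inr_injective⟩ :
          Finset (V ⊕ E)) := by
      rintro (w | e) hw
      · exact absurd hw (fun h => h)
      · have hw' : v = s e ∨ v = t e := hw
        simpa using hw'
    refine (Set.ncard_le_ncard h1 (Finset.finite_toSet _)).trans ?_
    rw [Set.ncard_coe_finset, Finset.card_map]
    refine le_trans ?_ (hd v)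
    unfold dg
    rw [Finset.card_filter]
    refine Finset.sum_le_sum fun e _ => ?_
    by_cases h1 : v = s e
    · rw [if_pos (Or.inl h1), if_pos h1.symm]; omega
    · by_cases h2 : v = t e
      · rw [if_pos (Or.inr h2), if_pos h2.symm]; omega
      · rw [if_neg (by tauto)]; omega
  · have h1 : (sdv s t).neighborSet (Sum.inr e) ⊆ {Sum.inl (s e), Sum.inl (t e)} := by
      rintro (w | e') hw
      · have hw' : w = s e ∨ w = t e := hw
        rcases hw' with h | h
        · left; rw [h]
        · right; rw [h]; rfl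
      · exact absurd hw (fun h => h)
    have h2 := Set.ncard_le_ncard h1 (Set.toFinite _)
    have h3 := Set.ncard_insert_le (Sum.inl (s e) : V ⊕ E) {Sum.inl (t e)}
    rw [Set.ncard_singleton] at h3
    omega

end

variable {G : ∀ (R : Type) [CommRing R], Prop}

/-- large girth by subdivision -/
theorem gs_symanzik_of_girth_le (d : ℕ) (h2d : 2 ≤ d) (hG : RG G) (g : ℕ)
    (h : ∀ (V : Type) [Fintype V] (H : SimpleGraph V), H.Connected →
      (∀ v, (H.neighborSet v).ncard ≤ d) → (g : ℕ∞) ≤ H.egirth →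
      GS G ({symanzik H} : Set (MvPolynomial H.edgeSet ℤ)))
    (V : Type) [Fintype V] (H : SimpleGraph V) (hc : H.Connected)
    (hd : ∀ v, (H.neighborSet v).ncard ≤ d) :
    GS G ({symanzik H} : Set (MvPolynomial H.edgeSet ℤ)) := by
  classical
  have key : ∀ n m : ℕ, g ≤ m * 2 ^ n → ∀ (V : Type) [Fintype V] (H : SimpleGraph V),
      H.Connected → (∀ v, (H.neighborSet v).ncard ≤ d) →
      Pool.Agent.KB.Cy H (fun _ _ => 1) m →
      GS G ({symanzik H} : Set (MvPolynomial H.edgeSet ℤ)) := by
    intro n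
    induction n with
    | zero =>
      intro m hm V _ H hc hd hC
      refine h V H hc hd (le_trans ?_ (Pool.Agent.KB.girth_of_cy hC fun _ _ _ => le_rfl))
      exact_mod_cast (by simpa using hm : g ≤ m)
    | succ n ih =>
      intro m hm V _ H hc hd hC
      have hex : ∀ e : H.edgeSet, ∃ p : V × V, s(p.1, p.2) = e.1 := by
        rintro ⟨e, he⟩
        induction e using Sym2.ind with
        | _ a b => exact ⟨(a, b), rfl⟩
      choose p hp using hex
      let s : H.edgeSet → V := fun e => (p e).1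
      let t : H.edgeSet → V := fun e => (p e).2
      have hst : ∀ e, s(s e, t e) = e.1 := hp
      have hl : ∀ e, s e ≠ t e := by
        intro e he
        have h1 := e.2
        rw [← hst e, SimpleGraph.mem_edgeSet] at h1
        exact h1.ne he
      obtain ⟨o⟩ := hc.nonempty
      have h1 : GS G ({symanzik (sdv s t)} : Set (MvPolynomial (sdv s t).edgeSet ℤ)) :=
        ih (2 * m) (by rw [pow_succ] at hm; calc g ≤ m * (2 ^ n * 2) := hm
                          _ = 2 * m * 2 ^ n := by ring) _ (sdv s t) (connected_sdv H hc s t hst)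
          (nb_sdv_of d h2d s t fun v => (dg_le_ncard H s t hst v).trans (hd v))
          (cy_sdv H s t hst hC)
      have h2 := gs_psi_of_sdv hG s t o hl h1
      rw [psi_symanzik H s t hst o] at h2
      exact h2
  refine key g 3 ?_ V H hc hd (cy_three H)
  have : g < 2 ^ g := Nat.lt_two_pow_self
  omega

/-- the point -/
theorem gs_point_of_simple_le (d : ℕ) (h2d : 2 ≤ d) (hG : RG G)
    (h : ∀ (V : Type) [Fintype V] (H : SimpleGraph V), H.Connected →
      (∀ v, (H.neighborSet v).ncard ≤ d) → GS G ({symanzik H} : Set (MvPolynomial H.edgeSet ℤ))) :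
    GS G (∅ : Set (MvPolynomial Empty ℤ)) := by
  classical
  have hdg : ∀ v, dg d0 d1 v ≤ d := by
    have h3 : ∀ v, dg d0 d1 v ≤ 2 := by decide
    exact fun v => (h3 v).trans h2d
  have hadj0 : ∀ e, (sdv d0 d1).Adj (Sum.inl 0) (Sum.inr e) := fun e => Or.inl rfl
  have hadj1 : ∀ e, (sdv d0 d1).Adj (Sum.inl 1) (Sum.inr e) := fun e => Or.inr rfl
  have hr : ∀ v, (sdv d0 d1).Reachable (Sum.inl 0) v := by
    rintro (v | e)
    · fin_cases v
      · exact SimpleGraph.Reachable.refl _
      · exact (hadj0 0).reachable.trans (hadj1 0).symm.reachable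
    · exact (hadj0 e).reachable
  have hc : (sdv d0 d1).Connected :=
    haveI : Nonempty (Fin 2 ⊕ Fin 2) := ⟨Sum.inl 0⟩
    ⟨fun x y => (hr x).symm.trans (hr y)⟩
  have h1 := h _ (sdv d0 d1) hc (nb_sdv_of d h2d d0 d1 hdg)
  let f : Fin 2 ⊕ Fin 2 ≃ (sdv d0 d1).edgeSet := Equiv.ofBijective (hf d0 d1) (hf_bij d0 d1 d_ne)
  have hfv : ∀ x, f x = hf d0 d1 x := fun x => rfl
  have h2 : GS G (∅ : Set (MvPolynomial (Fin 3) ℤ)) := by
    refine (hG.gs_iso (E := ({symanzik (sdv d0 d1)} : Set (MvPolynomial (sdv d0 d1).edgeSet ℤ)))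
      (E' := (∅ : Set (MvPolynomial (Fin 3) ℤ)))
      (fun A _ x => ![x (f (Sum.inr 0)), x (f (Sum.inl 1)), x (f (Sum.inr 1))])
      (fun A _ y => fun h => Sum.elim ![- (y 0 + y 1 + y 2), y 1] ![y 0, y 2] (f.symm h))
      ?_ ?_ ?_ ?_ ?_ ?_).mp h1
    · intro A B _ _ φ x _ j
      fin_cases j <;> rfl
    · intro A B _ _ φ y _ i
      dsimp only
      rcases f.symm i with e | e <;> fin_cases e <;> simp
    · intro A _ x _ p hp
      exact absurd hp (Set.notMem_empty p)
    · intro A _ y _ p hp
      rw [Set.mem_singleton_iff.mp hp, ev_symanzik_sdv d0 d1 0 d_ne, ev_psi_double]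
      simp only [← hfv, Equiv.symm_apply_apply, Sum.elim_inl, Sum.elim_inr]
      simp
      ring
    · intro A _ x hx
      have h3 := hx _ rfl
      rw [ev_symanzik_sdv d0 d1 0 d_ne, ev_psi_double] at h3
      simp only [← hfv] at h3
      funext i
      obtain ⟨z, rfl⟩ := f.surjective i
      rw [Equiv.symm_apply_apply]
      rcases z with e | e <;> fin_cases e
      · simp
        linear_combination -h3
      · simp
      · simp
      · simp
    · intro A _ y _
      funext i
      fin_cases i <;> simp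
  have h3 := (hG.gs_emb (Empty.elim : Empty → Fin 3) (fun x => x.elim)
    (∅ : Set (MvPolynomial Empty ℤ))).mp
  rw [Set.image_empty] at h3
  exact h3 h2

/-- from simple graphs to multigraphs -/
theorem gs_psi_of_simple_le (d : ℕ) (h2d : 2 ≤ d) (hG : RG G)
    (hpt : GS G (∅ : Set (MvPolynomial Empty ℤ)))
    (h : ∀ (V : Type) [Fintype V] (H : SimpleGraph V), H.Connected →
      (∀ v, (H.neighborSet v).ncard ≤ d) → GS G ({symanzik H} : Set (MvPolynomial H.edgeSet ℤ)))
    (E V : Type) [Fintype E] [DecidableEq E] [Fintype V] [DecidableEq V] (s t : E → V) (o : V)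
    (hl : ∀ e, s e ≠ t e) (hd : ∀ v, dg s t v ≤ d) :
    GS G ({psi s t o} : Set (MvPolynomial E ℤ)) := by
  classical
  by_cases hc : (sdv s t).Connected
  · exact gs_psi_of_sdv hG s t o hl (h (V ⊕ E) (sdv s t) hc (nb_sdv_of d h2d s t hd))
  · let f : E ⊕ E ≃ (sdv s t).edgeSet := Equiv.ofBijective (hf s t) (hf_bij s t hl)
    have hfv : ∀ x, f x = hf s t x := fun x => rfl
    have h0 : psi s t o = 0 := by
      have h1 := ev_symanzik_sdv s t o hl
        (fun h => Sum.elim (fun e => (X e : MvPolynomial E ℤ)) (fun _ => 0) (f.symm h))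
      rw [symanzik_disc _ hc, map_zero, ev_psi] at h1
      simp only [← hfv, Equiv.symm_apply_apply, Sum.elim_inl, Sum.elim_inr, add_zero] at h1
      exact h1.symm
    rw [h0]
    refine (hG.gs_congr fun A _ x => ?_).mpr (Pool.Agent.KB.gs_affine hG hpt E)
    constructor
    · intro _ p hp
      exact absurd hp (Set.notMem_empty p)
    · intro _ p hp
      rw [Set.mem_singleton_iff.mp hp, map_zero]

/-- large girth by subdivision (Phi4.Gir with `3` instead of `4`) -/
theorem gs_symanzik3_of_girth (hG : RG G) (g : ℕ)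
    (h : ∀ (V : Type) [Fintype V] (H : SimpleGraph V), H.Connected →
      (∀ v, (H.neighborSet v).ncard ≤ 3) → (g : ℕ∞) ≤ H.egirth →
      GS G ({symanzik H} : Set (MvPolynomial H.edgeSet ℤ)))
    (V : Type) [Fintype V] (H : SimpleGraph V) (hc : H.Connected)
    (hd : ∀ v, (H.neighborSet v).ncard ≤ 3) :
    GS G ({symanzik H} : Set (MvPolynomial H.edgeSet ℤ)) :=
  gs_symanzik_of_girth_le 3 (by norm_num) hG g h V H hc hd

/-- the point (Phi4.Main with `3` instead of `4`) -/
theorem gs_point3 (hG : RG G)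
    (h : ∀ (V : Type) [Fintype V] (H : SimpleGraph V), H.Connected →
      (∀ v, (H.neighborSet v).ncard ≤ 3) → GS G ({symanzik H} : Set (MvPolynomial H.edgeSet ℤ))) :
    GS G (∅ : Set (MvPolynomial Empty ℤ)) :=
  gs_point_of_simple_le 3 (by norm_num) hG h

/-- from simple graphs to multigraphs (Phi4.Simp with `3` instead of `4`) -/
theorem gs_psi3_of_simple (hG : RG G) (hpt : GS G (∅ : Set (MvPolynomial Empty ℤ)))
    (h : ∀ (V : Type) [Fintype V] (H : SimpleGraph V), H.Connected →
      (∀ v, (H.neighborSet v).ncard ≤ 3) → GS G ({symanzik H} : Set (MvPolynomial H.edgeSet ℤ)))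
    (E V : Type) [Fintype E] [DecidableEq E] [Fintype V] [DecidableEq V] (s t : E → V) (o : V)
    (hl : ∀ e, s e ≠ t e) (hd : ∀ v, dg s t v ≤ 3) :
    GS G ({psi s t o} : Set (MvPolynomial E ℤ)) :=
  gs_psi_of_simple_le 3 (by norm_num) hG hpt h E V s t o hl hd

end Pool.Agent.Sym3
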