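import Pool.Agent.Phi4.Main

/-!
# Graphs of maximum degree two
-/

set_option autoImplicit false
set_option linter.unusedSectionVars false

open AlgebraicGeometry CategoryTheory MvPolynomial
open Pool.Agent.Helper81.CP Pool.Agent.Helper81.HG Pool.Agent.Phi4
open Pool.Agent.Helper45.RM
open Pool.Agent.Helper50.KR (kirchhoff IsSpanningTree)

namespace Pool.Agent.Sym3

universe u

variable {G : ∀ (R : Type) [CommRing R], Prop}

/-! ### Spanning trees of the graphs of maximum degree two -/

section

variable {V : Type} {H : SimpleGraph V}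

lemma edgeSet_from (T : Finset H.edgeSet) :
    (SimpleGraph.fromEdgeSet (Subtype.val '' (T : Set H.edgeSet))).edgeSet =
      Subtype.val '' (T : Set H.edgeSet) := by
  rw [SimpleGraph.edgeSet_fromEdgeSet]
  ext e
  constructor
  · exact fun h => h.1
  · rintro ⟨f, hf, rfl⟩
    exact ⟨⟨f, hf, rfl⟩, H.not_isDiag_of_mem_edgeSet f.2⟩

lemma card_from (T : Finset H.edgeSet) :
    Nat.card (SimpleGraph.fromEdgeSet (Subtype.val '' (T : Set H.edgeSet))).edgeSet = T.card := by
  rw [edgeSet_from, Nat.card_coe_set_eq, Set.ncard_image_of_injective _ Subtype.val_injective,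
    Set.ncard_coe_finset]

lemma st_card [Finite V] {T : Finset H.edgeSet} (h : IsSpanningTree H T) :
    T.card + 1 = Nat.card V := by
  have h1 := (SimpleGraph.isTree_iff_connected_and_card.mp h).2
  rwa [card_from] at h1

/-- the spanning trees of a connected graph of maximum degree two -/
theorem st_cases [Fintype V] [Fintype H.edgeSet] [DecidableEq H.edgeSet] (hc : H.Connected)
    (hd : ∀ v, (H.neighborSet v).ncard ≤ 2) :
    (∀ T : Finset H.edgeSet, IsSpanningTree H T ↔ T = Finset.univ) ∨
      (Nonempty H.edgeSet ∧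
        ∀ T : Finset H.edgeSet, IsSpanningTree H T ↔ ∃ e, T = {e}ᶜ) := by
  classical
  by_cases hT : H.IsTree
  · left
    have hcard := (SimpleGraph.isTree_iff_connected_and_card.mp hT).2
    intro T
    constructor
    · intro h
      have h1 := st_card h
      have h2 : T.card = Fintype.card H.edgeSet := by
        rw [← Nat.card_eq_fintype_card]
        omega
      exact (Finset.card_eq_iff_eq_univ T).mp h2
    · rintro rfl
      have h1 : SimpleGraph.fromEdgeSet (Subtype.val '' ((Finset.univ : Finset H.edgeSet) :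
          Set H.edgeSet)) = H := by
        rw [Finset.coe_univ, Set.image_univ, Subtype.range_coe]
        exact SimpleGraph.fromEdgeSet_edgeSet H
      unfold IsSpanningTree
      rw [h1]
      exact hT
  · right
    have hle := hc.card_vert_le_card_edgeSet_add_one
    have hne : ¬ (Nat.card H.edgeSet + 1 = Nat.card V) := fun h =>
      hT (SimpleGraph.isTree_iff_connected_and_card.mpr ⟨hc, h⟩)
    have hdeg : ∀ v, H.degree v = (H.neighborSet v).ncard := fun v => by
      rw [← SimpleGraph.card_neighborSet_eq_degree, ← Nat.card_eq_fintype_card,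
        Nat.card_coe_set_eq]
    have hV0 : Nonempty V := hc.nonempty
    have h0 : ∀ i : Fintype H.edgeSet, @Fintype.card _ i = Nat.card H.edgeSet := fun i =>
      (@Nat.card_eq_fintype_card _ i).symm
    have hsum : ∑ v, H.degree v = 2 * Nat.card H.edgeSet := by
      rw [H.sum_degrees_eq_twice_card_edges, SimpleGraph.edgeFinset, Set.toFinset_card, h0]
    have hV : Nat.card V = Fintype.card V := Nat.card_eq_fintype_card
    have hle2 : ∑ v, H.degree v ≤ ∑ _v : V, 2 :=
      Finset.sum_le_sum fun v _ => by rw [hdeg]; exact hd v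
    have hconst : ∑ _v : V, 2 = 2 * Fintype.card V := by
      rw [Finset.sum_const, Finset.card_univ, smul_eq_mul, mul_comm]
    have heq : Nat.card H.edgeSet = Nat.card V := by omega
    have hdeg2 : ∀ v, H.degree v = 2 := by
      have h1 : ∑ v, H.degree v = ∑ _v : V, 2 := by omega
      have h2 := (Finset.sum_eq_sum_iff_of_le
        (fun v _ => (by rw [hdeg]; exact hd v : H.degree v ≤ 2))).mp h1
      exact fun v => h2 v (Finset.mem_univ v)
    have hcyc : H.IsCycles := fun v _ => by rw [← hdeg, hdeg2]
    refine ⟨?_, fun T => ⟨fun h => ?_, ?_⟩⟩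
    · have h1 : 0 < Nat.card V := Nat.card_pos
      rw [← heq] at h1
      exact (Nat.card_pos_iff.mp h1).1
    · have h1 := st_card h
      have h2 : (Tᶜ).card = 1 := by
        rw [Finset.card_compl, ← Nat.card_eq_fintype_card]
        omega
      obtain ⟨e, he⟩ := Finset.card_eq_one.mp h2
      exact ⟨e, by rw [← he, compl_compl]⟩
    · rintro ⟨e, rfl⟩
      have h1 : (SimpleGraph.fromEdgeSet (Subtype.val '' ((({e}ᶜ : Finset H.edgeSet)) :
          Set H.edgeSet))) = H.deleteEdges {e.1} := by
        ext a b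
        rw [SimpleGraph.fromEdgeSet_adj, SimpleGraph.deleteEdges_adj]
        constructor
        · rintro ⟨⟨f, hf, hfe⟩, hab⟩
          have h3 : s(a, b) ∈ H.edgeSet := hfe ▸ f.2
          refine ⟨h3, fun h4 => ?_⟩
          rw [Finset.mem_coe, Finset.mem_compl, Finset.mem_singleton] at hf
          exact hf (Subtype.ext (hfe.trans h4))
        · rintro ⟨h3, h4⟩
          refine ⟨⟨⟨s(a, b), h3⟩, ?_, rfl⟩, h3.ne⟩
          rw [Finset.mem_coe, Finset.mem_compl, Finset.mem_singleton]
          intro h5
          exact h4 (congrArg Subtype.val h5)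
      have h2 : (H.deleteEdges {e.1}).Connected := by
        obtain ⟨e, he⟩ := e
        induction e using Sym2.ind with
        | _ a b =>
          refine hc.connected_delete_edge_of_not_isBridge ?_
          rw [SimpleGraph.isBridge_iff, not_not]
          exact hcyc.reachable_deleteEdges he
      show (SimpleGraph.fromEdgeSet (Subtype.val '' ((({e}ᶜ : Finset H.edgeSet)) :
          Set H.edgeSet))).IsTree
      rw [SimpleGraph.isTree_iff_connected_and_card, card_from, h1]
      refine ⟨h2, ?_⟩
      rw [Finset.card_compl, Finset.card_singleton, ← Nat.card_eq_fintype_card, heq]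
      have h3 : 0 < Nat.card V := Nat.card_pos
      omega

lemma sum_st_univ {M : Type} [AddCommMonoid M] [Fintype H.edgeSet]
    (h : ∀ T : Finset H.edgeSet, IsSpanningTree H T ↔ T = Finset.univ)
    [DecidablePred (IsSpanningTree H)] (f : Finset H.edgeSet → M) :
    (∑ T : Finset H.edgeSet, if IsSpanningTree H T then f T else 0) = f Finset.univ := by
  rw [Finset.sum_eq_single Finset.univ]
  · rw [if_pos ((h _).mpr rfl)]
  · intro T _ hT
    rw [if_neg fun h' => hT ((h T).mp h')]
  · intro h'
    exact absurd (Finset.mem_univ _) h'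

lemma sum_st_compl {M : Type} [AddCommMonoid M] [Fintype H.edgeSet] [DecidableEq H.edgeSet]
    (h : ∀ T : Finset H.edgeSet, IsSpanningTree H T ↔ ∃ e, T = {e}ᶜ)
    [DecidablePred (IsSpanningTree H)] (f : Finset H.edgeSet → M) :
    (∑ T : Finset H.edgeSet, if IsSpanningTree H T then f T else 0) = ∑ e, f {e}ᶜ := by
  rw [← Finset.sum_filter]
  have h1 : (Finset.univ.filter fun T : Finset H.edgeSet => IsSpanningTree H T) =
      Finset.univ.image fun e : H.edgeSet => ({e}ᶜ : Finset H.edgeSet) := by
    ext T
    rw [Finset.mem_filter, Finset.mem_image, h]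
    constructor
    · rintro ⟨_, e, rfl⟩
      exact ⟨e, Finset.mem_univ _, rfl⟩
    · rintro ⟨e, _, rfl⟩
      exact ⟨Finset.mem_univ _, e, rfl⟩
  rw [h1, Finset.sum_image]
  intro e _ e' _ hee
  exact Finset.singleton_injective (compl_injective hee)

end

/-! ### The elementary symmetric polynomials of the degrees `n` and `n - 1` in `n` variables -/

section

variable {E : Type} [Fintype E] [DecidableEq E]

/-- the product of the variables -/
noncomputable def PrS (S : Finset E) : MvPolynomial E ℤ := ∏ e ∈ S, X e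

/-- the sum of the products of all variables but one -/
noncomputable def DrS (S : Finset E) : MvPolynomial E ℤ := ∑ e ∈ S, ∏ f ∈ S.erase e, X f

lemma ev_PrS {A : Type} [CommRing A] (x : E → A) (S : Finset E) :
    ev x (PrS S) = ∏ e ∈ S, x e := by
  unfold PrS
  rw [map_prod]
  exact Finset.prod_congr rfl fun e _ => ev_X x e

lemma ev_DrS {A : Type} [CommRing A] (x : E → A) (S : Finset E) :
    ev x (DrS S) = ∑ e ∈ S, ∏ f ∈ S.erase e, x f := by
  unfold DrS
  rw [map_sum]
  refine Finset.sum_congr rfl fun e _ => ?_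
  rw [map_prod]
  exact Finset.prod_congr rfl fun e _ => ev_X x e

lemma PrS_insert {a : E} {S : Finset E} (h : a ∉ S) : PrS (insert a S) = X a * PrS S :=
  Finset.prod_insert h

lemma DrS_insert {a : E} {S : Finset E} (h : a ∉ S) :
    DrS (insert a S) = X a * DrS S + PrS S := by
  unfold DrS
  rw [Finset.sum_insert h, Finset.erase_insert h, Finset.mul_sum, add_comm]
  congr 1
  refine Finset.sum_congr rfl fun e he => ?_
  have hea : a ≠ e := fun hh => h (hh ▸ he)
  rw [Finset.erase_insert_of_ne hea, Finset.prod_insert]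
  intro h1
  exact h (Finset.mem_of_mem_erase h1)

lemma frp_PrS {a : E} {S : Finset E} (h : a ∉ S) : Frp a (PrS S) := by
  intro A _ x y hxy
  rw [ev_PrS, ev_PrS]
  exact Finset.prod_congr rfl fun e he => hxy e fun hh => h (hh ▸ he)

lemma frp_DrS {a : E} {S : Finset E} (h : a ∉ S) : Frp a (DrS S) := by
  intro A _ x y hxy
  rw [ev_DrS, ev_DrS]
  refine Finset.sum_congr rfl fun e _ => Finset.prod_congr rfl fun f hf => hxy f fun hh => ?_
  exact h (hh ▸ Finset.mem_of_mem_erase hf)

variable (hG : RG G) (hpt : GS G (∅ : Set (MvPolynomial Empty ℤ)))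

include hG hpt

lemma gd_true (E : Type) [Finite E] : Gd G (fun _ _ _ => True : Pd E) :=
  (Gd.of_gs hG (gs_affine_of_base hG hpt E)).congr fun A _ x =>
    ⟨fun _ => trivial, fun _ p hp => absurd hp (Set.notMem_empty p)⟩

/-- the union of the coordinate hyperplanes -/
lemma gd_PrS (S : Finset E) : Gd G (fun A _ (x : E → A) => ev x (PrS S) = 0) := by
  induction S using Finset.induction_on with
  | empty =>
    refine Gd.empty hG ((rp_true.zero (PrS ∅)).congr fun A _ x => ?_) fun A _ x hx => ?_
    · simp
    · rw [ev_PrS, Finset.prod_empty] at hx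
      exact hx
  | insert a S ha ih =>
    have hr : Rp (fun A _ (x : E → A) => ev x (PrS (insert a S)) = 0) :=
      (rp_true.zero (PrS (insert a S))).congr fun A _ x => by simp
    refine Gd.glue hG hr (X a) ?_ ?_
    · refine Gd.solve hG (gd_true hG hpt E) a (fun _ _ _ _ _ _ => trivial) 1 0 frp_one frp_zero
        (fun A _ x _ => by rw [map_one]; exact isUnit_one) fun A _ x => ?_
      rw [PrS_insert ha, map_mul, ev_X, map_one, map_zero, mul_one, add_zero]
      constructor
      · exact fun h => ⟨trivial, h.2⟩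
      · exact fun h => ⟨by rw [h.2, zero_mul], h.2⟩
    · refine (Gd.gm hG ih a (frp_PrS ha).z).congr fun A _ x => ?_
      rw [PrS_insert ha, map_mul, ev_X]
      constructor
      · exact fun h => ⟨by rw [h.1, mul_zero], h.2⟩
      · exact fun h => ⟨h.2.mul_right_eq_zero.mp h.1, h.2⟩

/-- the union of the intersections of two coordinate hyperplanes, as the singular locus -/
lemma gd_both (S : Finset E) :
    Gd G (fun A _ (x : E → A) => ev x (PrS S) = 0 ∧ ev x (DrS S) = 0) := by
  induction S using Finset.induction_on with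
  | empty =>
    refine Gd.empty hG (((rp_true.zero (PrS ∅)).zero (DrS ∅)).congr fun A _ x => ?_)
      fun A _ x hx => ?_
    · simp
    · rw [ev_PrS, Finset.prod_empty] at hx
      exact hx.1
  | insert a S ha ih =>
    have hr : Rp (fun A _ (x : E → A) =>
        ev x (PrS (insert a S)) = 0 ∧ ev x (DrS (insert a S)) = 0) :=
      ((rp_true.zero (PrS (insert a S))).zero (DrS (insert a S))).congr fun A _ x => by simp
    refine Gd.glue hG hr (X a) ?_ ?_
    · refine Gd.solve hG (gd_PrS hG hpt S) a (frp_PrS ha).z 1 0 frp_one frp_zero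
        (fun A _ x _ => by rw [map_one]; exact isUnit_one) fun A _ x => ?_
      rw [PrS_insert ha, DrS_insert ha, map_mul, map_add, map_mul, ev_X, map_one, map_zero,
        mul_one, add_zero]
      constructor
      · rintro ⟨⟨h1, h2⟩, h3⟩
        rw [h3, zero_mul, zero_add] at h2
        exact ⟨h2, h3⟩
      · rintro ⟨h1, h2⟩
        exact ⟨⟨by rw [h2, zero_mul], by rw [h2, zero_mul, zero_add, h1]⟩, h2⟩
    · refine (Gd.gm hG ih a ((frp_PrS ha).z.and (frp_DrS ha).z)).congr fun A _ x => ?_
      rw [PrS_insert ha, DrS_insert ha, map_mul, map_add, map_mul, ev_X]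
      constructor
      · rintro ⟨⟨h1, h2⟩, h3⟩
        exact ⟨⟨by rw [h1, mul_zero], by rw [h1, h2, mul_zero, zero_add]⟩, h3⟩
      · rintro ⟨⟨h1, h2⟩, h3⟩
        have h4 := h3.mul_right_eq_zero.mp h1
        rw [h4, add_zero] at h2
        exact ⟨⟨h4, h3.mul_right_eq_zero.mp h2⟩, h3⟩

/-- the elementary symmetric polynomial of degree `n - 1` in `n` variables -/
lemma gd_DrS (S : Finset E) : Gd G (fun A _ (x : E → A) => ev x (DrS S) = 0) := by
  induction S using Finset.induction_on with
  | empty =>
    refine (gd_true hG hpt E).congr fun A _ x => ?_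
    rw [ev_DrS, Finset.sum_empty]
    exact ⟨fun _ => rfl, fun _ => trivial⟩
  | insert a S ha ih =>
    have hr : Rp (fun A _ (x : E → A) => ev x (DrS (insert a S)) = 0) :=
      (rp_true.zero (DrS (insert a S))).congr fun A _ x => by simp
    refine Gd.glue hG hr (DrS S) ?_ ?_
    · refine (gd_both hG hpt S).congr fun A _ x => ?_
      rw [DrS_insert ha, map_add, map_mul]
      constructor
      · rintro ⟨h1, h2⟩
        exact ⟨by rw [h1, h2, mul_zero, zero_add], h2⟩
      · rintro ⟨h1, h2⟩
        rw [h2, mul_zero, zero_add] at h1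
        exact ⟨h1, h2⟩
    · have h1 : Gd G (fun A _ (x : E → A) => True ∧ IsUnit (ev x (DrS S))) :=
        Gd.opn hG (gd_true hG hpt E) (DrS S) (ih.congr fun A _ x => by simp)
      refine Gd.solve hG h1 a ?_ (DrS S) (PrS S) (frp_DrS ha) (frp_PrS ha)
        (fun A _ x hx => hx.2) fun A _ x => ?_
      · intro A _ x y hxy hx
        exact ⟨trivial, by rw [frp_DrS ha A x y hxy]; exact hx.2⟩
      · rw [DrS_insert ha, map_add, map_mul, ev_X]
        constructor
        · rintro ⟨h2, h3⟩
          exact ⟨⟨trivial, h3⟩, h2⟩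
        · rintro ⟨⟨_, h3⟩, h2⟩
          exact ⟨h2, h3⟩

omit [DecidableEq E] in
/-- a hyperplane -/
lemma gs_sum (a : E) : GS G ({∑ e, X e} : Set (MvPolynomial E ℤ)) := by
  classical
  have hev : ∀ (A : Type) [CommRing A] (x : E → A), ev x (∑ e, X e) = ∑ e, x e := by
    intro A _ x
    rw [map_sum]
    exact Finset.sum_congr rfl fun e _ => ev_X x e
  have hev' : ∀ (A : Type) [CommRing A] (x : E → A),
      ev x (∑ e ∈ Finset.univ.erase a, X e) = ∑ e ∈ Finset.univ.erase a, x e := by
    intro A _ x
    rw [map_sum]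
    exact Finset.sum_congr rfl fun e _ => ev_X x e
  have h1 : Gd G (fun A _ (x : E → A) => ev x (∑ e, X e) = 0) := by
    refine Gd.solve hG (gd_true hG hpt E) a (fun _ _ _ _ _ _ => trivial) 1
      (∑ e ∈ Finset.univ.erase a, X e) frp_one ?_
      (fun A _ x _ => by rw [map_one]; exact isUnit_one) fun A _ x => ?_
    · intro A _ x y hxy
      rw [hev', hev']
      exact Finset.sum_congr rfl fun e he => hxy e (Finset.ne_of_mem_erase he)
    · rw [hev, hev', map_one, mul_one, Finset.add_sum_erase _ _ (Finset.mem_univ a)]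
      exact ⟨fun h => ⟨trivial, h⟩, fun h => h.2⟩
  refine h1.gs hG fun A _ x => ?_
  simp [Pt]

end

/-! ### The polynomials of the graphs -/

/-- paths and cycles -/
theorem gs_symanzik_two (hG : RG G) (hpt : GS G (∅ : Set (MvPolynomial Empty ℤ))) (V : Type)
    [Fintype V] (H : SimpleGraph V) (hc : H.Connected) (hd : ∀ v, (H.neighborSet v).ncard ≤ 2) :
    GS G ({symanzik H} : Set (MvPolynomial H.edgeSet ℤ)) := by
  classical
  rcases st_cases hc hd with h | ⟨⟨a⟩, h⟩
  · have h1 : symanzik H = 1 := by
      unfold symanzik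
      rw [sum_st_univ h]
      simp
    rw [h1]
    refine (Gd.empty hG (rp_pt _) fun A _ x hx => ?_ :
      Gd G (fun A _ (x : H.edgeSet → A) => Pt ({1} : Set (MvPolynomial H.edgeSet ℤ)) x)).gs hG
      fun A _ x => Iff.rfl
    have h2 := hx 1 rfl
    rwa [map_one] at h2
  · have h1 : symanzik H = ∑ e, X e := by
      unfold symanzik
      rw [sum_st_compl h]
      refine Finset.sum_congr rfl fun e _ => ?_
      rw [compl_compl, Finset.prod_singleton]
    rw [h1]
    exact gs_sum hG hpt a

/-- paths and cycles -/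
theorem gs_kirchhoff_two (hG : RG G) (hpt : GS G (∅ : Set (MvPolynomial Empty ℤ))) (V : Type)
    [Fintype V] (H : SimpleGraph V) (hc : H.Connected) (hd : ∀ v, (H.neighborSet v).ncard ≤ 2) :
    GS G ({kirchhoff H} : Set (MvPolynomial H.edgeSet ℤ)) := by
  classical
  rcases st_cases hc hd with h | ⟨_, h⟩
  · have h1 : kirchhoff H = PrS Finset.univ := by
      unfold kirchhoff PrS
      rw [sum_st_univ h]
    rw [h1]
    refine (gd_PrS hG hpt Finset.univ).gs hG fun A _ x => ?_
    simp [Pt]
  · have h1 : kirchhoff H = DrS Finset.univ := by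
      unfold kirchhoff DrS
      rw [sum_st_compl h]
      refine Finset.sum_congr rfl fun e _ => Finset.prod_congr ?_ fun _ _ => rfl
      ext f
      simp
    rw [h1]
    refine (gd_DrS hG hpt Finset.univ).gs hG fun A _ x => ?_
    simp [Pt]

/-- the hypersurfaces of both polynomials of the connected graphs of maximum degree two -/
def TwoC (N : ℕ) : Set Scheme.{0} :=
  {Y | ∃ (V : Type) (_ : Fintype V) (H : SimpleGraph V), H.Connected ∧
    (∀ v, (H.neighborSet v).ncard ≤ 2) ∧ (Y = Zeros N {symanzik H} ∨ Y = Zeros N {kirchhoff H})}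

/-- the hypersurfaces of the graphs of maximum degree two are controlled by `Spec ℤ/N` -/
theorem main_two (N : ℕ) :
    Controls.{u} {Zeros N (∅ : Set (MvPolynomial Empty ℤ))} (TwoC N) := by
  refine controls_of_ctl ?_ ?_
  · rintro _ ⟨V, _, H, _, _, rfl | rfl⟩
    · exact isFT_zero _ _
    · exact isFT_zero _ _
  · have hG := sg_ctl {Zeros N (∅ : Set (MvPolynomial Empty ℤ))}
    have hR := hG.rg.mod N
    have hpt := (gz hG (m := N) (∅ : Set (MvPolynomial Empty ℤ))).mpr (cc_self _ _ rfl)
    rintro _ ⟨V, _, H, hc, hd, rfl | rfl⟩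
    · exact (gz hG _).mp (gs_symanzik_two hR hpt V H hc hd)
    · exact (gz hG _).mp (gs_kirchhoff_two hR hpt V H hc hd)

end Pool.Agent.Sym3
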