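import Pool.Agent.Sym3.StJ
import Pool.Agent.Sym3.Low
import Pool.Agent.Sym3.Two

/-!
# Both questions: first Symanzik polynomials of graphs of maximum degree three
-/

set_option autoImplicit false
set_option linter.unusedSectionVars false

open AlgebraicGeometry CategoryTheory MvPolynomial
open Pool.Agent.Helper81.CP Pool.Agent.Helper81.HG Pool.Agent.Phi4
open Pool.Agent.Helper45.RM
open Pool.Agent.Helper50.KR (kirchhoff)

namespace Pool.Agent.Sym3

universe u

/-- the hypersurfaces over `ℤ/N` of the first Symanzik polynomials of the connected simple graphs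
of maximum degree at most `3` and of girth at least `g` -/
def Sym3C (N g : ℕ) : Set Scheme.{0} :=
  {Y | ∃ (V : Type) (_ : Fintype V) (H : SimpleGraph V), H.Connected ∧
    (∀ v, (H.neighborSet v).ncard ≤ 3) ∧ (g : ℕ∞) ≤ H.egirth ∧ Y = Zeros N {symanzik H}}

/-- **The hypersurfaces of the first Symanzik polynomials of the connected graphs of maximum degree
three and of large girth control everything.** -/
theorem cc_symanzik3 {G : Scheme.{0} → Prop} (hG : SG G) (hS : Sem (rg G)) (hW : WT (rg G))
    {N g : ℕ}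
    (h : CC G (Sym3C N g)) : CC G (FiniteType N) := by
  have hR : RG (md (rg G) N) := hG.rg.mod N
  have h3 : ∀ (V : Type) [Fintype V] (H : SimpleGraph V), H.Connected →
      (∀ v, (H.neighborSet v).ncard ≤ 3) →
      GS (md (rg G) N) ({symanzik H} : Set (MvPolynomial H.edgeSet ℤ)) :=
    gs_symanzik3_of_girth hR g fun V _ H hc hd hg =>
      (gz hG _).mpr (h _ ⟨V, inferInstance, H, hc, hd, hg, rfl⟩)
  have hpt : GS (md (rg G) N) (∅ : Set (MvPolynomial Empty ℤ)) := gs_point3 hR h3
  refine Pool.Agent.KB.cc_kirchhoff hG hS (N := N) ?_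
  rintro _ ⟨n, H, _, rfl⟩
  exact (gz hG _).mp (gs_kirchhoff_of_psi hR hpt (fun E V _ _ _ _ s t o hl =>
    gs_psi_all hR hpt (fun E V _ _ _ _ s t o hl hd =>
      gs_psi_four hR (fun n hI E V _ _ _ _ s t o g hl hd hx =>
        st_M hR (WT.mod hG.rg hW N) hpt n hI E V s t o g hl hd hx)
        (fun E V _ _ _ _ s t o hl hd => gs_psi3_of_simple hR hpt h3 E V s t o hl hd)
        E V s t o hl hd)
      E V s t o hl) _ H)

theorem main_symanzik3 (N g : ℕ) : Controls.{u} (Sym3C N g) (FiniteType N) :=
  controls_of_ctl isFT_finiteType (cc_symanzik3 (sg_ctl _) (sem_ctl _) (wt_ctl _) (cc_self _))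

end Pool.Agent.Sym3
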