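import Pool.Agent.Phi4.Ind
import Pool.Agent.Sym3.Form

/-!
# Networks attached to a graph with terminals
-/

set_option autoImplicit false
set_option linter.unusedSectionVars false

open Matrix MvPolynomial
open Pool.Agent.Helper81.CP Pool.Agent.Helper81.HG Pool.Agent.Phi4

namespace Pool.Agent.Sym3

section

variable {E V κ L N T A : Type} [CommRing A] [DecidableEq V] [DecidableEq E] [Fintype E]
  [Fintype V] [DecidableEq κ] [Fintype κ] [DecidableEq N] [Fintype N] [DecidableEq L] [Fintype L]
  [DecidableEq T] [Fintype T]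

/-- the ends of the edges of a graph with a network -/
def aE (k : κ → N ⊕ T) (g : T → V) (s : E → V) : κ ⊕ E → N ⊕ V :=
  Sum.elim (fun i => Sum.map id g (k i)) (fun e => Sum.inr (s e))

/-- a network with the inner vertices `N`, the terminals `T`, the edges `κ` and the currents `L` -/
structure Nw (κ L N T : Type) [DecidableEq N] [DecidableEq T] [Fintype κ] [Fintype N]
    [DecidableEq L] where
  /-- sources -/
  s : κ → N ⊕ T
  /-- targets -/
  t : κ → N ⊕ T
  /-- the edges that carry the currents `L`, and a spanning forest attached to the terminals -/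
  e : L ⊕ N ≃ κ
  /-- the currents of the edges -/
  P : Matrix κ L ℤ
  /-- the inverse of the incidence matrix of the forest -/
  R : Matrix N N ℤ
  hP : ∀ l l', P (e (Sum.inl l)) l' = if l = l' then 1 else 0
  hK : ∀ n l, ∑ i, inc s t i (Sum.inl n) * P i l = 0
  hR : ∀ n n', ∑ i, inc s t (e (Sum.inr i)) (Sum.inl n) * R i n' = if n = n' then 1 else 0

/-- the currents through the terminals -/
def Nw.C (K : Nw κ L N T) : Matrix T L ℤ := of fun k l => ∑ i, inc K.s K.t i (Sum.inr k) * K.P i l

/-- the quadratic form -/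
def Nw.Q (K : Nw κ L N T) (y : κ → A) : Matrix L L A :=
  of fun l l' => ∑ i, y i * ((K.P i l : A) * (K.P i l' : A))

/-- the border -/
def BV (E A : Type) [CommRing A] (g : T → V) (C : Matrix T L ℤ) : Matrix (E ⊕ V) L A :=
  of fun i l => Sum.elim (fun _ => 0) (fun v => ∑ k, if g k = v then (C k l : A) else 0) i

/-! ### The incidences of a graph with a network -/

lemma inc_aE_ll (a b : κ → N ⊕ T) (g : T → V) (s t : E → V) (i : κ) (n : N) :
    (inc (aE a g s) (aE b g t) (Sum.inl i) (Sum.inl n) : A) = inc a b i (Sum.inl n) := by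
  have h : ∀ x : N ⊕ T, (if (Sum.map id g x : N ⊕ V) = Sum.inl n then (1 : A) else 0) =
      if x = Sum.inl n then 1 else 0 := by
    rintro (m | k)
    · simp
    · simp
  exact congrArg₂ (fun x y : A => x - y) (h (a i)) (h (b i))

lemma inc_aE_lr (a b : κ → N ⊕ T) (g : T → V) (s t : E → V) (i : κ) (v : V) :
    (inc (aE a g s) (aE b g t) (Sum.inl i) (Sum.inr v) : A) =
      ∑ k, if g k = v then inc a b i (Sum.inr k) else 0 := by
  have h : ∀ x : N ⊕ T, (if (Sum.map id g x : N ⊕ V) = Sum.inr v then (1 : A) else 0) =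
      ∑ k, if g k = v then (if x = Sum.inr k then 1 else 0) else 0 := by
    rintro (m | k)
    · simp
    · rw [Finset.sum_eq_single k]
      · simp
      · intro j _ hj
        rw [if_neg (fun h => hj (Sum.inr_injective h).symm), ite_self]
      · intro hk
        exact absurd (Finset.mem_univ _) hk
  refine (congrArg₂ (fun x y : A => x - y) (h (a i)) (h (b i))).trans ?_
  rw [← Finset.sum_sub_distrib]
  refine Finset.sum_congr rfl fun k _ => ?_
  split_ifs <;> simp_all [inc]

lemma inc_aE_rl (a b : κ → N ⊕ T) (g : T → V) (s t : E → V) (e : E) (n : N) :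
    (inc (aE a g s) (aE b g t) (Sum.inr e) (Sum.inl n) : A) = 0 := by
  simp [inc, aE]

lemma inc_aE_rr (a b : κ → N ⊕ T) (g : T → V) (s t : E → V) (e : E) (v : V) :
    (inc (aE a g s) (aE b g t) (Sum.inr e) (Sum.inr v) : A) = inc s t e v := by
  simp [inc, aE]

/-- the four kinds of rows -/
def psiE (e : L ⊕ N ≃ κ) : ((E ⊕ V) ⊕ L) ⊕ (N ⊕ N) ≃ (κ ⊕ E) ⊕ (N ⊕ V) where
  toFun := Sum.elim (Sum.elim (Sum.elim (fun x => Sum.inl (Sum.inr x)) (fun v => Sum.inr (Sum.inr v)))
    (fun l => Sum.inl (Sum.inl (e (Sum.inl l)))))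
    (Sum.elim (fun n => Sum.inl (Sum.inl (e (Sum.inr n)))) (fun n => Sum.inr (Sum.inl n)))
  invFun := Sum.elim (Sum.elim (fun i => Sum.elim (fun l => Sum.inl (Sum.inr l))
    (fun n => Sum.inr (Sum.inl n)) (e.symm i)) (fun x => Sum.inl (Sum.inl (Sum.inl x))))
    (Sum.elim (fun n => Sum.inr (Sum.inr n)) (fun v => Sum.inl (Sum.inl (Sum.inr v))))
  left_inv := by
    rintro (((x | v) | l) | (n | n)) <;> simp
  right_inv := by
    rintro ((i | x) | (n | v))
    · obtain ⟨j, rfl⟩ := e.surjective i
      rcases j with l | n <;> simp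
    · simp
    · simp
    · simp

/-- change of the sign of the border -/
lemma det_sign {m : Type} [Fintype m] [DecidableEq m] (M : Matrix m m A) (B : Matrix m L A)
    (B' : Matrix L m A) (Q : Matrix L L A) :
    (fromBlocks M (-B) B' Q).det = (fromBlocks M B (-B') Q).det := by
  have h : fromBlocks M (-B) B' Q =
      fromBlocks 1 0 0 (-1) * fromBlocks M B (-B') Q * fromBlocks 1 0 0 (-1) := by
    rw [fromBlocks_multiply, fromBlocks_multiply]
    simp
  rw [h, det_mul, det_mul, det_fromBlocks_zero₂₁, det_one, one_mul]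
  have h2 : (-1 : Matrix L L A).det * (-1 : Matrix L L A).det = 1 := by
    rw [← det_mul]
    simp
  calc (-1 : Matrix L L A).det * (fromBlocks M B (-B') Q).det * (-1 : Matrix L L A).det =
      (-1 : Matrix L L A).det * (-1 : Matrix L L A).det * (fromBlocks M B (-B') Q).det := by ring
    _ = _ := by rw [h2, one_mul]

/-- **the polynomial of a graph with a network** -/
theorem DD_net (K : Nw κ L N T) (g : T → V) (s t : E → V) (o : V) (y : κ → A) (x : E → A) :
    DD (aE K.s g s) (aE K.t g t) (Sum.inr o) (Sum.elim y x) 1 =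
      BF (MM s t o x 1) (BV E A g K.C) (K.Q y) := by
  -- the blocks
  let IL : Matrix L N A := of fun l n => inc K.s K.t (K.e (Sum.inl l)) (Sum.inl n)
  let IF : Matrix N N A := of fun f n => inc K.s K.t (K.e (Sum.inr f)) (Sum.inl n)
  let VL : Matrix L (E ⊕ V) A := of fun l => Sum.elim 0
    (fun v => ∑ k, if g k = v then inc K.s K.t (K.e (Sum.inl l)) (Sum.inr k) else 0)
  let VF : Matrix N (E ⊕ V) A := of fun f => Sum.elim 0
    (fun v => ∑ k, if g k = v then inc K.s K.t (K.e (Sum.inr f)) (Sum.inr k) else 0)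
  let R : Matrix N N A := of fun f n => (K.R f n : A)
  let PF : Matrix N L A := of fun f l => (K.P (K.e (Sum.inr f)) l : A)
  let yL : L → A := fun l => y (K.e (Sum.inl l))
  let yF : N → A := fun f => y (K.e (Sum.inr f))
  -- the forest
  have hIR : IFᵀ * R = 1 := by
    ext n n'
    have h := congrArg (Int.castRingHom A) (K.hR n n')
    rw [map_sum] at h
    rw [Matrix.mul_apply, Matrix.one_apply]
    refine Eq.trans ?_ (h.trans ?_)
    · refine Finset.sum_congr rfl fun f _ => ?_
      rw [map_mul, map_inc]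
      rfl
    · split_ifs <;> simp
  have hRI : R * IFᵀ = 1 := mul_eq_one_comm.mp hIR
  have hIR' : Rᵀ * IF = 1 := by
    have h := congrArg Matrix.transpose hIR
    rwa [transpose_mul, transpose_transpose, transpose_one] at h
  have hRI' : IF * Rᵀ = 1 := by
    have h := congrArg Matrix.transpose hRI
    rwa [transpose_mul, transpose_transpose, transpose_one] at h
  have hPF1 : ILᵀ + IFᵀ * PF = 0 := by
    ext n l
    have h := congrArg (Int.castRingHom A) (K.hK n l)
    rw [map_sum, map_zero, ← K.e.sum_comp, Fintype.sum_sum_type] at h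
    rw [Matrix.add_apply, Matrix.mul_apply, Matrix.zero_apply]
    refine Eq.trans ?_ h
    congr 1
    · rw [Finset.sum_eq_single l]
      · rw [map_mul, map_inc, K.hP, if_pos rfl, map_one, mul_one]
        rfl
      · intro l' _ hl'
        rw [K.hP, if_neg hl', mul_zero, map_zero]
      · intro hl
        exact absurd (Finset.mem_univ _) hl
    · refine Finset.sum_congr rfl fun f _ => ?_
      rw [map_mul, map_inc]
      rfl
  have hPF : PF = - (R * ILᵀ) := by
    have h := congrArg (fun X => R * X) hPF1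
    simp only [Matrix.mul_add, Matrix.mul_zero] at h
    rw [← Matrix.mul_assoc, hRI, Matrix.one_mul] at h
    exact eq_neg_of_add_eq_zero_right h
  have hPF' : PFᵀ = - (IL * Rᵀ) := by
    rw [hPF, transpose_neg, transpose_mul, transpose_transpose]
  -- the block of the forest
  let D : Matrix (N ⊕ N) (N ⊕ N) A := fromBlocks (diagonal yF) IF (-IFᵀ) 0
  let D' : Matrix (N ⊕ N) (N ⊕ N) A := fromBlocks 0 (-R) Rᵀ (Rᵀ * diagonal yF * R)
  have hDD' : D * D' = 1 := by
    simp only [D, D', fromBlocks_multiply]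
    rw [← fromBlocks_one]
    congr 1
    · simp [hRI']
    · rw [Matrix.mul_neg, Matrix.mul_assoc, ← Matrix.mul_assoc IF, hRI', Matrix.one_mul,
        neg_add_cancel]
    · simp
    · simp [hIR]
  have hinvD : Invertible D := invertibleOfRightInverse _ _ hDD'
  have hD' : ⅟D = D' := invOf_eq_right_inv hDD'
  have hdetI : IF.det * IF.det = 1 := by
    have hZ : (of fun f n => (inc K.s K.t (K.e (Sum.inr f)) (Sum.inl n) : ℤ) :
        Matrix N N ℤ).det ∣ 1 := by
      have h1 : (of fun f n => (inc K.s K.t (K.e (Sum.inr f)) (Sum.inl n) : ℤ) :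
          Matrix N N ℤ)ᵀ * K.R = 1 := by
        ext n n'
        rw [Matrix.mul_apply, Matrix.one_apply]
        exact K.hR n n'
      have h2 := congrArg Matrix.det h1
      rw [det_mul, det_transpose, det_one] at h2
      exact ⟨_, h2.symm⟩
    have h3 := Int.isUnit_iff.1 (isUnit_of_dvd_one hZ)
    have h4 : IF.det = Int.castRingHom A (of fun f n =>
        (inc K.s K.t (K.e (Sum.inr f)) (Sum.inl n) : ℤ) : Matrix N N ℤ).det := by
      rw [RingHom.map_det]
      congr 1
      ext f n
      simp only [RingHom.mapMatrix_apply, Matrix.map_apply, of_apply, IF, map_inc]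
    rw [h4, ← map_mul]
    rcases h3 with h3 | h3 <;> rw [h3] <;> simp
  have hdetD : D.det = 1 := by
    have h1 : D * fromBlocks 1 0 (Rᵀ * (1 - diagonal yF)) 1 = fromBlocks 1 IF (-IFᵀ) 0 := by
      simp only [D, fromBlocks_multiply]
      congr 1
      · rw [← Matrix.mul_assoc, hRI']
        simp
      · simp
      · simp
      · simp
    have h2 := congrArg Matrix.det h1
    rw [det_mul, det_fromBlocks_zero₁₂, det_one, mul_one, mul_one,
      det_fromBlocks_one₁₁] at h2
    rw [h2]
    simp only [Matrix.neg_mul, sub_neg_eq_add, zero_add]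
    rw [det_mul, det_transpose, hdetI]
  -- the reindexed matrix
  have hM : (MM (aE K.s g s) (aE K.t g t) (Sum.inr o) (Sum.elim y x) 1 :
      Matrix ((κ ⊕ E) ⊕ (N ⊕ V)) ((κ ⊕ E) ⊕ (N ⊕ V)) A).submatrix (psiE K.e) (psiE K.e) =
      fromBlocks (fromBlocks (MM s t o x 1) (-VLᵀ) VL (diagonal yL))
        (fromBlocks (-VFᵀ) 0 0 IL) (fromBlocks VF 0 0 (-ILᵀ)) D := by
    ext i j
    rcases i with ((e | v) | l) | (f | n) <;> rcases j with ((e' | v') | l') | (f' | n')
    · simp [psiE, MM, diagonal_apply]
    · simp [psiE, MM, inc_aE_rr]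
    · simp [psiE, MM, VL]
    · simp [psiE, MM, VF]
    · simp [psiE, MM, inc_aE_rl]
    · simp [psiE, MM, inc_aE_rr]
    · simp [psiE, MM, Matrix.single_apply]
    · simp [psiE, MM, inc_aE_lr, VL]
    · simp [psiE, MM, inc_aE_lr, VF]
    · simp [psiE, MM]
    · simp [psiE, MM, VL]
    · simp [psiE, MM, inc_aE_lr, VL]
    · simp [psiE, MM, diagonal_apply, yL]
    · simp [psiE, MM]
    · simp [psiE, MM, inc_aE_ll, IL]
    · simp [psiE, MM, VF]
    · simp [psiE, MM, inc_aE_lr, VF]
    · simp [psiE, MM]
    · simp [psiE, MM, diagonal_apply, D, yF]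
    · simp [psiE, MM, inc_aE_ll, D, IF]
    · simp [psiE, MM, inc_aE_rl]
    · simp [psiE, MM]
    · simp [psiE, MM, inc_aE_ll, IL]
    · simp [psiE, MM, inc_aE_ll, D, IF]
    · simp [psiE, MM, D]
  unfold DD
  rw [← det_submatrix_equiv_self (psiE K.e), hM, det_fromBlocks₂₂, hdetD, one_mul, hD']
  unfold BF
  rw [← det_sign]
  congr 1
  simp only [D', fromBlocks_multiply]
  rw [sub_eq_add_neg, fromBlocks_neg, fromBlocks_add]
  have hC : ∀ (k : T) (l : L), (K.C k l : A) = inc K.s K.t (K.e (Sum.inl l)) (Sum.inr k) +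
      ∑ f, inc K.s K.t (K.e (Sum.inr f)) (Sum.inr k) * PF f l := by
    intro k l
    have h : (K.C k l : A) = Int.castRingHom A (K.C k l) := rfl
    rw [h, Nw.C, of_apply, map_sum, ← K.e.sum_comp, Fintype.sum_sum_type]
    congr 1
    · rw [Finset.sum_eq_single l]
      · rw [map_mul, map_inc, K.hP, if_pos rfl, map_one, mul_one]
      · intro l' _ hl'
        rw [K.hP, if_neg hl', mul_zero, map_zero]
      · intro hl
        exact absurd (Finset.mem_univ _) hl
    · refine Finset.sum_congr rfl fun f _ => ?_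
      rw [map_mul, map_inc]
      rfl
  have hBV : BV E A g K.C = VLᵀ + VFᵀ * PF := by
    ext i l
    rw [Matrix.add_apply, Matrix.mul_apply]
    rcases i with e | v
    · simp [BV, VL, VF]
    · simp only [BV, VL, VF, of_apply, Sum.elim_inr, transpose_apply]
      simp only [Finset.sum_mul]
      rw [Finset.sum_comm, ← Finset.sum_add_distrib]
      refine Finset.sum_congr rfl fun k _ => ?_
      rw [hC]
      split_ifs
      · rfl
      · simp
  have hQ : K.Q y = diagonal yL + PFᵀ * diagonal yF * PF := by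
    ext l l'
    rw [Matrix.add_apply, Matrix.mul_apply, Nw.Q, of_apply, ← K.e.sum_comp,
      Fintype.sum_sum_type]
    congr 1
    · rw [Finset.sum_eq_single l]
      · rw [K.hP, K.hP, if_pos rfl, diagonal_apply]
        by_cases h : l = l'
        · simp [h, yL]
        · simp [h]
      · intro m _ hm
        rw [K.hP, if_neg hm]
        simp
      · intro hl
        exact absurd (Finset.mem_univ _) hl
    · refine Finset.sum_congr rfl fun f _ => ?_
      rw [mul_diagonal, transpose_apply]
      simp only [PF, of_apply, yF]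
      ring
  have hPF2 : R * ILᵀ = -PF := by rw [hPF, neg_neg]
  have hPF3 : IL * Rᵀ = -PFᵀ := by rw [hPF', neg_neg]
  congr 1
  · simp
  · rw [hBV]
    simp only [Matrix.zero_mul, Matrix.mul_zero, add_zero, zero_add, Matrix.neg_mul,
      Matrix.mul_neg, neg_neg, Matrix.mul_assoc, hPF2, neg_add]
  · rw [hBV, transpose_add, transpose_mul, transpose_transpose, transpose_transpose]
    simp only [Matrix.zero_mul, Matrix.mul_zero, add_zero, zero_add]
    rw [hPF3]
    simp
  · rw [hQ]
    simp only [Matrix.zero_mul, Matrix.mul_zero, zero_add]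
    rw [Matrix.mul_neg, neg_neg, ← Matrix.mul_assoc IL, ← Matrix.mul_assoc IL, hPF3,
      Matrix.mul_assoc, hPF2]
    simp

lemma map_BV {A' : Type} [CommRing A'] (φ : A →+* A') (g : T → V) (C : Matrix T L ℤ) :
    (BV E A g C).map φ = BV E A' g C := by
  ext i l
  rcases i with e | v
  · simp [BV]
  · simp only [BV, Matrix.map_apply, of_apply, Sum.elim_inr, map_sum]
    refine Finset.sum_congr rfl fun k _ => ?_
    split_ifs <;> simp

end

end Pool.Agent.Sym3
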