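import Pool.Agent.Sym3.Wt

/-!
# Families of hypersurfaces with parameters and four legs
-/

set_option autoImplicit false
set_option linter.unusedSectionVars false
set_option linter.unusedVariables false

open MvPolynomial
open Pool.Agent.Helper81.CP Pool.Agent.Helper81.HG Pool.Agent.Phi4

namespace Pool.Agent.Sym3

/-- a natural family of functions of parameters, four legs and other variables -/
structure Hf (κ σ : Type) where
  /-- the function -/
  F : ∀ (A : Type) [CommRing A], (κ → A) → (Fin 4 → A) → (σ → A) → A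
  nat : ∀ (A B : Type) [CommRing A] [CommRing B] (φ : A →+* B) (z : κ → A) (x : Fin 4 → A)
    (w : σ → A), φ (F A z x w) = F B (fun i => φ (z i)) (fun i => φ (x i)) (fun i => φ (w i))

/-- a natural family of functions of four legs and two parameters -/
structure Fam (σ : Type) where
  /-- the function -/
  F : ∀ (A : Type) [CommRing A], (Fin 4 → A) → (σ → A) → A → A → A
  nat : ∀ (A B : Type) [CommRing A] [CommRing B] (φ : A →+* B) (x : Fin 4 → A) (w : σ → A)
    (u v : A), φ (F A x w u v) = F B (fun i => φ (x i)) (fun i => φ (w i)) (φ u) (φ v)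

/-- equations and inequalities -/
def Cn {κ : Type} (Z U : List (MvPolynomial κ ℤ)) : Pd κ := fun _ _ x =>
  (∀ q ∈ Z, ev x q = 0) ∧ ∀ q ∈ U, IsUnit (ev x q)

variable {G : ∀ (R : Type) [CommRing R], Prop} {σ κ κ' : Type}

/-- the parameters -/
def pr {A : Type} (x : (κ ⊕ Fin 4) ⊕ σ → A) : κ → A := fun i => x (Sum.inl (Sum.inl i))

/-- the legs -/
def lg {A : Type} (x : (κ ⊕ Fin 4) ⊕ σ → A) : Fin 4 → A := fun i => x (Sum.inl (Sum.inr i))

/-- the other coordinates -/
def ot {A : Type} (x : (κ ⊕ Fin 4) ⊕ σ → A) : σ → A := fun i => x (Sum.inr i)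

/-- `H = 0` on a locally closed subset of the space of parameters -/
def Hc (H : Hf κ σ) (Z U : List (MvPolynomial κ ℤ)) : Pd ((κ ⊕ Fin 4) ⊕ σ) := fun A _ x =>
  Cn Z U A (pr x) ∧ H.F A (pr x) (lg x) (ot x) = 0

/-- two functions of the parameters -/
noncomputable def pf (F : Fam σ) (u v : MvPolynomial κ ℤ) : Hf κ σ where
  F := fun A _ z x w => F.F A x w (ev z u) (ev z v)
  nat := fun A B _ _ φ z x w => by rw [F.nat, ev_map, ev_map]

/-- a piece -/
noncomputable abbrev Pc (F : Fam σ) (Z U : List (MvPolynomial κ ℤ)) (u v : MvPolynomial κ ℤ) :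
    Pd ((κ ⊕ Fin 4) ⊕ σ) := Hc (pf F u v) Z U

/-- a polynomial in the parameters -/
noncomputable def pu (q : MvPolynomial κ ℤ) : MvPolynomial ((κ ⊕ Fin 4) ⊕ σ) ℤ :=
  rename (fun i => Sum.inl (Sum.inl i)) q

lemma ev_pu {A : Type} [CommRing A] (x : (κ ⊕ Fin 4) ⊕ σ → A) (q : MvPolynomial κ ℤ) :
    ev x (pu q) = ev (pr x) q := ev_rename _ _ _

lemma cn_map {A B : Type} [CommRing A] [CommRing B] (φ : A →+* B) {Z U : List (MvPolynomial κ ℤ)}
    {x : κ → A} (h : Cn Z U A x) : Cn Z U B (fun i => φ (x i)) := by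
  refine ⟨fun q hq => ?_, fun q hq => ?_⟩
  · rw [← ev_map, h.1 q hq, map_zero]
  · rw [← ev_map]
    exact (h.2 q hq).map φ

lemma rp_cn {τ : Type} (f : κ → τ) (Z U : List (MvPolynomial κ ℤ)) {P : Pd τ} (hP : Rp P) :
    Rp (fun A _ (x : τ → A) => Cn Z U A (fun i => x (f i)) ∧ P A x) := by
  have h := rp_cd hP (Z.map (rename f)) (U.map (rename f))
  refine h.congr fun A _ x => ?_
  simp only [Cd, Cn, List.forall_mem_map, ev_rename]
  tauto

/-- the zero set of a natural function is representable -/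
lemma rp_nat {τ : Type} (H : ∀ (A : Type) [CommRing A], (τ → A) → A)
    (nat : ∀ (A B : Type) [CommRing A] [CommRing B] (φ : A →+* B) (x : τ → A),
      φ (H A x) = H B (fun i => φ (x i))) : Rp (fun A _ x => H A x = 0) := by
  refine (rp_pt {H (MvPolynomial τ ℤ) X}).congr fun A _ x => ?_
  have h : ev x (H (MvPolynomial τ ℤ) X) = H A x := by
    rw [nat]
    congr 1
    funext i
    exact ev_X _ _
  constructor
  · intro h1
    rw [← h]
    exact h1 _ rfl
  · intro h1 q hq
    rw [Set.mem_singleton_iff.mp hq, h]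
    exact h1

lemma rp_hc (H : Hf κ σ) (Z U : List (MvPolynomial κ ℤ)) : Rp (Hc H Z U) :=
  rp_cn (fun i => Sum.inl (Sum.inl i)) Z U
    (rp_nat (fun A _ x => H.F A (pr x) (lg x) (ot x)) fun A B _ _ φ x => H.nat A B φ _ _ _)

/-- the function does not depend on the parameter `a` -/
def FrH (a : κ) (H : Hf κ σ) : Prop :=
  ∀ (A : Type) [CommRing A] (z z' : κ → A) (x : Fin 4 → A) (w : σ → A), (∀ i, i ≠ a → z' i = z i) →
    H.F A z' x w = H.F A z x w

lemma frH_pf {a : κ} {F : Fam σ} {u v : MvPolynomial κ ℤ} (hu : Frp a u) (hv : Frp a v) :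
    FrH a (pf F u v) := by
  intro A _ z z' x w h
  show F.F A x w (ev z' u) (ev z' v) = F.F A x w (ev z u) (ev z v)
  rw [hu A z z' h, hv A z z' h]

lemma gd_mono {G' : ∀ (R : Type) [CommRing R], Prop} (h : ∀ (R : Type) [CommRing R], G R → G' R)
    {τ : Type} {P : Pd τ} (hP : Gd G P) : Gd G' P := by
  obtain ⟨E, p, h1, h2⟩ := hP
  exact ⟨E, p, h1, h _ h2⟩

/-- the same points -/
lemma hc_congr {H H' : Hf κ σ} {Z U Z' U' : List (MvPolynomial κ ℤ)}
    (e : ∀ (A : Type) [CommRing A] (z : κ → A), Cn Z U A z ↔ Cn Z' U' A z)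
    (eH : ∀ (A : Type) [CommRing A] (z : κ → A) (x : Fin 4 → A) (w : σ → A), Cn Z' U' A z →
      H.F A z x w = H'.F A z x w)
    (h : Gd G (Hc H Z U)) : Gd G (Hc H' Z' U') := by
  refine h.congr fun A _ x => ?_
  unfold Hc
  constructor
  · rintro ⟨h1, h2⟩
    have h3 := (e A _).mp h1
    rw [eH A _ _ _ h3] at h2
    exact ⟨h3, h2⟩
  · rintro ⟨h1, h2⟩
    rw [← eH A _ _ _ h1] at h2
    exact ⟨(e A _).mpr h1, h2⟩

lemma pc_congr {F : Fam σ} {Z U Z' U' : List (MvPolynomial κ ℤ)} {u v u' v' : MvPolynomial κ ℤ}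
    (e : ∀ (A : Type) [CommRing A] (z : κ → A), Cn Z U A z ↔ Cn Z' U' A z)
    (eu : ∀ (A : Type) [CommRing A] (z : κ → A), Cn Z' U' A z → ev z u = ev z u' ∧ ev z v = ev z v')
    (h : Gd G (Pc F Z U u v)) : Gd G (Pc F Z' U' u' v') := by
  refine hc_congr e (fun A _ z x w hz => ?_) h
  show F.F A x w (ev z u) (ev z v) = F.F A x w (ev z u') (ev z v')
  rw [(eu A z hz).1, (eu A z hz).2]

section

variable [Finite κ] [Finite κ'] [Finite σ]

/-! ### Cutting and pasting -/

section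

variable (hG : CP0 G) {H : Hf κ σ} {Z U : List (MvPolynomial κ ℤ)}

include hG

lemma hc_glue (q : MvPolynomial κ ℤ) (h0 : Gd G (Hc H (q :: Z) U))
    (h1 : Gd G (Hc H Z (q :: U))) : Gd G (Hc H Z U) := by
  refine gd_glue hG (rp_hc H Z U) (pu q) (h0.congr fun A _ x => ?_) (h1.congr fun A _ x => ?_)
  · simp only [Hc, Cn, List.forall_mem_cons, ev_pu]
    tauto
  · simp only [Hc, Cn, List.forall_mem_cons, ev_pu]
    tauto

lemma hc_opn (q : MvPolynomial κ ℤ) (h : Gd G (Hc H Z U)) (h0 : Gd G (Hc H (q :: Z) U)) :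
    Gd G (Hc H Z (q :: U)) := by
  refine (gd_opn hG h (pu q) (h0.congr fun A _ x => ?_)).congr fun A _ x => ?_
  · simp only [Hc, Cn, List.forall_mem_cons, ev_pu]
    tauto
  · simp only [Hc, Cn, List.forall_mem_cons, ev_pu]
    tauto

lemma hc_closed (q : MvPolynomial κ ℤ) (h : Gd G (Hc H Z U))
    (h0 : Gd G (Hc H Z (q :: U))) : Gd G (Hc H (q :: Z) U) := by
  refine (gd_closed hG h (pu q) (h0.congr fun A _ x => ?_)).congr fun A _ x => ?_
  · simp only [Hc, Cn, List.forall_mem_cons, ev_pu]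
    tauto
  · simp only [Hc, Cn, List.forall_mem_cons, ev_pu]
    tauto

end

/-! ### Isomorphisms -/

/-- isomorphisms of the spaces of parameters -/
theorem hc_iso (hG : CP0 G) (H : Hf κ σ) (H' : Hf κ' σ)
    {Z U : List (MvPolynomial κ ℤ)} {Z' U' : List (MvPolynomial κ' ℤ)}
    (f : ∀ (A : Type) [CommRing A], (κ → A) → (κ' → A))
    (g : ∀ (A : Type) [CommRing A], (κ' → A) → (κ → A))
    (e : ∀ (A : Type) [CommRing A], (κ' → A) → Fin 4 → A)
    (m : ∀ (A : Type) [CommRing A], (κ' → A) → A)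
    (nf : ∀ (A B : Type) [CommRing A] [CommRing B] (φ : A →+* B) (z : κ → A), Cn Z U A z →
      ∀ j, φ (f A z j) = f B (fun i => φ (z i)) j)
    (ng : ∀ (A B : Type) [CommRing A] [CommRing B] (φ : A →+* B) (z : κ' → A), Cn Z' U' A z →
      ∀ j, φ (g A z j) = g B (fun i => φ (z i)) j)
    (ne : ∀ (A B : Type) [CommRing A] [CommRing B] (φ : A →+* B) (z : κ' → A), Cn Z' U' A z →
      ∀ j, φ (e A z j) = e B (fun i => φ (z i)) j)
    (hf : ∀ (A : Type) [CommRing A] (z : κ → A), Cn Z U A z → Cn Z' U' A (f A z))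
    (hg : ∀ (A : Type) [CommRing A] (z : κ' → A), Cn Z' U' A z → Cn Z U A (g A z))
    (gf : ∀ (A : Type) [CommRing A] (z : κ → A), Cn Z U A z → g A (f A z) = z)
    (fg : ∀ (A : Type) [CommRing A] (z : κ' → A), Cn Z' U' A z → f A (g A z) = z)
    (hm : ∀ (A : Type) [CommRing A] (z : κ' → A), Cn Z' U' A z → IsUnit (m A z))
    (hH : ∀ (A : Type) [CommRing A] (z : κ' → A) (x : Fin 4 → A) (w : σ → A), Cn Z' U' A z →
      H.F A (g A z) x w = m A z * H'.F A z (fun i => x i + e A z i) w) :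
    Gd G (Hc H Z U) ↔ Gd G (Hc H' Z' U') := by
  have n1 : ∀ (A B : Type) [CommRing A] [CommRing B] (φ : A →+* B) (x : (κ ⊕ Fin 4) ⊕ σ → A),
      Hc H Z U A x → ∀ j,
      φ ((Sum.elim (Sum.elim (f A (pr x)) (fun i => lg x i + e A (f A (pr x)) i)) (ot x) :
        (κ' ⊕ Fin 4) ⊕ σ → A) j) = (Sum.elim (Sum.elim (f B (pr fun i => φ (x i)))
        (fun i => lg (fun i => φ (x i)) i + e B (f B (pr fun i => φ (x i))) i))
        (ot fun i => φ (x i)) : (κ' ⊕ Fin 4) ⊕ σ → B) j := by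
    intro A B _ _ φ x hx j
    have h1 : (fun i => φ (f A (pr x) i)) = f B (pr fun i => φ (x i)) :=
      funext fun i => nf A B φ _ hx.1 i
    rcases j with (j | j) | j
    · exact nf A B φ _ hx.1 j
    · show φ (lg x j + e A (f A (pr x)) j) = _
      rw [map_add, ne A B φ _ (hf A _ hx.1), h1]
      rfl
    · rfl
  have n2 : ∀ (A B : Type) [CommRing A] [CommRing B] (φ : A →+* B) (x : (κ' ⊕ Fin 4) ⊕ σ → A),
      Hc H' Z' U' A x → ∀ j,
      φ ((Sum.elim (Sum.elim (g A (pr x)) (fun i => lg x i - e A (pr x) i)) (ot x) :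
        (κ ⊕ Fin 4) ⊕ σ → A) j) = (Sum.elim (Sum.elim (g B (pr fun i => φ (x i)))
        (fun i => lg (fun i => φ (x i)) i - e B (pr fun i => φ (x i)) i))
        (ot fun i => φ (x i)) : (κ ⊕ Fin 4) ⊕ σ → B) j := by
    intro A B _ _ φ x hx j
    rcases j with (j | j) | j
    · exact ng A B φ _ hx.1 j
    · show φ (lg x j - e A (pr x) j) = _
      rw [map_sub, ne A B φ _ hx.1]
      rfl
    · rfl
  have m1 : ∀ (A : Type) [CommRing A] (x : (κ ⊕ Fin 4) ⊕ σ → A), Hc H Z U A x →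
      Hc H' Z' U' A (Sum.elim (Sum.elim (f A (pr x)) (fun i => lg x i + e A (f A (pr x)) i))
        (ot x)) := by
    intro A _ x hx
    refine ⟨hf A _ hx.1, ?_⟩
    have h1 := hH A (f A (pr x)) (lg x) (ot x) (hf A _ hx.1)
    rw [gf A _ hx.1] at h1
    rw [hx.2] at h1
    exact ((hm A _ (hf A _ hx.1)).mul_right_eq_zero).mp h1.symm
  have m2 : ∀ (A : Type) [CommRing A] (x : (κ' ⊕ Fin 4) ⊕ σ → A), Hc H' Z' U' A x →
      Hc H Z U A (Sum.elim (Sum.elim (g A (pr x)) (fun i => lg x i - e A (pr x) i)) (ot x)) := by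
    intro A _ x hx
    refine ⟨hg A _ hx.1, ?_⟩
    have h1 := hH A (pr x) (fun i => lg x i - e A (pr x) i) (ot x) hx.1
    simp only [sub_add_cancel] at h1
    have h2 : H'.F A (pr x) (fun i => lg x i) (ot x) = 0 := hx.2
    rw [h2, mul_zero] at h1
    exact h1
  have i1 : ∀ (A : Type) [CommRing A] (x : (κ ⊕ Fin 4) ⊕ σ → A), Hc H Z U A x →
      (Sum.elim (Sum.elim (g A (f A (pr x))) (fun i => lg x i + e A (f A (pr x)) i -
        e A (f A (pr x)) i)) (ot x) : (κ ⊕ Fin 4) ⊕ σ → A) = x := by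
    intro A _ x hx
    funext j
    rcases j with (j | j) | j
    · exact congrFun (gf A _ hx.1) j
    · show lg x j + e A (f A (pr x)) j - e A (f A (pr x)) j = lg x j
      ring
    · rfl
  have i2 : ∀ (A : Type) [CommRing A] (x : (κ' ⊕ Fin 4) ⊕ σ → A), Hc H' Z' U' A x →
      (Sum.elim (Sum.elim (f A (g A (pr x))) (fun i => lg x i - e A (pr x) i +
        e A (f A (g A (pr x))) i)) (ot x) : (κ' ⊕ Fin 4) ⊕ σ → A) = x := by
    intro A _ x hx
    have h1 := fg A _ hx.1
    funext j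
    rcases j with (j | j) | j
    · exact congrFun h1 j
    · show lg x j - e A (pr x) j + e A (f A (g A (pr x))) j = lg x j
      rw [h1]
      ring
    · rfl
  constructor
  · exact gd_iso hG (rp_hc H' Z' U')
      (fun A _ x => Sum.elim (Sum.elim (f A (pr x)) (fun i => lg x i + e A (f A (pr x)) i)) (ot x))
      (fun A _ x => Sum.elim (Sum.elim (g A (pr x)) (fun i => lg x i - e A (pr x) i)) (ot x))
      n1 n2 m1 m2 i1 i2
  · exact gd_iso hG (rp_hc H Z U)
      (fun A _ x => Sum.elim (Sum.elim (g A (pr x)) (fun i => lg x i - e A (pr x) i)) (ot x))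
      (fun A _ x => Sum.elim (Sum.elim (f A (pr x)) (fun i => lg x i + e A (f A (pr x)) i)) (ot x))
      n2 n1 m2 m1 i2 i1

open scoped Classical in
/-- an affine change of one parameter -/
theorem hc_aff (hG : CP0 G) {H H' : Hf κ σ} {Z U Z' U' : List (MvPolynomial κ ℤ)}
    (a : κ) (p q : MvPolynomial κ ℤ) (hp : Frp a p) (hq : Frp a q)
    (hpu : ∀ (A : Type) [CommRing A] (z : κ → A), Cn Z U A z → IsUnit (ev z p))
    (hpu' : ∀ (A : Type) [CommRing A] (z : κ → A), Cn Z' U' A z → IsUnit (ev z p))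
    (hC : ∀ (A : Type) [CommRing A] (z z' : κ → A), IsUnit (ev z p) → (∀ i, i ≠ a → z' i = z i) →
      z' a = z a * ev z p + ev z q → (Cn Z U A z ↔ Cn Z' U' A z'))
    (hH : ∀ (A : Type) [CommRing A] (z z' : κ → A) (x : Fin 4 → A) (w : σ → A), Cn Z U A z →
      (∀ i, i ≠ a → z' i = z i) → z' a = z a * ev z p + ev z q →
      H.F A z x w = H'.F A z' x w) :
    Gd G (Hc H Z U) ↔ Gd G (Hc H' Z' U') := by
  have k1 : ∀ (A : Type) [CommRing A] (z : κ → A) (c : A), ev (Function.update z a c) p = ev z p :=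
    fun A _ z c => hp A z _ fun i hi => Function.update_of_ne hi _ _
  have k2 : ∀ (A : Type) [CommRing A] (z : κ → A) (c : A), ev (Function.update z a c) q = ev z q :=
    fun A _ z c => hq A z _ fun i hi => Function.update_of_ne hi _ _
  have k3 : ∀ (A : Type) [CommRing A] (z : κ → A), IsUnit (ev z p) →
      (z a - ev z q) * Ring.inverse (ev z p) * ev z p + ev z q = z a := by
    intro A _ z hz
    have := Ring.inverse_mul_cancel _ hz
    linear_combination (z a - ev z q) * this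
  have k4 : ∀ (A : Type) [CommRing A] (z : κ → A), Cn Z' U' A z →
      Cn Z U A (Function.update z a ((z a - ev z q) * Ring.inverse (ev z p))) := fun A _ z hz =>
    (hC A (Function.update z a ((z a - ev z q) * Ring.inverse (ev z p))) z
      (by rw [k1]; exact hpu' A z hz) (fun i hi => (Function.update_of_ne hi _ _).symm)
      (by rw [Function.update_self, k1, k2]; exact (k3 A z (hpu' A z hz)).symm)).mpr hz
  have k5 : ∀ (A : Type) [CommRing A] (z : κ → A), Cn Z U A z →
      Cn Z' U' A (Function.update z a (z a * ev z p + ev z q)) := fun A _ z hz =>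
    (hC A z (Function.update z a (z a * ev z p + ev z q)) (hpu A z hz)
      (fun i hi => Function.update_of_ne hi _ _) (Function.update_self _ _ _)).mp hz
  refine hc_iso hG H H'
    (fun A _ z => Function.update z a (z a * ev z p + ev z q))
    (fun A _ z => Function.update z a ((z a - ev z q) * Ring.inverse (ev z p)))
    (fun A _ _ _ => 0) (fun A _ _ => 1) ?_ ?_ (fun _ _ _ _ φ _ _ _ => map_zero φ) k5 k4 ?_ ?_
    (fun _ _ _ _ => isUnit_one) ?_
  · intro A B _ _ φ z hz j
    simp only [Function.update_apply]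
    split_ifs
    · rw [map_add, map_mul, ev_map, ev_map]
    · rfl
  · intro A B _ _ φ z hz j
    simp only [Function.update_apply]
    split_ifs
    · rw [map_mul, map_sub, map_inv_of_unit φ (hpu' A z hz), ev_map, ev_map]
    · rfl
  · intro A _ z hz
    funext i
    by_cases hi : i = a
    · subst hi
      rw [Function.update_self, Function.update_self, k1, k2]
      have := Ring.mul_inverse_cancel _ (hpu A z hz)
      linear_combination z i * this
    · rw [Function.update_of_ne hi, Function.update_of_ne hi]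
  · intro A _ z hz
    funext i
    by_cases hi : i = a
    · subst hi
      rw [Function.update_self, Function.update_self, k1, k2]
      exact k3 A z (hpu' A z hz)
    · rw [Function.update_of_ne hi, Function.update_of_ne hi]
  · intro A _ z x w hz
    rw [one_mul]
    simp only [add_zero]
    exact hH A (Function.update z a ((z a - ev z q) * Ring.inverse (ev z p))) z x w (k4 A z hz)
      (fun i hi => (Function.update_of_ne hi _ _).symm)
      (by rw [Function.update_self, k1, k2]; exact (k3 A z (hpu' A z hz)).symm)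

/-- an affine change of one parameter of a piece -/
theorem pc_aff (hG : CP0 G) {F : Fam σ} {Z U Z' U' : List (MvPolynomial κ ℤ)}
    {u v u' v' : MvPolynomial κ ℤ} (a : κ) (p q : MvPolynomial κ ℤ) (hp : Frp a p) (hq : Frp a q)
    (hpu : ∀ (A : Type) [CommRing A] (z : κ → A), Cn Z U A z → IsUnit (ev z p))
    (hpu' : ∀ (A : Type) [CommRing A] (z : κ → A), Cn Z' U' A z → IsUnit (ev z p))
    (hC : ∀ (A : Type) [CommRing A] (z z' : κ → A), IsUnit (ev z p) → (∀ i, i ≠ a → z' i = z i) →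
      z' a = z a * ev z p + ev z q → (Cn Z U A z ↔ Cn Z' U' A z') ∧ (Cn Z U A z →
        ev z u = ev z' u' ∧ ev z v = ev z' v')) :
    Gd G (Pc F Z U u v) ↔ Gd G (Pc F Z' U' u' v') := by
  refine hc_aff hG a p q hp hq hpu hpu' (fun A _ z z' h1 h2 h3 => (hC A z z' h1 h2 h3).1)
    fun A _ z z' x w hz h2 h3 => ?_
  have h4 := (hC A z z' (hpu A z hz) h2 h3).2 hz
  show F.F A x w (ev z u) (ev z v) = F.F A x w (ev z' u') (ev z' v')
  rw [h4.1, h4.2]

/-! ### Free parameters -/

section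

variable (hG : RG G) {H : Hf κ σ} {F : Fam σ} {Z U : List (MvPolynomial κ ℤ)}
  {u v : MvPolynomial κ ℤ}

include hG

/-- more parameters -/
lemma hc_ext (k : κ → κ') (hk : Function.Injective k) {H' : Hf κ' σ}
    (hH : ∀ (A : Type) [CommRing A] (z : κ' → A) (x : Fin 4 → A) (w : σ → A),
      H'.F A z x w = H.F A (fun i => z (k i)) x w) (h : Gd G (Hc H Z U)) :
    Gd G (Hc H' (Z.map (rename k)) (U.map (rename k))) := by
  let k' : (κ ⊕ Fin 4) ⊕ σ → (κ' ⊕ Fin 4) ⊕ σ := Sum.map (Sum.map k id) id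
  have hk' : Function.Injective k' := (hk.sumMap Function.injective_id).sumMap Function.injective_id
  refine (Gd.ext hG k' hk' h).congr fun A _ x => ?_
  simp only [Hc, Cn, List.forall_mem_map, ev_rename, hH]
  rfl

/-- fewer parameters -/
lemma hc_unext (k : κ → κ') (hk : Function.Injective k) {H' : Hf κ' σ}
    (hH : ∀ (A : Type) [CommRing A] (z : κ' → A) (x : Fin 4 → A) (w : σ → A),
      H'.F A z x w = H.F A (fun i => z (k i)) x w)
    (h : Gd G (Hc H' (Z.map (rename k)) (U.map (rename k)))) : Gd G (Hc H Z U) := by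
  let k' : (κ ⊕ Fin 4) ⊕ σ → (κ' ⊕ Fin 4) ⊕ σ := Sum.map (Sum.map k id) id
  have hk' : Function.Injective k' := (hk.sumMap Function.injective_id).sumMap Function.injective_id
  refine Gd.unext hG k' hk' (rp_hc H Z U) (h.congr fun A _ x => ?_)
  simp only [Hc, Cn, List.forall_mem_map, ev_rename, hH]
  rfl

/-- more parameters -/
lemma pc_ext (k : κ → κ') (hk : Function.Injective k) (h : Gd G (Pc F Z U u v)) :
    Gd G (Pc F (Z.map (rename k)) (U.map (rename k)) (rename k u) (rename k v)) :=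
  hc_ext hG k hk (fun A _ z x w => by
    show F.F A x w (ev z (rename k u)) (ev z (rename k v)) = _
    rw [ev_rename, ev_rename]
    rfl) h

/-- fewer parameters -/
lemma pc_unext (k : κ → κ') (hk : Function.Injective k)
    (h : Gd G (Pc F (Z.map (rename k)) (U.map (rename k)) (rename k u) (rename k v))) :
    Gd G (Pc F Z U u v) :=
  hc_unext hG k hk (fun A _ z x w => by
    show F.F A x w (ev z (rename k u)) (ev z (rename k v)) = _
    rw [ev_rename, ev_rename]
    rfl) h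

omit hG [Finite κ] [Finite κ'] [Finite σ] in
lemma fr_hc {a : κ} (hZ : ∀ q ∈ Z, Frp a q) (hU : ∀ q ∈ U, Frp a q) (hH : FrH a H) :
    Fr (Sum.inl (Sum.inl a)) (Hc H Z U) := by
  intro A _ x y h hx
  have h1 : ∀ i, i ≠ a → pr y i = pr x i := fun i hi => h _ (by simpa using hi)
  have h2 : lg y = lg x := funext fun i => h _ (by simp)
  have h3 : ot y = ot x := funext fun i => h _ (by simp)
  refine ⟨⟨fun q hq => ?_, fun q hq => ?_⟩, ?_⟩
  · rw [hZ q hq A (pr x) (pr y) h1]
    exact hx.1.1 q hq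
  · rw [hU q hq A (pr x) (pr y) h1]
    exact hx.1.2 q hq
  · rw [h2, h3, hH A (pr x) (pr y) (lg x) (ot x) h1]
    exact hx.2

omit hG [Finite κ] [Finite κ'] [Finite σ] in
lemma frp_pu {a : κ} {q : MvPolynomial κ ℤ} (hq : Frp a q) :
    Frp (Sum.inl (Sum.inl a) : (κ ⊕ Fin 4) ⊕ σ) (pu q) := by
  intro A _ x y h
  rw [ev_pu, ev_pu]
  exact hq A _ _ fun i hi => h _ (by simpa using hi)

/-- a free invertible parameter -/
lemma hc_gm (a : κ) (hZ : ∀ q ∈ Z, Frp a q) (hU : ∀ q ∈ U, Frp a q) (hH : FrH a H)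
    (h : Gd G (Hc H Z U)) : Gd G (Hc H Z (X a :: U)) := by
  refine (Gd.gm hG h (Sum.inl (Sum.inl a)) (fr_hc hZ hU hH)).congr fun A _ x => ?_
  simp only [Hc, Cn, List.forall_mem_cons, ev_X]
  show _ ∧ IsUnit (pr x a) ↔ _
  tauto

/-- a free invertible parameter -/
lemma hc_ungm (a : κ) (hZ : ∀ q ∈ Z, Frp a q) (hU : ∀ q ∈ U, Frp a q) (hH : FrH a H)
    (h : Gd G (Hc H Z (X a :: U))) : Gd G (Hc H Z U) := by
  refine Gd.ungm hG h (rp_hc H Z U) (Sum.inl (Sum.inl a)) (fr_hc hZ hU hH)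
    fun A _ x => ?_
  simp only [Hc, Cn, List.forall_mem_cons, ev_X]
  show _ ↔ _ ∧ IsUnit (pr x a)
  tauto

/-- an equation that determines a parameter -/
lemma hc_solve (a : κ) (p q : MvPolynomial κ ℤ) (hZ : ∀ q ∈ Z, Frp a q) (hU : ∀ q ∈ U, Frp a q)
    (hH : FrH a H) (hp : Frp a p) (hq : Frp a q)
    (hun : ∀ (A : Type) [CommRing A] (z : κ → A), Cn Z U A z → IsUnit (ev z p))
    (h : Gd G (Hc H Z U)) : Gd G (Hc H ((X a * p + q) :: Z) U) := by
  refine Gd.solve hG h (Sum.inl (Sum.inl a)) (fr_hc hZ hU hH) (pu p) (pu q) (frp_pu hp)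
    (frp_pu hq) (fun A _ x hx => by rw [ev_pu]; exact hun A _ hx.1) fun A _ x => ?_
  simp only [Hc, Cn, List.forall_mem_cons, map_add, map_mul, ev_X, ev_pu]
  show _ ↔ _ ∧ pr x a * _ + _ = 0
  tauto

/-- an equation that determines a parameter -/
lemma hc_unsolve (a : κ) (p q : MvPolynomial κ ℤ) (hZ : ∀ q ∈ Z, Frp a q) (hU : ∀ q ∈ U, Frp a q)
    (hH : FrH a H) (hp : Frp a p) (hq : Frp a q)
    (hun : ∀ (A : Type) [CommRing A] (z : κ → A), Cn Z U A z → IsUnit (ev z p))
    (h : Gd G (Hc H ((X a * p + q) :: Z) U)) : Gd G (Hc H Z U) := by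
  refine Gd.unsolve hG h (rp_hc H Z U) (Sum.inl (Sum.inl a)) (fr_hc hZ hU hH) (pu p) (pu q)
    (frp_pu hp) (frp_pu hq) (fun A _ x hx => by rw [ev_pu]; exact hun A _ hx.1) fun A _ x => ?_
  simp only [Hc, Cn, List.forall_mem_cons, map_add, map_mul, ev_X, ev_pu]
  show _ ↔ _ ∧ pr x a * _ + _ = 0
  tauto

/-- a parameter is zero -/
lemma hc_zero (a : κ) (hZ : ∀ q ∈ Z, Frp a q) (hU : ∀ q ∈ U, Frp a q) (hH : FrH a H)
    (h : Gd G (Hc H Z U)) : Gd G (Hc H (X a :: Z) U) := by
  have h1 := hc_solve hG a 1 0 hZ hU hH (by simp) (by simp) (fun A _ z _ => by simp) h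
  rwa [mul_one, add_zero] at h1

/-- a parameter is zero -/
lemma hc_unzero (a : κ) (hZ : ∀ q ∈ Z, Frp a q) (hU : ∀ q ∈ U, Frp a q) (hH : FrH a H)
    (h : Gd G (Hc H (X a :: Z) U)) : Gd G (Hc H Z U) := by
  refine hc_unsolve hG a 1 0 hZ hU hH (by simp) (by simp) (fun A _ z _ => by simp) ?_
  rwa [mul_one, add_zero]

end

end

end Pool.Agent.Sym3
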