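import Pool.Agent.Sym3.Pc
import Pool.Agent.Sym3.EvB
import Pool.Agent.Sym3.IndB

/-!
# Products with simple factors, the graphs H, the plane
-/

set_option autoImplicit false
set_option linter.unusedSectionVars false
set_option linter.unusedVariables false

open Matrix MvPolynomial
open Pool.Agent.Helper81.CP Pool.Agent.Helper81.HG Pool.Agent.Phi4

namespace Pool.Agent.Sym3

section

variable {E V : Type} [DecidableEq V] [DecidableEq E] [Fintype E] [Fintype V]

/-- the family of a graph with four terminals -/
def fam (s t : E → V) (o : V) (g : Fin 4 → V) : Fam E where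
  F := fun A _ x w u v => FR s t o g x w u v
  nat := fun A B _ _ φ x w u v => map_FR φ s t o g x w u v

lemma map_NF {κ L N A A' : Type} [CommRing A] [CommRing A'] [DecidableEq κ] [Fintype κ]
    [DecidableEq N] [Fintype N] [DecidableEq L] (K : Nw κ L N (Fin 4)) (s t : E → V) (o : V)
    (g : Fin 4 → V) (φ : A →+* A') (y : κ → A) (w : E → A) :
    φ (NF K s t o g y w) = NF K s t o g (fun i => φ (y i)) (fun i => φ (w i)) := by
  unfold NF
  rw [map_DD]
  congr 1
  · funext i
    rcases i with i | i <;> rfl
  · funext i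
    exact map_one φ

/-- the family of a network -/
def hN {κ L N : Type} [DecidableEq κ] [Fintype κ] [DecidableEq N] [Fintype N] [DecidableEq L]
    (K : Nw (κ ⊕ Fin 4) L N (Fin 4)) (s t : E → V) (o : V) (g : Fin 4 → V) : Hf κ E where
  F := fun A _ z x w => NF K s t o g (Sum.elim z x) w
  nat := fun A B _ _ φ z x w => by
    rw [map_NF]
    congr 1
    funext i
    rcases i with i | i <;> rfl

lemma hN_F {κ L N : Type} [DecidableEq κ] [Fintype κ] [DecidableEq N] [Fintype N] [DecidableEq L]
    (K : Nw (κ ⊕ Fin 4) L N (Fin 4)) (s t : E → V) (o : V) (g : Fin 4 → V) (A : Type) [CommRing A]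
    (z : κ → A) (x : Fin 4 → A) (w : E → A) :
    (hN K s t o g).F A z x w = NF K s t o g (Sum.elim z x) w := rfl

lemma pf_F {κ σ : Type} (F : Fam σ) (u v : MvPolynomial κ ℤ) (A : Type) [CommRing A] (z : κ → A)
    (x : Fin 4 → A) (w : σ → A) : (pf F u v).F A z x w = F.F A x w (ev z u) (ev z v) := rfl

lemma fam_F (s t : E → V) (o : V) (g : Fin 4 → V) (A : Type) [CommRing A] (x : Fin 4 → A)
    (w : E → A) (u v : A) : (fam s t o g).F A x w u v = FR s t o g x w u v := rfl

variable {G : ∀ (R : Type) [CommRing R], Prop}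

lemma gd_hN {κ L N : Type} [DecidableEq κ] [Fintype κ] [DecidableEq N] [Fintype N] [DecidableEq L]
    {K : Nw (κ ⊕ Fin 4) L N (Fin 4)} {s t : E → V} {o : V} {g : Fin 4 → V}
    (h : Gd G (NP K s t o g)) : Gd G (Hc (hN K s t o g) [] []) := by
  refine h.congr fun A _ x => ?_
  unfold NP Hc Cn hN
  simp only [List.not_mem_nil, false_implies, implies_true, true_and]
  have : (Sum.elim (pr x) (lg x) : κ ⊕ Fin 4 → A) = fun i => x (Sum.inl i) := by
    funext i
    rcases i with i | i <;> rfl
  rw [this]
  rfl

lemma gd_NP {κ L N : Type} [DecidableEq κ] [Fintype κ] [DecidableEq N] [Fintype N] [DecidableEq L]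
    {K : Nw (κ ⊕ Fin 4) L N (Fin 4)} {s t : E → V} {o : V} {g : Fin 4 → V}
    (h : Gd G (Hc (hN K s t o g) [] [])) : Gd G (NP K s t o g) := by
  refine h.congr fun A _ x => ?_
  unfold NP Hc Cn hN
  simp only [List.not_mem_nil, false_implies, implies_true, true_and]
  have : (Sum.elim (pr x) (lg x) : κ ⊕ Fin 4 → A) = fun i => x (Sum.inl i) := by
    funext i
    rcases i with i | i <;> rfl
  rw [this]
  rfl

end

/-- the plane and three lines -/
structure Bs (G : ∀ (R : Type) [CommRing R], Prop) {σ : Type} (F : Fam σ) : Prop where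
  ph : ∀ {k : ℕ} (i j : Fin k), i ≠ j → Gd G (Pc F [] [] (X i) (X j))
  hu : ∀ {k : ℕ} (i : Fin k), Gd G (Pc F [] [] (X i) 0)
  hv : ∀ {k : ℕ} (i : Fin k), Gd G (Pc F [] [] 0 (X i))
  hw : ∀ {k : ℕ} (i : Fin k), Gd G (Pc F [] [] (X i) (X i))

section

variable {G : ∀ (R : Type) [CommRing R], Prop} (hG : RG G) {σ : Type} [Finite σ] {F : Fam σ}

include hG

lemma ph_of (h : Gd G (Pc F [] [] (X 0) (X 1 : MvPolynomial (Fin 2) ℤ))) {k : ℕ} (i j : Fin k)
    (hij : i ≠ j) : Gd G (Pc F [] [] (X i) (X j)) := by
  have h1 := pc_ext hG (κ' := Fin k) ![i, j] (by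
    intro a b hab
    fin_cases a <;> fin_cases b <;> simp_all) h
  simpa using h1

lemma line_of (u v : MvPolynomial (Fin 1) ℤ) (h : Gd G (Pc F [] [] u v)) {k : ℕ} (i : Fin k) :
    Gd G (Pc F [] [] (rename (fun _ => i) u) (rename (fun _ => i) v)) :=
  pc_ext hG (κ' := Fin k) (fun _ => i) (fun a b _ => Subsingleton.elim a b) h

end

/-! ### Descent along the line without two points -/

section

variable {G : ∀ (R : Type) [CommRing R], Prop} (hG : RG G) (hW : WT G) {τ : Type} [Finite τ]

include hG hW

omit hG hW [Finite τ] in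
lemma ev_int {A : Type} [CommRing A] (x : τ → A) (c : ℤ) : ev x (C c) = (c : A) :=
  eq_intCast ((ev x).comp (C : ℤ →+* MvPolynomial τ ℤ)) c

/-- descent along the line without `0` and `-1` -/
theorem gd_two {P : Pd τ} (hP : Rp P)
    (h : Gd G (fun A _ (x : Option τ → A) => P A (fun i => x (some i)) ∧ IsUnit (x none) ∧
      IsUnit (1 + x none))) : Gd G P := by
  refine gd_wt hG hW hP fun G' hG' hle h1 => ?_
  have hR : Rp (fun A _ (x : Option (Option τ) → A) => P A (fun i => x (some (some i)))) :=
    rp_ext (fun i => some (some i)) hP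
  -- the part over a point
  have hpt : ∀ c : ℤ, Gd G' (fun A _ (x : Option (Option τ) → A) =>
      P A (fun i => x (some (some i))) ∧ ev x (X none - C c) = 0) := by
    intro c
    refine gd_iso hG' (hR.zero _)
      (fun A _ x => fun o => o.elim (c : A) (fun o' => x o'))
      (fun A _ y => fun o => y (some o)) ?_ ?_ ?_ ?_ ?_ ?_ h1
    · intro A B _ _ φ x _ j
      rcases j with _ | j
      · simp
      · rfl
    · intro A B _ _ φ y _ i
      rfl
    · intro A _ x hx
      refine ⟨hx, ?_⟩
      rw [map_sub, ev_X, ev_int]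
      exact sub_self _
    · intro A _ y hy
      exact hy.1
    · intro A _ x hx
      rfl
    · intro A _ y hy
      have h2 := hy.2
      rw [map_sub, ev_X] at h2
      have h3 : ev y (C c) = (c : A) := ev_int _ _
      funext o
      rcases o with _ | o
      · rw [h3, sub_eq_zero] at h2
        exact h2.symm
      · rfl
  refine gd_glue hG' hR (X none) ?_ ?_
  · refine (hpt 0).congr fun A _ x => ?_
    simp
  · refine gd_glue hG' (hR.unit (X none)) (1 + X none) ?_ ?_
    · refine (hpt (-1)).congr fun A _ x => ?_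
      simp only [map_sub, ev_X, map_add, map_one, map_neg]
      constructor
      · rintro ⟨h2, h3⟩
        have h4 : 1 + x none = 0 := by linear_combination h3
        refine ⟨⟨h2, ?_⟩, h4⟩
        have : x none = -1 := by linear_combination h4
        rw [this]
        exact isUnit_one.neg
      · rintro ⟨⟨h2, _⟩, h3⟩
        exact ⟨h2, by linear_combination h3⟩
    · let k : Option τ → Option (Option τ) := fun o => o.elim none (fun i => some (some i))
      have hk : Function.Injective k := by
        rintro (_ | a) (_ | b) hab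
        · rfl
        · simp [k] at hab
        · simp [k] at hab
        · simpa [k] using hab
      have h2 := Gd.ext hG k hk h
      refine (gd_mono hle h2).congr fun A _ x => ?_
      simp only [map_add, map_one, ev_X]
      show P A _ ∧ IsUnit (x none) ∧ IsUnit (1 + x none) ↔ _
      tauto

end

end Pool.Agent.Sym3
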