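import Pool.Agent.Sym3.StA

/-!
# The graphs H and the plane
-/

set_option autoImplicit false
set_option linter.unusedSectionVars false
set_option linter.unusedVariables false

open Matrix MvPolynomial
open Pool.Agent.Helper81.CP Pool.Agent.Helper81.HG Pool.Agent.Phi4

namespace Pool.Agent.Sym3

lemma vec4 {A : Type} [CommRing A] (x : Fin 4 → A) (a b c d : A) :
    (fun i => x i + ![a, b, c, d] i) = ![x 0 + a, x 1 + b, x 2 + c, x 3 + d] := by
  funext i
  fin_cases i <;> rfl

lemma vec4_map {A B : Type} [CommRing A] [CommRing B] (φ : A →+* B) (a b c d : A) (j : Fin 4) :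
    φ (![a, b, c, d] j) = ![φ a, φ b, φ c, φ d] j := by
  fin_cases j <;> rfl

section

variable {G : ∀ (R : Type) [CommRing R], Prop} (hG : RG G) {E V : Type} [DecidableEq V]
  [DecidableEq E] [Fintype E] [Fintype V] {n : ℕ} (hI : IH3 G n) (s t : E → V) (o : V)
  (g : Fin 4 → V) (hl : ∀ e, s e ≠ t e) (hd : D4 s t g) (hx : exl s t g < n)

include hG hI hl hd hx

lemma st_hu {k : ℕ} (i : Fin k) : Gd G (Pc (fam s t o g) [] [] (X i) 0) := by
  have h0 := gd_hN (gd_np hI Kha (by decide) (by decide) (by decide) (by decide) s t o g hl hd hx)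
  have h1 : Gd G (Pc (fam s t o g) [] [] (X 0) (0 : MvPolynomial (Fin 1) ℤ)) := by
    refine (hc_iso hG.cp0 (hN Kha s t o g) (pf (fam s t o g) (X 0) 0) (fun A _ z => z)
      (fun A _ z => z) (fun A _ z => ![0, 0, z 0, z 0]) (fun A _ _ => 1) ?_ ?_ ?_ ?_ ?_ ?_ ?_ ?_
      ?_).mp h0
    · intro A B _ _ φ z _ j; rfl
    · intro A B _ _ φ z _ j; rfl
    · intro A B _ _ φ z _ j
      rw [vec4_map, map_zero]
    · intro A _ z hz; exact hz
    · intro A _ z hz; exact hz
    · intro A _ z _; rfl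
    · intro A _ z _; rfl
    · intro A _ z _; exact isUnit_one
    · intro A _ z x w _
      rw [hN_F, pf_F, fam_F, NF_ha, one_mul, vec4, add_zero, add_zero, ev_X, map_zero]
  have h2 := line_of hG _ _ h1 i
  simpa using h2

lemma st_hv {k : ℕ} (i : Fin k) : Gd G (Pc (fam s t o g) [] [] 0 (X i)) := by
  have h0 := gd_hN (gd_np hI Khb (by decide) (by decide) (by decide) (by decide) s t o g hl hd hx)
  have h1 : Gd G (Pc (fam s t o g) [] [] (0 : MvPolynomial (Fin 1) ℤ) (X 0)) := by
    refine (hc_iso hG.cp0 (hN Khb s t o g) (pf (fam s t o g) 0 (X 0)) (fun A _ z => z)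
      (fun A _ z => z) (fun A _ z => ![0, z 0, z 0, 0]) (fun A _ _ => 1) ?_ ?_ ?_ ?_ ?_ ?_ ?_ ?_
      ?_).mp h0
    · intro A B _ _ φ z _ j; rfl
    · intro A B _ _ φ z _ j; rfl
    · intro A B _ _ φ z _ j
      rw [vec4_map, map_zero]
    · intro A _ z hz; exact hz
    · intro A _ z hz; exact hz
    · intro A _ z _; rfl
    · intro A _ z _; rfl
    · intro A _ z _; exact isUnit_one
    · intro A _ z x w _
      rw [hN_F, pf_F, fam_F, NF_hb, one_mul, vec4, add_zero, add_zero, ev_X, map_zero]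
  have h2 := line_of hG _ _ h1 i
  simpa using h2

lemma st_hw {k : ℕ} (i : Fin k) : Gd G (Pc (fam s t o g) [] [] (X i) (X i)) := by
  have h0 := gd_hN (gd_np hI Khc (by decide) (by decide) (by decide) (by decide) s t o g hl hd hx)
  have h1 : Gd G (Pc (fam s t o g) [] [] (X 0) (X 0 : MvPolynomial (Fin 1) ℤ)) := by
    refine (hc_iso hG.cp0 (hN Khc s t o g) (pf (fam s t o g) (X 0) (X 0))
      (fun A _ z => fun i => - z i)
      (fun A _ z => fun i => - z i) (fun A _ z => ![- z 0, 0, z 0, 0]) (fun A _ _ => 1)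
      ?_ ?_ ?_ ?_ ?_ ?_ ?_ ?_ ?_).mp h0
    · intro A B _ _ φ z _ j; exact map_neg φ _
    · intro A B _ _ φ z _ j; exact map_neg φ _
    · intro A B _ _ φ z _ j
      rw [vec4_map, map_zero, map_neg]
    · intro A _ z hz; simp [Cn]
    · intro A _ z hz; simp [Cn]
    · intro A _ z _; simp
    · intro A _ z _; simp
    · intro A _ z _; exact isUnit_one
    · intro A _ z x w _
      rw [hN_F, pf_F, fam_F, NF_hc, one_mul, vec4, add_zero, add_zero, ev_X, neg_neg, sub_neg_eq_add]
  have h2 := line_of hG _ _ h1 i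
  simpa using h2

end

end Pool.Agent.Sym3
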