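import Pool.Agent.Sym3.StB
import Pool.Agent.KB.Ind

/-!
# The plane
-/

set_option autoImplicit false
set_option linter.unusedSectionVars false
set_option linter.unusedVariables false

open Matrix MvPolynomial
open Pool.Agent.Helper81.CP Pool.Agent.Helper81.HG Pool.Agent.Phi4
open Pool.Agent.KB (gs_affine)

namespace Pool.Agent.Sym3

section

variable {G : ∀ (R : Type) [CommRing R], Prop} {κ σ : Type}

lemma hc_mul {H H' : Hf κ σ} {Z U Z' U' : List (MvPolynomial κ ℤ)}
    (e : ∀ (A : Type) [CommRing A] (z : κ → A), Cn Z' U' A z ↔ Cn Z U A z)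
    (m : ∀ (A : Type) [CommRing A], (κ → A) → A)
    (hm : ∀ (A : Type) [CommRing A] (z : κ → A), Cn Z U A z → IsUnit (m A z))
    (eH : ∀ (A : Type) [CommRing A] (z : κ → A) (x : Fin 4 → A) (w : σ → A), Cn Z U A z →
      H.F A z x w = m A z * H'.F A z x w)
    (h : Gd G (Hc H' Z' U')) : Gd G (Hc H Z U) := by
  refine h.congr fun A _ x => ?_
  unfold Hc
  constructor
  · rintro ⟨h1, h2⟩
    have h3 := (e A _).mp h1
    refine ⟨h3, ?_⟩
    rw [eH A _ _ _ h3, h2, mul_zero]
  · rintro ⟨h1, h2⟩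
    rw [eH A _ _ _ h1] at h2
    exact ⟨(e A _).mpr h1, ((hm A _ h1).mul_right_eq_zero).mp h2⟩

/-- the zero function -/
def hZ (κ σ : Type) : Hf κ σ where
  F := fun A _ _ _ _ => 0
  nat := fun A B _ _ φ _ _ _ => map_zero φ

lemma gd_hZ (hG : RG G) (hpt : GS G (∅ : Set (MvPolynomial Empty ℤ))) [Finite κ] [Finite σ] :
    Gd G (Hc (hZ κ σ) [] []) := by
  refine (Gd.of_gs hG (gs_affine hG hpt ((κ ⊕ Fin 4) ⊕ σ))).congr fun A _ x => ?_
  simp only [Hc, hZ, Cn, List.not_mem_nil, false_implies, implies_true, and_true, iff_true]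
  intro q hq
  exact absurd hq (Set.notMem_empty q)

lemma frH_hZ (a : κ) : FrH a (hZ κ σ) := fun _ _ _ _ _ _ _ => rfl

end

lemma cn_nil {κ A : Type} [CommRing A] (z : κ → A) : Cn [] [] A z := by simp [Cn]

section

variable {G : ∀ (R : Type) [CommRing R], Prop} (hG : RG G) (hW : WT G)
  (hpt : GS G (∅ : Set (MvPolynomial Empty ℤ))) {E V : Type} [DecidableEq V]
  [DecidableEq E] [Fintype E] [Fintype V] {n : ℕ} (hI : IH3 G n) (s t : E → V) (o : V)
  (g : Fin 4 → V) (hl : ∀ e, s e ≠ t e) (hd : D4 s t g) (hx : exl s t g < n)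

include hG hI hl hd hx

lemma gd_ring : Gd G (Hc (hN Kring s t o g) [] []) :=
  gd_hN (gd_np hI Kring (by decide) (by decide) (by decide) (by decide) s t o g hl hd hx)

lemma gd_ntwo : Gd G (Hc (hN Kntwo s t o g) [] []) :=
  gd_hN (gd_np hI Kntwo (by decide) (by decide) (by decide) (by decide) s t o g hl hd hx)

/-- the ring as a family with seven parameters -/
def hR7 {E V : Type} [DecidableEq V] [DecidableEq E] [Fintype E] [Fintype V] (s t : E → V) (o : V)
    (g : Fin 4 → V) : Hf (Fin 7) E where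
  F := fun A _ z x w => NF Kring s t o g (Sum.elim ![z 0, z 1, z 2, z 3] x) w
  nat := fun A B _ _ φ z x w => by
    rw [map_NF]
    congr 1
    funext i
    rcases i with i | i
    · fin_cases i <;> rfl
    · rfl

/-- the triangle as a family with seven parameters -/
def hT7 {E V : Type} [DecidableEq V] [DecidableEq E] [Fintype E] [Fintype V] (s t : E → V) (o : V)
    (g : Fin 4 → V) : Hf (Fin 7) E where
  F := fun A _ z x w => NF Ktri s t o g (Sum.elim ![z 0, z 1, z 3] ![x 0, x 1, x 3]) w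
  nat := fun A B _ _ φ z x w => by
    rw [map_NF]
    congr 1
    funext i
    rcases i with i | i
    · fin_cases i <;> rfl
    · fin_cases i <;> rfl

/-- the triangle as a family with seven parameters -/
def hT7' {E V : Type} [DecidableEq V] [DecidableEq E] [Fintype E] [Fintype V] (s t : E → V) (o : V)
    (g : Fin 4 → V) : Hf (Fin 7) E where
  F := fun A _ z x w => NF Ktri s t o g (Sum.elim ![z 0, z 1 + z 2, z 3] ![x 0, x 1, x 3]) w
  nat := fun A B _ _ φ z x w => by
    rw [map_NF]
    congr 1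
    funext i
    rcases i with i | i
    · fin_cases i
      · rfl
      · exact map_add φ _ _
      · rfl
    · fin_cases i <;> rfl

lemma gd_hT7 : Gd G (Hc (hT7 s t o g) [] []) := by
  have h0 := gd_np hI Ktri (by decide) (by decide) (by decide) (by decide) s t o g hl hd hx
  let k : (Fin 3 ⊕ Fin 3) ⊕ E → (Fin 7 ⊕ Fin 4) ⊕ E := Sum.map (Sum.map ![0, 1, 3] ![0, 1, 3]) id
  have hk : Function.Injective k := by
    refine Function.Injective.sumMap (Function.Injective.sumMap ?_ ?_) Function.injective_id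
    · decide
    · decide
  refine (Gd.ext hG k hk h0).congr fun A _ x => ?_
  unfold NP Hc hT7
  simp only [cn_nil, true_and]
  have e1 : (fun i => x (k (Sum.inl i))) = Sum.elim ![pr x 0, pr x 1, pr x 3]
      ![lg x 0, lg x 1, lg x 3] := by
    funext i
    rcases i with i | i <;> fin_cases i <;> rfl
  rw [e1]
  rfl

lemma gd_hT7' : Gd G (Hc (hT7' s t o g) [] []) := by
  refine (hc_aff hG.cp0 (H' := hT7 s t o g) (Z' := []) (U' := []) 1 1 (X 2) (by simp)
    (by simp) (by simp) (by simp) (by simp [Cn]) ?_).mpr (gd_hT7 hG hI s t o g hl hd hx)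
  intro A _ z z' x w _ h1 h2
  have e0 := h1 0 (by decide)
  have e3 := h1 3 (by decide)
  simp only [map_one, mul_one, ev_X] at h2
  unfold hT7 hT7'
  simp only [e0, e3, h2]

/-! ### The ring with a triangle: the triangle is a star -/

lemma gd_ntwo_unit : Gd G (Hc (hN Kntwo s t o g) [] [X 4 + X 5 + X 6]) := by
  have h1 : Gd G (Hc (hR7 s t o g) [] []) := by
    have h2 := hc_ext hG (H' := hR7 s t o g) ![0, 1, 2, 3] (by decide) (fun A _ z x w => ?_)
      (gd_ring hG hI s t o g hl hd hx)
    · simpa using h2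
    · have e : ![z 0, z 1, z 2, z 3] = fun i => z (![0, 1, 2, 3] i) := by
        funext i
        fin_cases i <;> rfl
      rw [hN_F, ← e]
      rfl
  have h3 : Gd G (Hc (hR7 s t o g) [] [X 4]) := by
    refine hc_gm hG 4 (by simp) (by simp) (fun A _ z z' x w h => ?_) h1
    unfold hR7
    simp only [h 0 (by decide), h 1 (by decide), h 2 (by decide), h 3 (by decide)]
  have hu : ∀ (A : Type) [CommRing A] (z : Fin 7 → A), Cn [] [X 4 + X 5 + X 6] A z →
      IsUnit (z 4 + z 5 + z 6) := by
    intro A _ z hz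
    simpa [Cn] using hz
  refine (hc_iso hG.cp0 (hN Kntwo s t o g) (hR7 s t o g) (U := [X 4 + X 5 + X 6]) (U' := [X 4])
    (Z := []) (Z' := [])
    (fun A _ z => ![z 0, z 1 + z 4 * z 5 * Ring.inverse (z 4 + z 5 + z 6),
      z 2 + z 4 * z 6 * Ring.inverse (z 4 + z 5 + z 6), z 3, z 4 + z 5 + z 6,
      z 4 * Ring.inverse (z 4 + z 5 + z 6), z 5 * Ring.inverse (z 4 + z 5 + z 6)])
    (fun A _ z => ![z 0, z 1 - z 4 * (z 5 * z 6), z 2 - z 4 * (z 5 * (1 - z 5 - z 6)), z 3,
      z 4 * z 5, z 4 * z 6, z 4 * (1 - z 5 - z 6)])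
    (fun A _ z => ![0, 0, z 4 * (z 6 * (1 - z 5 - z 6)), 0]) (fun A _ z => z 4)
    ?_ ?_ ?_ ?_ ?_ ?_ ?_ ?_ ?_).mpr h3
  · intro A B _ _ φ z hz j
    have h4 := map_inv_of_unit φ (hu A z hz)
    simp only [map_add] at h4
    fin_cases j <;> simp [h4]
  · intro A B _ _ φ z hz j
    fin_cases j <;> simp
  · intro A B _ _ φ z hz j
    rw [vec4_map, map_zero, map_mul, map_mul, map_sub, map_sub, map_one]
  · intro A _ z hz
    simpa [Cn] using hu A z hz
  · intro A _ z hz
    have h4 : IsUnit (z 4) := by simpa [Cn] using hz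
    have h5 : z 4 * z 5 + z 4 * z 6 + z 4 * (1 - z 5 - z 6) = z 4 := by ring
    simpa [Cn, h5] using h4
  · intro A _ z hz
    have h4 := Ring.mul_inverse_cancel _ (hu A z hz)
    generalize Ring.inverse (z 4 + z 5 + z 6) = I at *
    funext j
    fin_cases j
    · rfl
    · simp
      linear_combination (z 4 * z 5 * I) * (-h4)
    · simp
      linear_combination (z 4 * (z 4 * I + z 5 * I)) * h4
    · rfl
    · simp
      linear_combination (z 4) * h4
    · simp
      linear_combination (z 5) * h4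
    · simp
      linear_combination (-(z 4 + z 5)) * h4
  · intro A _ z hz
    have h4 : IsUnit (z 4) := by simpa [Cn] using hz
    have h5 : z 4 * z 5 + z 4 * z 6 + z 4 * (1 - z 5 - z 6) = z 4 := by ring
    have h6 := Ring.mul_inverse_cancel _ h4
    funext j
    fin_cases j
    · rfl
    · simp [h5]
      linear_combination (z 4 * z 5 * z 6) * h6
    · simp [h5]
      linear_combination (z 4 * z 5 * (1 - z 5 - z 6)) * h6
    · rfl
    · simp [h5]
    · simp [h5]
      linear_combination (z 5) * h6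
    · simp [h5]
      linear_combination (z 6) * h6
  · intro A _ z hz
    simpa [Cn] using hz
  · intro A _ z x w hz
    rw [hN_F]
    have h4 := NF_ntwo_unit s t o g w (z 0) (z 1 - z 4 * (z 5 * z 6))
      (z 2 - z 4 * (z 5 * (1 - z 5 - z 6))) (z 3) (z 4) (z 5) (z 6) (1 - z 5 - z 6) (by ring) x
    rw [h4, sub_add_cancel, sub_add_cancel, vec4]
    simp only [add_zero]
    rfl

end

end Pool.Agent.Sym3
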