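import Pool.Agent.Sym3.StC

/-!
# The plane, continued
-/

set_option autoImplicit false
set_option linter.unusedSectionVars false
set_option linter.unusedVariables false

open Matrix MvPolynomial
open Pool.Agent.Helper81.CP Pool.Agent.Helper81.HG Pool.Agent.Phi4

namespace Pool.Agent.Sym3

lemma eta7 {A : Type} (z : Fin 7 → A) : z = ![z 0, z 1, z 2, z 3, z 4, z 5, z 6] := by
  funext i
  fin_cases i <;> rfl

lemma eta4 {A : Type} (z : Fin 4 → A) : z = ![z 0, z 1, z 2, z 3] := by
  funext i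
  fin_cases i <;> rfl

lemma eta3 {A : Type} (z : Fin 3 → A) : z = ![z 0, z 1, z 2] := by
  funext i
  fin_cases i <;> rfl

section

variable {G : ∀ (R : Type) [CommRing R], Prop} (hG : RG G) (hW : WT G)
  (hpt : GS G (∅ : Set (MvPolynomial Empty ℤ))) {E V : Type} [DecidableEq V]
  [DecidableEq E] [Fintype E] [Fintype V] {n : ℕ} (hI : IH3 G n) (s t : E → V) (o : V)
  (g : Fin 4 → V) (hl : ∀ e, s e ≠ t e) (hd : D4 s t g) (hx : exl s t g < n)

include hG hI hl hd hx hpt

lemma gd_ntwo_tri : Gd G (Hc (hN Kntwo s t o g) [X 4, X 4 + X 5 + X 6] []) := by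
  refine hc_glue hG.cp0 (X 6) ?_ ?_
  · have h1 : Gd G (Hc (hZ (Fin 7) E) [X 6, X 4, X 5] []) :=
      hc_zero hG 6 (by simp) (by simp) (frH_hZ _) (hc_zero hG 4 (by simp) (by simp) (frH_hZ _)
        (hc_zero hG 5 (by simp) (by simp) (frH_hZ _) (gd_hZ hG hpt)))
    refine hc_mul (fun A _ z => ?_) (fun _ _ _ => 1) (fun _ _ _ _ => isUnit_one)
      (fun A _ z x w hz => ?_) h1
    · simp only [Cn, List.forall_mem_cons, List.not_mem_nil, false_implies, implies_true,
        and_true, ev_X, map_add]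
      constructor
      · rintro ⟨h1, h2, h3⟩
        exact ⟨h1, h2, by rw [h1, h2, h3]; ring⟩
      · rintro ⟨h1, h2, h3⟩
        exact ⟨h1, h2, by rw [h1, h2] at h3; linear_combination h3⟩
    · simp only [Cn, List.forall_mem_cons, List.not_mem_nil, false_implies, implies_true,
        and_true, ev_X, map_add] at hz
      obtain ⟨h1, h2, h3⟩ := hz
      have h5 : z 5 = -0 := by rw [h1, h2] at h3; linear_combination h3
      have e := NF_ntwo_tri s t o g w (z 0) (z 1) (z 2) (z 3) 0 x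
      rw [hN_F, eta7 z, h2, h5, h1, e]
      unfold hZ
      ring
  · have h1 : Gd G (Hc (hT7' s t o g) [X 4, X 5 * 1 + X 6] [X 6]) := by
      have h2 : ∀ a : Fin 7, a = 4 ∨ a = 5 ∨ a = 6 → FrH a (hT7' s t o g) := by
        intro a ha A _ z z' x w h
        have ha0 : (0 : Fin 7) ≠ a ∧ (1 : Fin 7) ≠ a ∧ (2 : Fin 7) ≠ a ∧ (3 : Fin 7) ≠ a := by
          rcases ha with rfl | rfl | rfl <;> decide
        unfold hT7'
        simp only [h 0 ha0.1, h 1 ha0.2.1, h 2 ha0.2.2.1, h 3 ha0.2.2.2]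
      refine hc_zero hG 4 (by simp) (by simp) (h2 4 (by simp)) ?_
      refine hc_solve hG 5 1 (X 6) (by simp) (by simp) (h2 5 (by simp)) (by simp) (by simp)
        (fun A _ z _ => by simp) ?_
      exact hc_gm hG 6 (by simp) (by simp) (h2 6 (by simp)) (gd_hT7' hG hI s t o g hl hd hx)
    refine hc_mul (fun A _ z => ?_) (fun _ _ z => -(z 6 * z 6)) (fun A _ z hz => ?_)
      (fun A _ z x w hz => ?_) h1
    · simp only [Cn, List.forall_mem_cons, List.not_mem_nil, false_implies, implies_true,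
        and_true, ev_X, map_add, map_mul, map_one, mul_one]
      constructor
      · rintro ⟨⟨h1, h2⟩, h3⟩
        exact ⟨⟨h1, by rw [h1]; linear_combination h2⟩, h3⟩
      · rintro ⟨⟨h1, h2⟩, h3⟩
        exact ⟨⟨h1, by rw [h1] at h2; linear_combination h2⟩, h3⟩
    · simp only [Cn, List.forall_mem_cons, List.not_mem_nil, false_implies, implies_true,
        and_true, ev_X] at hz
      exact (hz.2.mul hz.2).neg
    · simp only [Cn, List.forall_mem_cons, List.not_mem_nil, false_implies, implies_true,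
        and_true, ev_X, map_add] at hz
      obtain ⟨⟨h1, h2⟩, h3⟩ := hz
      have h5 : z 5 = - z 6 := by rw [h1] at h2; linear_combination h2
      have e := NF_ntwo_tri s t o g w (z 0) (z 1) (z 2) (z 3) (z 6) x
      rw [hN_F, eta7 z, h1, h5, e]
      rfl

lemma gd_ntwo_u : Gd G (Hc (hN Kntwo s t o g) [X 4 + X 5 + X 6] [X 4]) :=
  hc_opn hG.cp0 (X 4) (hc_closed hG.cp0 _ (gd_ntwo hG hI s t o g hl hd hx)
    (gd_ntwo_unit hG hI s t o g hl hd hx)) (gd_ntwo_tri hG hpt hI s t o g hl hd hx)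

/-- the parameters are `ρ`, `X1`, `e`, `X0`, `y1`, `κ` -/
lemma pc_ntwo : Gd G (Pc (fam s t o g) [] [X 4] (X 3 * (1 + X 5))
    (-(X 0 * X 5) : MvPolynomial (Fin 6) ℤ)) := by
  have hu : ∀ (A : Type) [CommRing A] (z : Fin 7 → A), Cn [X 4 + X 5 + X 6] [X 4] A z →
      IsUnit (z 4) ∧ z 4 + z 5 + z 6 = 0 := by
    intro A _ z hz
    simp only [Cn, List.forall_mem_cons, List.not_mem_nil, false_implies, implies_true,
        and_true, ev_X, map_add] at hz
    exact ⟨hz.2, hz.1⟩
  have hu' : ∀ (A : Type) [CommRing A] (z : Fin 6 → A), Cn [] [X 4] A z → IsUnit (z 4) := by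
    intro A _ z hz
    simpa [Cn] using hz
  refine (hc_iso hG.cp0 (hN Kntwo s t o g) (pf (fam s t o g) (X 3 * (1 + X 5))
    (-(X 0 * X 5) : MvPolynomial (Fin 6) ℤ)) (Z := [X 4 + X 5 + X 6]) (U := [X 4]) (Z' := [])
    (U' := [X 4])
    (fun A _ z => ![z 0, z 1, z 2, z 3, z 4, z 6 * Ring.inverse (z 4)])
    (fun A _ z => ![z 0, z 1, z 2, z 3, z 4, -((1 + z 5) * z 4), z 5 * z 4])
    (fun A _ z => ![0, z 0, z 0 * (z 5 * z 5) + z 1 * (z 5 * z 5) +
        (z 2 + z 3) * ((1 + z 5) * (1 + z 5)) + z 4 * (z 5 * (1 + z 5)), z 3])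
    (fun A _ z => -(z 4 * z 4))
    ?_ ?_ ?_ ?_ ?_ ?_ ?_ ?_ ?_).mp (gd_ntwo_u hG hpt hI s t o g hl hd hx)
  · intro A B _ _ φ z hz j
    have h4 := map_inv_of_unit φ (hu A z hz).1
    fin_cases j <;> simp [h4]
  · intro A B _ _ φ z hz j
    fin_cases j <;> simp
  · intro A B _ _ φ z hz j
    rw [vec4_map]
    simp only [map_zero, map_mul, map_add, map_one]
  · intro A _ z hz
    simpa [Cn] using (hu A z hz).1
  · intro A _ z hz
    have h5 : z 4 + -((1 + z 5) * z 4) + z 5 * z 4 = 0 := by ring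
    have h6 := hu' A z hz
    simp only [Cn, List.forall_mem_cons, List.not_mem_nil, false_implies, implies_true,
        and_true, ev_X, map_add]
    exact ⟨h5, h6⟩
  · intro A _ z hz
    obtain ⟨h4, h5⟩ := hu A z hz
    have h6 := Ring.inverse_mul_cancel _ h4
    generalize Ring.inverse (z 4) = I at *
    funext j
    fin_cases j
    · rfl
    · rfl
    · rfl
    · rfl
    · rfl
    · simp
      linear_combination (- z 6) * h6 - h5
    · simp
      linear_combination (z 6) * h6
  · intro A _ z hz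
    have h6 := Ring.mul_inverse_cancel _ (hu' A z hz)
    funext j
    fin_cases j
    · rfl
    · rfl
    · rfl
    · rfl
    · rfl
    · simp
      linear_combination (z 5) * h6
  · intro A _ z hz
    exact ((hu' A z hz).mul (hu' A z hz)).neg
  · intro A _ z x w hz
    rw [hN_F, pf_F, fam_F, NF_ntwo_zero s t o g w (z 0) (z 1) (z 2) (z 3) (z 4) (z 5) x, vec4]
    simp only [add_zero, map_add, map_mul, map_neg, ev_X, map_one]
    congr 2
    simp only [← add_assoc]

end

end Pool.Agent.Sym3
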