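import Pool.Agent.Sym3.StD

/-!
# The plane, end
-/

set_option autoImplicit false
set_option linter.unusedSectionVars false
set_option linter.unusedVariables false

open Matrix MvPolynomial
open Pool.Agent.Helper81.CP Pool.Agent.Helper81.HG Pool.Agent.Phi4

namespace Pool.Agent.Sym3

section

variable {G : ∀ (R : Type) [CommRing R], Prop} (hG : RG G) (hW : WT G)
  (hpt : GS G (∅ : Set (MvPolynomial Empty ℤ))) {E V : Type} [DecidableEq V]
  [DecidableEq E] [Fintype E] [Fintype V] {n : ℕ} (hI : IH3 G n) (s t : E → V) (o : V)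
  (g : Fin 4 → V) (hl : ∀ e, s e ≠ t e) (hd : D4 s t g) (hx : exl s t g < n)

include hG hI hl hd hx hpt

/-- the parameters are `ρ`, `X0`, `κ` -/
lemma pc_three : Gd G (Pc (fam s t o g) [] [] (X 1 * (1 + X 2))
    (-(X 0 * X 2) : MvPolynomial (Fin 3) ℤ)) := by
  have h1 := pc_ntwo hG hpt hI s t o g hl hd hx
  have h2 : Gd G (Pc (fam s t o g) [] [] (X 3 * (1 + X 5))
      (-(X 0 * X 5) : MvPolynomial (Fin 6) ℤ)) :=
    hc_ungm hG 4 (by simp) (by simp) (frH_pf (by simp (maxDischargeDepth := 30))
      (by simp (maxDischargeDepth := 30))) h1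
  refine pc_unext hG (κ' := Fin 6) ![0, 3, 5] (by decide) ?_
  simpa using h2

lemma pc_ph' : Gd G (Pc (fam s t o g) [] [1 + X 2, X 2] (X 1)
    (X 0 : MvPolynomial (Fin 3) ℤ)) := by
  -- the two special values of `κ`
  have h0 : Gd G (Pc (fam s t o g) [X 2] [] (X 1 * (1 + X 2))
      (-(X 0 * X 2) : MvPolynomial (Fin 3) ℤ)) := by
    have h1 := hc_zero hG 2 (by simp) (by simp) (frH_pf (by simp) (by simp))
      (st_hu hG hI s t o g hl hd hx (1 : Fin 3))
    refine pc_congr (fun A _ z => Iff.rfl) (fun A _ z hz => ?_) h1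
    simp only [Cn, List.forall_mem_cons, List.not_mem_nil, false_implies, implies_true,
        and_true, ev_X] at hz
    simp only [map_mul, map_add, map_neg, map_one, map_zero, ev_X, hz]
    constructor <;> ring
  have h1 : Gd G (Pc (fam s t o g) [] [X 2] (X 1 * (1 + X 2))
      (-(X 0 * X 2) : MvPolynomial (Fin 3) ℤ)) :=
    hc_opn hG.cp0 (X 2) (pc_three hG hpt hI s t o g hl hd hx) h0
  have h2 : Gd G (Pc (fam s t o g) [1 + X 2] [X 2] (X 1 * (1 + X 2))
      (-(X 0 * X 2) : MvPolynomial (Fin 3) ℤ)) := by
    have h1 := hc_solve hG 2 1 1 (by simp) (by simp) (frH_pf (by simp) (by simp)) (by simp)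
      (by simp) (fun A _ z _ => by simp) (st_hv hG hI s t o g hl hd hx (0 : Fin 3))
    refine pc_congr (fun A _ z => ?_) (fun A _ z hz => ?_) h1
    · simp only [Cn, List.forall_mem_cons, List.not_mem_nil, false_implies, implies_true,
        and_true, ev_X, map_add, map_mul, map_one, mul_one]
      constructor
      · intro h
        refine ⟨by linear_combination h, ?_⟩
        have : z 2 = -1 := by linear_combination h
        rw [this]
        exact isUnit_one.neg
      · rintro ⟨h, _⟩
        linear_combination h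
    · simp only [Cn, List.forall_mem_cons, List.not_mem_nil, false_implies, implies_true,
        and_true, ev_X, map_add, map_one] at hz
      have : z 2 = -1 := by linear_combination hz.1
      simp only [map_mul, map_add, map_neg, map_one, map_zero, ev_X, this]
      constructor <;> ring
  have h3 : Gd G (Pc (fam s t o g) [] [1 + X 2, X 2] (X 1 * (1 + X 2))
      (-(X 0 * X 2) : MvPolynomial (Fin 3) ℤ)) := hc_opn hG.cp0 (1 + X 2) h1 h2
  have hu : ∀ (A : Type) [CommRing A] (z : Fin 3 → A), Cn [] [1 + X 2, X 2] A z →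
      IsUnit (1 + z 2) ∧ IsUnit (z 2) := by
    intro A _ z hz
    simpa [Cn] using hz
  -- change of the parameter `1`
  have h4 : Gd G (Pc (fam s t o g) [] [1 + X 2, X 2] (X 1)
      (-(X 0 * X 2) : MvPolynomial (Fin 3) ℤ)) := by
    refine (pc_aff hG.cp0 (Z := []) (U := [1 + X 2, X 2]) 1 (1 + X 2) 0 (by simp) (by simp)
      (fun A _ z hz => ?_) (fun A _ z hz => ?_) ?_).mp h3
    · simpa using (hu A z hz).1
    · simpa using (hu A z hz).1
    · intro A _ z z' _ h1 h2
      have e0 := h1 0 (by decide)
      have e2 := h1 2 (by decide)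
      simp only [map_add, map_one, ev_X, map_zero, add_zero] at h2
      simp only [Cn, List.forall_mem_cons, List.not_mem_nil, false_implies, implies_true,
        true_and, and_true, ev_X, map_add, map_one, map_mul, map_neg, e0, e2, h2]
  -- change of the parameter `0`
  refine (pc_aff hG.cp0 (Z := []) (U := [1 + X 2, X 2]) 0 (- X 2) 0 (by simp) (by simp)
    (fun A _ z hz => ?_) (fun A _ z hz => ?_) ?_).mp h4
  · simpa using (hu A z hz).2
  · simpa using (hu A z hz).2
  · intro A _ z z' _ h1 h2
    have e0 := h1 1 (by decide)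
    have e2 := h1 2 (by decide)
    simp only [map_neg, ev_X, map_zero, add_zero] at h2
    simp only [Cn, List.forall_mem_cons, List.not_mem_nil, false_implies, implies_true,
        true_and, and_true, ev_X, map_add, map_one, map_mul, map_neg, e0, e2, h2]
    simp

include hW

/-- **the plane** -/
theorem st_ph {k : ℕ} (i j : Fin k) (hij : i ≠ j) :
    Gd G (Pc (fam s t o g) [] [] (X i) (X j)) := by
  refine ph_of hG ?_ i j hij
  refine gd_two hG hW (rp_hc _ _ _) ?_
  have h1 := pc_ph' hG hpt hI s t o g hl hd hx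
  let k : (Fin 3 ⊕ Fin 4) ⊕ E → Option ((Fin 2 ⊕ Fin 4) ⊕ E) :=
    Sum.elim (Sum.elim ![some (Sum.inl (Sum.inl 1)), some (Sum.inl (Sum.inl 0)), none]
      (fun i => some (Sum.inl (Sum.inr i)))) (fun e => some (Sum.inr e))
  have hk : Function.Injective k := by
    rintro ((a | a) | a) ((b | b) | b) hab
    · fin_cases a <;> fin_cases b <;> simp_all [k]
    · fin_cases a <;> simp [k] at hab
    · fin_cases a <;> simp [k] at hab
    · fin_cases b <;> simp [k] at hab
    · simpa [k] using hab
    · simp [k] at hab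
    · fin_cases b <;> simp [k] at hab
    · simp [k] at hab
    · simpa [k] using hab
  refine (Gd.ext hG k hk h1).congr fun A _ x => ?_
  simp only [Hc, Cn, List.forall_mem_cons, List.not_mem_nil, false_implies, implies_true,
        true_and, and_true, ev_X, map_add, map_one, pf_F]
  show (IsUnit (1 + x none) ∧ IsUnit (x none)) ∧ (fam s t o g).F A (fun i => x (some (Sum.inl (Sum.inr i))))
    (fun e => x (some (Sum.inr e))) (x (some (Sum.inl (Sum.inl 0)))) (x (some (Sum.inl (Sum.inl 1)))) = 0 ↔
    (fam s t o g).F A (fun i => x (some (Sum.inl (Sum.inr i)))) (fun e => x (some (Sum.inr e)))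
      (x (some (Sum.inl (Sum.inl 0)))) (x (some (Sum.inl (Sum.inl 1)))) = 0 ∧ _
  tauto

/-- the plane and three lines -/
theorem st_bs : Bs G (fam s t o g) :=
  ⟨fun i j hij => st_ph hG hW hpt hI s t o g hl hd hx i j hij, fun i => st_hu hG hI s t o g hl hd hx i,
    fun i => st_hv hG hI s t o g hl hd hx i, fun i => st_hw hG hI s t o g hl hd hx i⟩

end

end Pool.Agent.Sym3
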