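import Pool.Agent.Sym3.StE

/-!
# The triangle with two legs and a vertex with two legs
-/

set_option autoImplicit false
set_option linter.unusedSectionVars false
set_option linter.unusedVariables false
set_option linter.unusedSimpArgs false

open Matrix MvPolynomial
open Pool.Agent.Helper81.CP Pool.Agent.Helper81.HG Pool.Agent.Phi4

namespace Pool.Agent.Sym3

section

variable {E V : Type} [DecidableEq V] [DecidableEq E] [Fintype E] [Fintype V] (s t : E → V)
  (o : V) (g : Fin 4 → V)

/-- the star with three legs, with `k` parameters -/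
def hS (k : ℕ) : Hf (Fin k) E where
  F := fun A _ z x w => NF Kstar3 s t o g (Sum.elim (finZeroElim : Fin 0 → A) ![x 0, x 1, x 3]) w
  nat := fun A B _ _ φ z x w => by
    rw [map_NF]
    congr 1
    funext i
    rcases i with i | i
    · exact i.elim0
    · fin_cases i <;> rfl

/-- the star with three legs and an edge in series -/
def hS4 : Hf (Fin 4) E where
  F := fun A _ z x w => NF Kstar3 s t o g
    (Sum.elim (finZeroElim : Fin 0 → A) ![x 0, x 1 + z 3, x 3]) w
  nat := fun A B _ _ φ z x w => by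
    rw [map_NF]
    congr 1
    funext i
    rcases i with i | i
    · exact i.elim0
    · fin_cases i
      · rfl
      · exact map_add φ _ _
      · rfl

/-- the triangle with the parameters `z1`, `z3/z1`, and a free one -/
def hK3 : Hf (Fin 3) E where
  F := fun A _ z x w => NF Kkc s t o g (Sum.elim ![z 0, -((1 + z 1) * z 0), z 1 * z 0] x) w
  nat := fun A B _ _ φ z x w => by
    rw [map_NF]
    congr 1
    funext i
    rcases i with i | i
    · fin_cases i <;> simp
    · rfl

/-- the triangle with the parameters `z1`, `z3/z1` -/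
def hK2 : Hf (Fin 2) E where
  F := fun A _ z x w => NF Kkc s t o g (Sum.elim ![z 0, -((1 + z 1) * z 0), z 1 * z 0] x) w
  nat := fun A B _ _ φ z x w => by
    rw [map_NF]
    congr 1
    funext i
    rcases i with i | i
    · fin_cases i <;> simp
    · rfl

end

section

variable {G : ∀ (R : Type) [CommRing R], Prop} (hG : RG G)
  (hpt : GS G (∅ : Set (MvPolynomial Empty ℤ))) {E V : Type} [DecidableEq V]
  [DecidableEq E] [Fintype E] [Fintype V] {n : ℕ} (hI : IH3 G n) (s t : E → V) (o : V)
  (g : Fin 4 → V) (hl : ∀ e, s e ≠ t e) (hd : D4 s t g) (hx : exl s t g < n)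

include hG hI hl hd hx

lemma gd_hS (m : ℕ) : Gd G (Hc (hS s t o g m) [] []) := by
  have h0 := gd_np hI Kstar3 (by decide) (by decide) (by decide) (by decide) s t o g hl hd hx
  let k : (Fin 0 ⊕ Fin 3) ⊕ E → (Fin m ⊕ Fin 4) ⊕ E :=
    Sum.map (Sum.map finZeroElim ![0, 1, 3]) id
  have hk : Function.Injective k := by
    refine Function.Injective.sumMap (Function.Injective.sumMap ?_ ?_) Function.injective_id
    · intro a
      exact a.elim0
    · decide
  refine (Gd.ext hG k hk h0).congr fun A _ x => ?_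
  unfold NP Hc hS
  simp only [cn_nil, true_and]
  have e1 : (fun i => x (k (Sum.inl i))) = Sum.elim (finZeroElim : Fin 0 → A)
      ![lg x 0, lg x 1, lg x 3] := by
    funext i
    rcases i with i | i
    · exact i.elim0
    · fin_cases i <;> rfl
  rw [e1]
  rfl

lemma gd_hS4 : Gd G (Hc (hS4 s t o g) [] []) := by
  refine (hc_iso hG.cp0 (hS4 s t o g) (hS s t o g 4) (fun A _ z => z) (fun A _ z => z)
    (fun A _ z => ![0, z 3, 0, 0]) (fun A _ z => 1) ?_ ?_ ?_ ?_ ?_ ?_ ?_ ?_ ?_).mpr
    (gd_hS hG hI s t o g hl hd hx 4)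
  · intro A B _ _ φ z _ j; rfl
  · intro A B _ _ φ z _ j; rfl
  · intro A B _ _ φ z _ j
    rw [vec4_map, map_zero]
  · intro A _ z hz; exact hz
  · intro A _ z hz; exact hz
  · intro A _ z _; rfl
  · intro A _ z _; rfl
  · intro A _ z _; exact isUnit_one
  · intro A _ z x w _
    rw [vec4, one_mul]
    simp only [add_zero]
    rfl

lemma gd_nh_unit : Gd G (Hc (hN Knh s t o g) [] [X 0 + X 1 + X 2]) := by
  have h3 : Gd G (Pc (fam s t o g) [] [X 0] 0 (X 3 : MvPolynomial (Fin 4) ℤ)) :=
    hc_gm hG 0 (by simp) (by simp) (frH_pf (by simp) (by simp)) (st_hv hG hI s t o g hl hd hx 3)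
  have hu : ∀ (A : Type) [CommRing A] (z : Fin 4 → A), Cn [] [X 0 + X 1 + X 2] A z →
      IsUnit (z 0 + z 1 + z 2) := by
    intro A _ z hz
    simpa [Cn] using hz
  refine (hc_iso hG.cp0 (hN Knh s t o g) (pf (fam s t o g) 0 (X 3 : MvPolynomial (Fin 4) ℤ))
    (U := [X 0 + X 1 + X 2]) (U' := [X 0]) (Z := []) (Z' := [])
    (fun A _ z => ![z 0 + z 1 + z 2, z 0 * Ring.inverse (z 0 + z 1 + z 2),
      z 1 * Ring.inverse (z 0 + z 1 + z 2), z 3 + z 0 * z 2 * Ring.inverse (z 0 + z 1 + z 2)])
    (fun A _ z => ![z 0 * z 1, z 0 * z 2, z 0 * (1 - z 1 - z 2),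
      z 3 - z 0 * (z 1 * (1 - z 1 - z 2))])
    (fun A _ z => ![0, z 3 - z 0 * (z 1 * (1 - z 1 - z 2)) + z 0 * (z 1 * (z 2 + (1 - z 1 - z 2))),
      z 3 - z 0 * (z 1 * (1 - z 1 - z 2)) + z 0 * ((1 - z 1 - z 2) * (z 1 + z 2)), 0])
    (fun A _ z => z 0) ?_ ?_ ?_ ?_ ?_ ?_ ?_ ?_ ?_).mpr h3
  · intro A B _ _ φ z hz j
    have h4 := map_inv_of_unit φ (hu A z hz)
    simp only [map_add] at h4
    fin_cases j <;> simp [h4]
  · intro A B _ _ φ z hz j
    fin_cases j <;> simp
  · intro A B _ _ φ z hz j
    rw [vec4_map]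
    simp only [map_zero, map_mul, map_add, map_sub, map_one]
  · intro A _ z hz
    simpa [Cn] using hu A z hz
  · intro A _ z hz
    have h4 : IsUnit (z 0) := by simpa [Cn] using hz
    have h5 : z 0 * z 1 + z 0 * z 2 + z 0 * (1 - z 1 - z 2) = z 0 := by ring
    simpa [Cn, h5] using h4
  · intro A _ z hz
    have h4 := Ring.mul_inverse_cancel _ (hu A z hz)
    generalize Ring.inverse (z 0 + z 1 + z 2) = I at *
    funext j
    fin_cases j
    · simp
      linear_combination (z 0) * h4
    · simp
      linear_combination (z 1) * h4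
    · simp
      linear_combination (-(z 0 + z 1)) * h4
    · simp
      linear_combination (z 0 * (z 0 * I + z 1 * I)) * h4
  · intro A _ z hz
    have h4 : IsUnit (z 0) := by simpa [Cn] using hz
    have h5 : z 0 * z 1 + z 0 * z 2 + z 0 * (1 - z 1 - z 2) = z 0 := by ring
    have h6 := Ring.mul_inverse_cancel _ h4
    funext j
    fin_cases j
    · simp [h5]
    · simp [h5]
      linear_combination (z 1) * h6
    · simp [h5]
      linear_combination (z 2) * h6
    · simp [h5]
      linear_combination (z 0 * z 1 * (1 - z 1 - z 2)) * h6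
  · intro A _ z hz
    simpa [Cn] using hz
  · intro A _ z x w hz
    rw [hN_F, pf_F, fam_F, NF_nh_unit s t o g w (z 0) (z 1) (z 2) (1 - z 1 - z 2)
      (z 3 - z 0 * (z 1 * (1 - z 1 - z 2))) (by ring) x, vec4]
    simp only [add_zero, map_zero, ev_X, sub_add_cancel, add_assoc]

include hpt

lemma gd_nh_star : Gd G (Hc (hN Knh s t o g) [X 0, X 0 + X 1 + X 2] []) := by
  refine hc_glue hG.cp0 (X 2) ?_ ?_
  · have h1 : Gd G (Hc (hZ (Fin 4) E) [X 2, X 0, X 1] []) :=
      hc_zero hG 2 (by simp) (by simp) (frH_hZ _) (hc_zero hG 0 (by simp) (by simp) (frH_hZ _)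
        (hc_zero hG 1 (by simp) (by simp) (frH_hZ _) (gd_hZ hG hpt)))
    refine hc_mul (fun A _ z => ?_) (fun _ _ _ => 1) (fun _ _ _ _ => isUnit_one)
      (fun A _ z x w hz => ?_) h1
    · simp only [Cn, List.forall_mem_cons, List.not_mem_nil, false_implies, implies_true,
        and_true, ev_X, map_add]
      constructor
      · rintro ⟨h1, h2, h3⟩
        exact ⟨h1, h2, by rw [h1, h2, h3]; ring⟩
      · rintro ⟨h1, h2, h3⟩
        exact ⟨h1, h2, by rw [h1, h2] at h3; linear_combination h3⟩
    · simp only [Cn, List.forall_mem_cons, List.not_mem_nil, false_implies, implies_true,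
        and_true, ev_X, map_add] at hz
      obtain ⟨h1, h2, h3⟩ := hz
      have h5 : z 1 = -0 := by rw [h1, h2] at h3; linear_combination h3
      have e := NF_nh_star s t o g w 0 (z 3) x
      rw [hN_F, eta4 z, h2, h5, h1, e]
      unfold hZ
      ring
  · have h1 : Gd G (Hc (hS4 s t o g) [X 0, X 1 * 1 + X 2] [X 2]) := by
      have h2 : ∀ a : Fin 4, a = 0 ∨ a = 1 ∨ a = 2 → FrH a (hS4 s t o g) := by
        intro a ha A _ z z' x w h
        have ha0 : (3 : Fin 4) ≠ a := by
          rcases ha with rfl | rfl | rfl <;> decide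
        unfold hS4
        simp only [h 3 ha0]
      refine hc_zero hG 0 (by simp) (by simp) (h2 0 (by simp)) ?_
      refine hc_solve hG 1 1 (X 2) (by simp) (by simp) (h2 1 (by simp)) (by simp) (by simp)
        (fun A _ z _ => by simp) ?_
      exact hc_gm hG 2 (by simp) (by simp) (h2 2 (by simp)) (gd_hS4 hG hI s t o g hl hd hx)
    refine hc_mul (fun A _ z => ?_) (fun _ _ z => -(z 2 * z 2)) (fun A _ z hz => ?_)
      (fun A _ z x w hz => ?_) h1
    · simp only [Cn, List.forall_mem_cons, List.not_mem_nil, false_implies, implies_true,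
        and_true, ev_X, map_add, map_mul, map_one, mul_one]
      constructor
      · rintro ⟨⟨h1, h2⟩, h3⟩
        exact ⟨⟨h1, by rw [h1]; linear_combination h2⟩, h3⟩
      · rintro ⟨⟨h1, h2⟩, h3⟩
        exact ⟨⟨h1, by rw [h1] at h2; linear_combination h2⟩, h3⟩
    · simp only [Cn, List.forall_mem_cons, List.not_mem_nil, false_implies, implies_true,
        and_true, ev_X] at hz
      exact (hz.2.mul hz.2).neg
    · simp only [Cn, List.forall_mem_cons, List.not_mem_nil, false_implies, implies_true,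
        and_true, ev_X, map_add] at hz
      obtain ⟨⟨h1, h2⟩, h3⟩ := hz
      have h5 : z 1 = - z 2 := by rw [h1] at h2; linear_combination h2
      have e := NF_nh_star s t o g w (z 2) (z 3) x
      rw [hN_F, eta4 z, h1, h5, e]
      rfl

lemma gd_nh_u : Gd G (Hc (hN Knh s t o g) [X 0 + X 1 + X 2] [X 0]) :=
  hc_opn hG.cp0 (X 0) (hc_closed hG.cp0 _
    (gd_hN (gd_np hI Knh (by decide) (by decide) (by decide) (by decide) s t o g hl hd hx))
    (gd_nh_unit hG hI s t o g hl hd hx)) (gd_nh_star hG hpt hI s t o g hl hd hx)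

lemma gd_hK2 : Gd G (Hc (hK2 s t o g) [] [X 0]) := by
  have hu : ∀ (A : Type) [CommRing A] (z : Fin 4 → A), Cn [X 0 + X 1 + X 2] [X 0] A z →
      IsUnit (z 0) ∧ z 0 + z 1 + z 2 = 0 := by
    intro A _ z hz
    simp only [Cn, List.forall_mem_cons, List.not_mem_nil, false_implies, implies_true,
        and_true, ev_X, map_add] at hz
    exact ⟨hz.2, hz.1⟩
  have hu' : ∀ (A : Type) [CommRing A] (z : Fin 3 → A), Cn [] [X 0] A z → IsUnit (z 0) := by
    intro A _ z hz
    simpa [Cn] using hz
  have h1 : Gd G (Hc (hK3 s t o g) [] [X 0]) := by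
    refine (hc_iso hG.cp0 (hN Knh s t o g) (hK3 s t o g) (Z := [X 0 + X 1 + X 2]) (U := [X 0])
      (Z' := []) (U' := [X 0])
      (fun A _ z => ![z 0, z 2 * Ring.inverse (z 0), z 3 * Ring.inverse (z 0)])
      (fun A _ z => ![z 0, -((1 + z 1) * z 0), z 1 * z 0, z 2 * z 0])
      (fun A _ z => ![0, 0, z 2 * z 0 * ((1 + z 1) * (1 + z 1)), 0])
      (fun A _ z => 1)
      ?_ ?_ ?_ ?_ ?_ ?_ ?_ ?_ ?_).mp (gd_nh_u hG hpt hI s t o g hl hd hx)
    · intro A B _ _ φ z hz j
      have h4 := map_inv_of_unit φ (hu A z hz).1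
      fin_cases j <;> simp [h4]
    · intro A B _ _ φ z hz j
      fin_cases j <;> simp
    · intro A B _ _ φ z hz j
      rw [vec4_map]
      simp only [map_zero, map_mul, map_add, map_one]
    · intro A _ z hz
      simpa [Cn] using (hu A z hz).1
    · intro A _ z hz
      have h5 : z 0 + -((1 + z 1) * z 0) + z 1 * z 0 = 0 := by ring
      have h6 := hu' A z hz
      simp only [Cn, List.forall_mem_cons, List.not_mem_nil, false_implies, implies_true,
          and_true, ev_X, map_add]
      exact ⟨h5, h6⟩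
    · intro A _ z hz
      obtain ⟨h4, h5⟩ := hu A z hz
      have h6 := Ring.inverse_mul_cancel _ h4
      generalize Ring.inverse (z 0) = I at *
      funext j
      fin_cases j
      · rfl
      · simp
        linear_combination (- z 2) * h6 - h5
      · simp
        linear_combination (z 2) * h6
      · simp
        linear_combination (z 3) * h6
    · intro A _ z hz
      have h6 := Ring.mul_inverse_cancel _ (hu' A z hz)
      funext j
      fin_cases j
      · rfl
      · simp
        linear_combination (z 1) * h6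
      · simp
        linear_combination (z 2) * h6
    · intro A _ z hz
      exact isUnit_one
    · intro A _ z x w hz
      have h7 := NF_nh_kc s t o g w (z 0) (z 1) (z 2) x
      rw [hN_F, h7, vec4, one_mul]
      simp only [add_zero]
      rfl
  have e : ∀ (A : Type) [CommRing A] (z : Fin 3 → A) (x : Fin 4 → A) (w : E → A),
      (hK3 s t o g).F A z x w = (hK2 s t o g).F A (fun i => z (![0, 1] i)) x w :=
    fun A _ z x w => rfl
  refine hc_unext hG (κ' := Fin 3) ![0, 1] (by decide) e ?_
  simpa using h1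

lemma gd_kc_star : Gd G (Hc (hN Kkc s t o g) [X 0, X 0 + X 1 + X 2] []) := by
  refine hc_glue hG.cp0 (X 2) ?_ ?_
  · have h1 : Gd G (Hc (hZ (Fin 3) E) [X 2, X 0, X 1] []) :=
      hc_zero hG 2 (by simp) (by simp) (frH_hZ _) (hc_zero hG 0 (by simp) (by simp) (frH_hZ _)
        (hc_zero hG 1 (by simp) (by simp) (frH_hZ _) (gd_hZ hG hpt)))
    refine hc_mul (fun A _ z => ?_) (fun _ _ _ => 1) (fun _ _ _ _ => isUnit_one)
      (fun A _ z x w hz => ?_) h1
    · simp only [Cn, List.forall_mem_cons, List.not_mem_nil, false_implies, implies_true,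
        and_true, ev_X, map_add]
      constructor
      · rintro ⟨h1, h2, h3⟩
        exact ⟨h1, h2, by rw [h1, h2, h3]; ring⟩
      · rintro ⟨h1, h2, h3⟩
        exact ⟨h1, h2, by rw [h1, h2] at h3; linear_combination h3⟩
    · simp only [Cn, List.forall_mem_cons, List.not_mem_nil, false_implies, implies_true,
        and_true, ev_X, map_add] at hz
      obtain ⟨h1, h2, h3⟩ := hz
      have h5 : z 1 = -0 := by rw [h1, h2] at h3; linear_combination h3
      have e := NF_kc_star s t o g w 0 x
      rw [hN_F, eta3 z, h2, h5, h1, e]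
      unfold hZ
      ring
  · have h1 : Gd G (Hc (hS s t o g 3) [X 0, X 1 * 1 + X 2] [X 2]) := by
      have h2 : ∀ a : Fin 3, FrH a (hS s t o g 3) := fun a A _ z z' x w h => rfl
      refine hc_zero hG 0 (by simp) (by simp) (h2 0) ?_
      refine hc_solve hG 1 1 (X 2) (by simp) (by simp) (h2 1) (by simp) (by simp)
        (fun A _ z _ => by simp) ?_
      exact hc_gm hG 2 (by simp) (by simp) (h2 2) (gd_hS hG hI s t o g hl hd hx 3)
    refine hc_mul (fun A _ z => ?_) (fun _ _ z => -(z 2 * z 2)) (fun A _ z hz => ?_)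
      (fun A _ z x w hz => ?_) h1
    · simp only [Cn, List.forall_mem_cons, List.not_mem_nil, false_implies, implies_true,
        and_true, ev_X, map_add, map_mul, map_one, mul_one]
      constructor
      · rintro ⟨⟨h1, h2⟩, h3⟩
        exact ⟨⟨h1, by rw [h1]; linear_combination h2⟩, h3⟩
      · rintro ⟨⟨h1, h2⟩, h3⟩
        exact ⟨⟨h1, by rw [h1] at h2; linear_combination h2⟩, h3⟩
    · simp only [Cn, List.forall_mem_cons, List.not_mem_nil, false_implies, implies_true,
        and_true, ev_X] at hz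
      exact (hz.2.mul hz.2).neg
    · simp only [Cn, List.forall_mem_cons, List.not_mem_nil, false_implies, implies_true,
        and_true, ev_X, map_add] at hz
      obtain ⟨⟨h1, h2⟩, h3⟩ := hz
      have h5 : z 1 = - z 2 := by rw [h1] at h2; linear_combination h2
      have e := NF_kc_star s t o g w (z 2) x
      rw [hN_F, eta3 z, h1, h5, e]
      rfl

/-- **the triangle with two legs and a vertex with two legs** -/
theorem st_c1 : Gd G (Hc (hN Kkc s t o g) [X 0 + X 1 + X 2] []) := by
  refine hc_glue hG.cp0 (X 0) (gd_kc_star hG hpt hI s t o g hl hd hx) ?_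
  have hu : ∀ (A : Type) [CommRing A] (z : Fin 3 → A), Cn [X 0 + X 1 + X 2] [X 0] A z →
      IsUnit (z 0) ∧ z 0 + z 1 + z 2 = 0 := by
    intro A _ z hz
    simp only [Cn, List.forall_mem_cons, List.not_mem_nil, false_implies, implies_true,
        and_true, ev_X, map_add] at hz
    exact ⟨hz.2, hz.1⟩
  have hu' : ∀ (A : Type) [CommRing A] (z : Fin 2 → A), Cn [] [X 0] A z → IsUnit (z 0) := by
    intro A _ z hz
    simpa [Cn] using hz
  refine (hc_iso hG.cp0 (hN Kkc s t o g) (hK2 s t o g) (Z := [X 0 + X 1 + X 2]) (U := [X 0])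
    (Z' := []) (U' := [X 0])
    (fun A _ z => ![z 0, z 2 * Ring.inverse (z 0)])
    (fun A _ z => ![z 0, -((1 + z 1) * z 0), z 1 * z 0])
    (fun A _ z => 0)
    (fun A _ z => 1)
    ?_ ?_ ?_ ?_ ?_ ?_ ?_ ?_ ?_).mpr (gd_hK2 hG hpt hI s t o g hl hd hx)
  · intro A B _ _ φ z hz j
    have h4 := map_inv_of_unit φ (hu A z hz).1
    fin_cases j <;> simp [h4]
  · intro A B _ _ φ z hz j
    fin_cases j <;> simp
  · intro A B _ _ φ z hz j
    exact map_zero φ
  · intro A _ z hz
    simpa [Cn] using (hu A z hz).1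
  · intro A _ z hz
    have h5 : z 0 + -((1 + z 1) * z 0) + z 1 * z 0 = 0 := by ring
    have h6 := hu' A z hz
    simp only [Cn, List.forall_mem_cons, List.not_mem_nil, false_implies, implies_true,
        and_true, ev_X, map_add]
    exact ⟨h5, h6⟩
  · intro A _ z hz
    obtain ⟨h4, h5⟩ := hu A z hz
    have h6 := Ring.inverse_mul_cancel _ h4
    generalize Ring.inverse (z 0) = I at *
    funext j
    fin_cases j
    · rfl
    · simp
      linear_combination (- z 2) * h6 - h5
    · simp
      linear_combination (z 2) * h6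
  · intro A _ z hz
    have h6 := Ring.mul_inverse_cancel _ (hu' A z hz)
    funext j
    fin_cases j
    · rfl
    · simp
      linear_combination (z 1) * h6
  · intro A _ z hz
    exact isUnit_one
  · intro A _ z x w hz
    rw [hN_F, one_mul]
    simp only [Pi.zero_apply, add_zero]
    rfl

end

end Pool.Agent.Sym3
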