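import Pool.Agent.Sym3.StE

/-!
# The ring for a graph with a rung, the part where the sum of the parameters is zero
-/

set_option autoImplicit false
set_option linter.unusedSectionVars false
set_option linter.unusedVariables false
set_option linter.unusedSimpArgs false

open Matrix MvPolynomial
open Pool.Agent.Helper81.CP Pool.Agent.Helper81.HG Pool.Agent.Phi4

namespace Pool.Agent.Sym3

variable {G : ∀ (R : Type) [CommRing R], Prop} (hG : RG G) {σ : Type} [Finite σ] {F : Fam σ}
  (hB : Bs G F)

section

variable {H : Hf (Fin 6) σ}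

include hG

lemma rg_ab_closed (h0 : FrH 0 H) (h1 : FrH 1 H) (h2 : FrH 2 H) (h : Gd G (Hc H [] [])) :
    Gd G (Hc H [X 1 - X 2] [X 2, X 1, X 0]) := by
  have k0 := hc_gm hG 0 (by simp) (by simp) h0 h
  have k1 := hc_gm hG 1 (by simp) (by simp) h1 k0
  have k2 := hc_solve hG 2 (-1) (X 1) (by simp) (by simp) h2 (by simp) (by simp)
    (fun A _ z _ => by simp) k1
  refine hc_congr (fun A _ z => ?_) (fun A _ z x w _ => rfl) k2
  simp only [Cn, List.forall_mem_cons, List.not_mem_nil, false_implies, implies_true,
    true_and, and_true, ev_X, map_add, map_sub, map_neg, map_mul, map_one, map_zero, mul_one,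
    add_zero]
  constructor
  · rintro ⟨e, u1, u0⟩
    have : z 2 = z 1 := by linear_combination -e
    exact ⟨by linear_combination e, by rw [this]; exact u1, u1, u0⟩
  · rintro ⟨e, u2, u1, u0⟩
    exact ⟨by linear_combination e, u1, u0⟩

lemma rg_ab (h0 : FrH 0 H) (h1 : FrH 1 H) (h2 : FrH 2 H) (h : Gd G (Hc H [] [])) :
    Gd G (Hc H [] [X 1 - X 2, X 2, X 1, X 0]) := by
  have k0 := hc_gm hG 0 (by simp) (by simp) h0 h
  have k1 := hc_gm hG 1 (by simp) (by simp) h1 k0
  have k2 := hc_gm hG 2 (by simp) (by simp) h2 k1
  exact hc_opn hG.cp0 _ k2 (rg_ab_closed hG h0 h1 h2 h)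

lemma rg_1b (h0 : FrH 0 H) (h1 : FrH 1 H) (h2 : FrH 2 H) (h : Gd G (Hc H [] [])) :
    Gd G (Hc H [X 2] [1 + X 1, X 1, X 0]) := by
  have k0 := hc_gm hG 0 (by simp) (by simp) h0 (hc_zero hG 2 (by simp) (by simp) h2 h)
  have k1 := hc_gm hG 1 (by simp) (by simp) h1 k0
  have k2 := hc_solve hG 1 1 1 (by simp) (by simp) h1 (by simp) (by simp)
    (fun A _ z _ => by simp) k0
  refine hc_opn hG.cp0 _ k1 (hc_congr (fun A _ z => ?_) (fun A _ z x w _ => rfl) k2)
  simp only [Cn, List.forall_mem_cons, List.not_mem_nil, false_implies, implies_true,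
    true_and, and_true, ev_X, map_add, map_sub, map_neg, map_mul, map_one, map_zero, mul_one,
    add_zero]
  constructor
  · rintro ⟨⟨e, e2⟩, u0⟩
    have : z 1 = -1 := by linear_combination e
    exact ⟨⟨by linear_combination e, e2⟩, by rw [this]; exact isUnit_one.neg, u0⟩
  · rintro ⟨⟨e, e2⟩, u1, u0⟩
    exact ⟨⟨by linear_combination e, e2⟩, u0⟩

lemma rg_2 (h0 : FrH 0 H) (h1 : FrH 1 H) (h2 : FrH 2 H) (h : Gd G (Hc H [] [])) :
    Gd G (Hc H [X 1] [X 2, 1 + X 2, X 0]) := by
  have k0 := hc_gm hG 0 (by simp) (by simp) h0 (hc_zero hG 1 (by simp) (by simp) h1 h)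
  have k1 := hc_gm hG 2 (by simp) (by simp) h2 k0
  have k2 := hc_solve hG 2 1 1 (by simp) (by simp) h2 (by simp) (by simp)
    (fun A _ z _ => by simp) k0
  have k3 : Gd G (Hc H [X 1] [1 + X 2, X 2, X 0]) := by
    refine hc_opn hG.cp0 _ k1 (hc_congr (fun A _ z => ?_) (fun A _ z x w _ => rfl) k2)
    simp only [Cn, List.forall_mem_cons, List.not_mem_nil, false_implies, implies_true,
      true_and, and_true, ev_X, map_add, map_sub, map_neg, map_mul, map_one, map_zero, mul_one,
      add_zero]
    constructor
    · rintro ⟨⟨e, e2⟩, u0⟩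
      have : z 2 = -1 := by linear_combination e
      exact ⟨⟨by linear_combination e, e2⟩, by rw [this]; exact isUnit_one.neg, u0⟩
    · rintro ⟨⟨e, e2⟩, u1, u0⟩
      exact ⟨⟨by linear_combination e, e2⟩, u0⟩
  refine hc_congr (fun A _ z => ?_) (fun A _ z x w _ => rfl) k3
  simp only [Cn, List.forall_mem_cons, List.not_mem_nil, false_implies, implies_true,
    true_and, and_true, ev_X, map_add, map_sub, map_neg, map_mul, map_one, map_zero, mul_one,
    add_zero]
  tauto

end

include hG hB

/-- both `a` and `b` are units -/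
lemma st_2b_1a : Gd G (Pc F [] [X 2, X 1, X 0]
    ((X 5 + X 0) * (X 1 * (1 + X 2)) + X 3 * (X 1 * X 2) + X 4 * ((1 + X 1) * (1 + X 2)))
    (X 5 * (X 1 - X 2) : MvPolynomial (Fin 6) ℤ)) := by
  -- the parameter `3`
  refine (pc_aff hG.cp0 (Z := []) (U := [X 2, X 1, X 0]) (Z' := []) (U' := [X 2, X 1, X 0])
    (u' := X 3) (v' := X 5 * (X 1 - X 2)) 3 (X 1 * X 2)
    ((X 5 + X 0) * (X 1 * (1 + X 2)) + X 4 * ((1 + X 1) * (1 + X 2)))
    (by simp) (by simp (maxDischargeDepth := 30)) (fun A _ z hz => ?_) (fun A _ z hz => ?_) ?_).mpr ?_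
  · simp [Cn] at hz ⊢
    tauto
  · simp [Cn] at hz ⊢
    tauto
  · intro A _ z z' _ h1 h2
    have e0 := h1 0 (by decide)
    have e1 := h1 1 (by decide)
    have e2 := h1 2 (by decide)
    have e5 := h1 5 (by decide)
    simp only [map_add, map_mul, map_one, ev_X] at h2
    simp only [Cn, List.forall_mem_cons, List.not_mem_nil, false_implies, implies_true,
      true_and, and_true, ev_X, map_add, map_sub, map_neg, map_mul, map_one, map_zero, mul_one,
      add_zero]
    simp only [e0, e1, e2, e5, h2, true_and, true_implies, iff_self]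
    intro _
    exact ⟨by ring, trivial⟩
  -- cut by `a - b`
  refine hc_glue hG.cp0 (X 1 - X 2) ?_ ?_
  · refine pc_congr (fun A _ z => Iff.rfl) (fun A _ z hz => ?_)
      (rg_ab_closed hG (frH_pf (by simp) (by simp)) (frH_pf (by simp) (by simp))
        (frH_pf (by simp) (by simp)) (hB.hu (3 : Fin 6)))
    simp only [Cn, List.forall_mem_cons, map_sub, ev_X] at hz
    refine ⟨rfl, ?_⟩
    simp only [Cn, List.forall_mem_cons, List.not_mem_nil, false_implies, implies_true,
      true_and, and_true, ev_X, map_add, map_sub, map_neg, map_mul, map_one, map_zero, mul_one,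
      add_zero]
    rw [hz.1.1, mul_zero]
  · refine (pc_aff hG.cp0 (Z := []) (U := [X 1 - X 2, X 2, X 1, X 0]) (Z' := [])
      (U' := [X 1 - X 2, X 2, X 1, X 0])
      (u' := X 3) (v' := X 5) 5 (X 1 - X 2) 0
      (by simp) (by simp) (fun A _ z hz => ?_) (fun A _ z hz => ?_) ?_).mpr
      (rg_ab hG (frH_pf (by simp) (by simp)) (frH_pf (by simp) (by simp))
        (frH_pf (by simp) (by simp)) (hB.ph (3 : Fin 6) 5 (by decide)))
    · simp [Cn] at hz ⊢
      tauto
    · simp [Cn] at hz ⊢
      tauto
    · intro A _ z z' _ h1 h2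
      have e0 := h1 0 (by decide)
      have e1 := h1 1 (by decide)
      have e2 := h1 2 (by decide)
      have e3 := h1 3 (by decide)
      simp only [map_add, map_mul, map_sub, map_zero, add_zero, map_one, ev_X] at h2
      simp only [Cn, List.forall_mem_cons, List.not_mem_nil, false_implies, implies_true,
        true_and, and_true, ev_X, map_add, map_sub, map_neg, map_mul, map_one, map_zero, mul_one,
        add_zero]
      simp only [e0, e1, e2, e3, h2, true_and, true_implies, iff_self, and_self, implies_true]

/-- `a` is a unit and `b = 0` -/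
lemma st_2b_1b : Gd G (Pc F [X 2] [X 1, X 0]
    ((X 5 + X 0) * (X 1 * (1 + X 2)) + X 3 * (X 1 * X 2) + X 4 * ((1 + X 1) * (1 + X 2)))
    (X 5 * (X 1 - X 2) : MvPolynomial (Fin 6) ℤ)) := by
  have h : Gd G (Pc F [X 2] [X 1, X 0] ((X 5 + X 0) * X 1 + X 4 * (1 + X 1))
      (X 5 * X 1 : MvPolynomial (Fin 6) ℤ)) := by
    refine hc_glue hG.cp0 (1 + X 1) ?_ ?_
    · -- `a = -1`
      have g0 : Gd G (Pc F [] [X 5 - X 0] (X 0) (X 5 : MvPolynomial (Fin 6) ℤ)) := by
        refine hc_opn hG.cp0 _ (hB.ph (0 : Fin 6) 5 (by decide)) ?_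
        refine pc_congr (fun A _ z => ?_) (fun A _ z hz => ?_)
          (hc_solve hG 0 (-1) (X 5) (by simp) (by simp) (frH_pf (by simp) (by simp)) (by simp)
            (by simp) (fun A _ z _ => by simp) (hB.hw (5 : Fin 6)))
        · simp only [Cn, List.forall_mem_cons, List.not_mem_nil, false_implies, implies_true,
            true_and, and_true, ev_X, map_add, map_sub, map_neg, map_mul, map_one, map_zero, mul_one,
            add_zero]
          constructor <;> intro e <;> linear_combination e
        · simp only [Cn, List.forall_mem_cons, map_sub, ev_X] at hz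
          refine ⟨?_, rfl⟩
          rw [ev_X, ev_X]
          linear_combination hz.1.1
      have g1 : Gd G (Pc F [1 + X 1, X 2] [X 1, X 5 - X 0] (X 0)
          (X 5 : MvPolynomial (Fin 6) ℤ)) := by
        have k1 := hc_zero hG 2 (by simp) (by simp) (frH_pf (by simp) (by simp)) g0
        have k2 := hc_solve hG 1 1 1 (by simp) (by simp) (frH_pf (by simp) (by simp)) (by simp)
          (by simp) (fun A _ z _ => by simp) k1
        refine hc_congr (fun A _ z => ?_) (fun A _ z x w _ => rfl) k2
        simp only [Cn, List.forall_mem_cons, List.not_mem_nil, false_implies, implies_true,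
          true_and, and_true, ev_X, map_add, map_sub, map_neg, map_mul, map_one, map_zero, mul_one,
          add_zero]
        constructor
        · rintro ⟨⟨e, e2⟩, u0⟩
          have : z 1 = -1 := by linear_combination e
          exact ⟨⟨by linear_combination e, e2⟩, by rw [this]; exact isUnit_one.neg, u0⟩
        · rintro ⟨⟨e, e2⟩, u1, u0⟩
          exact ⟨⟨by linear_combination e, e2⟩, u0⟩
      have g2 : Gd G (Pc F [1 + X 1, X 2] [X 1, X 0] (X 5 - X 0)
          (X 5 : MvPolynomial (Fin 6) ℤ)) := by
        refine (pc_aff hG.cp0 (Z := [1 + X 1, X 2]) (U := [X 1, X 0]) 0 (-1) (X 5)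
          (by simp) (by simp) (fun A _ z hz => by simp) (fun A _ z hz => by simp) ?_).mpr g1
        intro A _ z z' _ h1 h2
        have e1 := h1 1 (by decide)
        have e2 := h1 2 (by decide)
        have e5 := h1 5 (by decide)
        simp only [map_neg, map_one, ev_X] at h2
        have e6 : z 5 - (z 0 * -1 + z 5) = z 0 := by ring
        simp only [Cn, List.forall_mem_cons, List.not_mem_nil, false_implies, implies_true,
          true_and, and_true, ev_X, map_add, map_sub, map_neg, map_mul, map_one, map_zero, mul_one,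
          add_zero]
        simp only [e1, e2, e5, h2, e6, true_and, true_implies, iff_self]
        intro _
        exact ⟨by ring, trivial⟩
      refine (pc_aff hG.cp0 (Z := [1 + X 1, X 2]) (U := [X 1, X 0]) 5 (-1) 0
        (by simp) (by simp) (fun A _ z hz => by simp) (fun A _ z hz => by simp) ?_).mpr g2
      intro A _ z z' _ h1 h2
      have e0 := h1 0 (by decide)
      have e1 := h1 1 (by decide)
      have e2 := h1 2 (by decide)
      simp only [map_neg, map_one, map_zero, add_zero, ev_X] at h2
      simp only [Cn, List.forall_mem_cons, List.not_mem_nil, false_implies, implies_true,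
        true_and, and_true, ev_X, map_add, map_sub, map_neg, map_mul, map_one, map_zero, mul_one,
        add_zero]
      simp only [e0, e1, e2, h2, true_and, true_implies, iff_self]
      rintro ⟨⟨e, _⟩, _⟩
      have e3 : z 1 = -1 := by linear_combination e
      rw [e3]
      constructor <;> ring
    · -- `1 + a` is a unit
      refine (pc_aff hG.cp0 (Z := [X 2]) (U := [1 + X 1, X 1, X 0]) (Z' := [X 2])
        (U' := [1 + X 1, X 1, X 0]) (u' := X 4) (v' := X 5 * X 1) 4 (1 + X 1) ((X 5 + X 0) * X 1)
        (by simp) (by simp (maxDischargeDepth := 30)) (fun A _ z hz => ?_) (fun A _ z hz => ?_)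
        ?_).mpr ?_
      · simp [Cn] at hz ⊢
        tauto
      · simp [Cn] at hz ⊢
        tauto
      · intro A _ z z' _ h1 h2
        have e0 := h1 0 (by decide)
        have e1 := h1 1 (by decide)
        have e2 := h1 2 (by decide)
        have e5 := h1 5 (by decide)
        simp only [map_add, map_mul, map_one, ev_X] at h2
        simp only [Cn, List.forall_mem_cons, List.not_mem_nil, false_implies, implies_true,
          true_and, and_true, ev_X, map_add, map_sub, map_neg, map_mul, map_one, map_zero, mul_one,
          add_zero]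
        simp only [e0, e1, e2, e5, h2, true_and, true_implies, iff_self]
        intro _
        exact ⟨by ring, trivial⟩
      · refine (pc_aff hG.cp0 (Z := [X 2]) (U := [1 + X 1, X 1, X 0]) (Z' := [X 2])
          (U' := [1 + X 1, X 1, X 0]) (u' := X 4) (v' := X 5) 5 (X 1) 0
          (by simp) (by simp) (fun A _ z hz => ?_) (fun A _ z hz => ?_) ?_).mpr
          (rg_1b hG (frH_pf (by simp) (by simp)) (frH_pf (by simp) (by simp))
            (frH_pf (by simp) (by simp)) (hB.ph (4 : Fin 6) 5 (by decide)))
        · simp [Cn] at hz ⊢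
          tauto
        · simp [Cn] at hz ⊢
          tauto
        · intro A _ z z' _ h1 h2
          have e0 := h1 0 (by decide)
          have e1 := h1 1 (by decide)
          have e2 := h1 2 (by decide)
          have e4 := h1 4 (by decide)
          simp only [map_zero, add_zero, ev_X] at h2
          simp only [Cn, List.forall_mem_cons, List.not_mem_nil, false_implies, implies_true,
            true_and, and_true, ev_X, map_add, map_sub, map_neg, map_mul, map_one, map_zero, mul_one,
            add_zero]
          simp only [e0, e1, e2, e4, h2, true_and, true_implies, iff_self, and_self, implies_true]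
  refine pc_congr (fun A _ z => Iff.rfl) (fun A _ z hz => ?_) h
  have e2 : z 2 = 0 := by
    have := hz.1 (X 2) (by simp)
    rwa [ev_X] at this
  simp only [Cn, List.forall_mem_cons, List.not_mem_nil, false_implies, implies_true,
    true_and, and_true, ev_X, map_add, map_sub, map_neg, map_mul, map_one, map_zero, mul_one,
    add_zero]
  rw [e2]
  constructor <;> ring

/-- `a = 0` -/
lemma st_2b_2 : Gd G (Pc F [X 1] [X 0]
    ((X 5 + X 0) * (X 1 * (1 + X 2)) + X 3 * (X 1 * X 2) + X 4 * ((1 + X 1) * (1 + X 2)))
    (X 5 * (X 1 - X 2) : MvPolynomial (Fin 6) ℤ)) := by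
  have h : Gd G (Pc F [X 1] [X 0] (X 4 * (1 + X 2)) (-(X 5 * X 2) : MvPolynomial (Fin 6) ℤ)) := by
    refine hc_glue hG.cp0 (1 + X 2) ?_ ?_
    · -- `b = -1`
      have k0 := hc_gm hG 0 (by simp) (by simp) (frH_pf (by simp) (by simp))
        (hc_zero hG 1 (by simp) (by simp) (frH_pf (by simp) (by simp)) (hB.hv (5 : Fin 6)))
      have k2 := hc_solve hG 2 1 1 (by simp) (by simp) (frH_pf (by simp) (by simp)) (by simp)
        (by simp) (fun A _ z _ => by simp) k0
      refine pc_congr (fun A _ z => ?_) (fun A _ z hz => ?_) k2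
      · simp only [Cn, List.forall_mem_cons, List.not_mem_nil, false_implies, implies_true,
          true_and, and_true, ev_X, map_add, map_sub, map_neg, map_mul, map_one, map_zero, mul_one,
          add_zero]
        constructor
        · rintro ⟨⟨e, e2⟩, u0⟩
          exact ⟨⟨by linear_combination e, e2⟩, u0⟩
        · rintro ⟨⟨e, e2⟩, u0⟩
          exact ⟨⟨by linear_combination e, e2⟩, u0⟩
      · have e := hz.1 (1 + X 2) (by simp)
        rw [map_add, map_one, ev_X] at e
        have e3 : z 2 = -1 := by linear_combination e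
        simp only [Cn, List.forall_mem_cons, List.not_mem_nil, false_implies, implies_true,
          true_and, and_true, ev_X, map_add, map_sub, map_neg, map_mul, map_one, map_zero, mul_one,
          add_zero]
        rw [e3]
        constructor <;> ring
    · refine (pc_aff hG.cp0 (Z := [X 1]) (U := [1 + X 2, X 0]) (Z' := [X 1])
        (U' := [1 + X 2, X 0]) (u' := X 4) (v' := -(X 5 * X 2)) 4 (1 + X 2) 0
        (by simp) (by simp) (fun A _ z hz => ?_) (fun A _ z hz => ?_) ?_).mpr ?_
      · simp [Cn] at hz ⊢
        tauto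
      · simp [Cn] at hz ⊢
        tauto
      · intro A _ z z' _ h1 h2
        have e0 := h1 0 (by decide)
        have e1 := h1 1 (by decide)
        have e2 := h1 2 (by decide)
        have e5 := h1 5 (by decide)
        simp only [map_add, map_zero, add_zero, map_one, ev_X] at h2
        simp only [Cn, List.forall_mem_cons, List.not_mem_nil, false_implies, implies_true,
          true_and, and_true, ev_X, map_add, map_sub, map_neg, map_mul, map_one, map_zero, mul_one,
          add_zero]
        simp only [e0, e1, e2, e5, h2, true_and, true_implies, iff_self, and_self, implies_true]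
      refine hc_glue hG.cp0 (X 2) ?_ ?_
      · -- `b = 0`
        have k0 := hc_gm hG 0 (by simp) (by simp) (frH_pf (by simp) (by simp))
          (hc_zero hG 1 (by simp) (by simp) (frH_pf (by simp) (by simp)) (hB.hu (4 : Fin 6)))
        have k2 := hc_zero hG 2 (by simp) (by simp) (frH_pf (by simp) (by simp)) k0
        refine pc_congr (fun A _ z => ?_) (fun A _ z hz => ?_) k2
        · simp only [Cn, List.forall_mem_cons, List.not_mem_nil, false_implies, implies_true,
            true_and, and_true, ev_X, map_add, map_sub, map_neg, map_mul, map_one, map_zero, mul_one,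
            add_zero]
          constructor
          · rintro ⟨⟨e, e2⟩, u0⟩
            exact ⟨⟨e, e2⟩, by rw [e, add_zero]; exact isUnit_one, u0⟩
          · rintro ⟨⟨e, e2⟩, _, u0⟩
            exact ⟨⟨e, e2⟩, u0⟩
        · have e := hz.1 (X 2) (by simp)
          rw [ev_X] at e
          simp only [Cn, List.forall_mem_cons, List.not_mem_nil, false_implies, implies_true,
            true_and, and_true, ev_X, map_add, map_sub, map_neg, map_mul, map_one, map_zero, mul_one,
            add_zero]
          rw [e]
          ring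
      · refine (pc_aff hG.cp0 (Z := [X 1]) (U := [X 2, 1 + X 2, X 0]) (Z' := [X 1])
          (U' := [X 2, 1 + X 2, X 0]) (u' := X 4) (v' := X 5) 5 (-X 2) 0
          (by simp) (by simp) (fun A _ z hz => ?_) (fun A _ z hz => ?_) ?_).mpr
          (rg_2 hG (frH_pf (by simp) (by simp)) (frH_pf (by simp) (by simp))
            (frH_pf (by simp) (by simp)) (hB.ph (4 : Fin 6) 5 (by decide)))
        · simp [Cn] at hz ⊢
          tauto
        · simp [Cn] at hz ⊢
          tauto
        · intro A _ z z' _ h1 h2
          have e0 := h1 0 (by decide)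
          have e1 := h1 1 (by decide)
          have e2 := h1 2 (by decide)
          have e4 := h1 4 (by decide)
          simp only [map_neg, map_zero, add_zero, ev_X] at h2
          simp only [Cn, List.forall_mem_cons, List.not_mem_nil, false_implies, implies_true,
            true_and, and_true, ev_X, map_add, map_sub, map_neg, map_mul, map_one, map_zero, mul_one,
            add_zero]
          simp only [e0, e1, e2, e4, h2, true_and, true_implies, iff_self, mul_neg, and_self,
            implies_true]
  refine pc_congr (fun A _ z => Iff.rfl) (fun A _ z hz => ?_) h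
  have e1 : z 1 = 0 := by
    have := hz.1 (X 1) (by simp)
    rwa [ev_X] at this
  simp only [Cn, List.forall_mem_cons, List.not_mem_nil, false_implies, implies_true,
    true_and, and_true, ev_X, map_add, map_sub, map_neg, map_mul, map_one, map_zero, mul_one,
    add_zero]
  rw [e1]
  constructor <;> ring

/-- the parameters are `y1`, `a`, `b`, `x0`, `x1`, `ρ` -/
theorem st_2b : Gd G (Pc F [] [X 0]
    ((X 5 + X 0) * (X 1 * (1 + X 2)) + X 3 * (X 1 * X 2) + X 4 * ((1 + X 1) * (1 + X 2)))
    (X 5 * (X 1 - X 2) : MvPolynomial (Fin 6) ℤ)) :=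
  hc_glue hG.cp0 (X 1) (st_2b_2 hG hB)
    (hc_glue hG.cp0 (X 2) (st_2b_1b hG hB) (st_2b_1a hG hB))

end Pool.Agent.Sym3
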