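import Pool.Agent.Sym3.StE

/-!
# From the ring to the vertex of degree four
-/

set_option autoImplicit false
set_option linter.unusedSectionVars false
set_option linter.unusedVariables false
set_option linter.unusedSimpArgs false

open Matrix MvPolynomial
open Pool.Agent.Helper81.CP Pool.Agent.Helper81.HG Pool.Agent.Phi4

namespace Pool.Agent.Sym3

/-! ### The products of the cone with the line and with the plane -/

section

variable {G : ∀ (R : Type) [CommRing R], Prop} {σ : Type} [Finite σ] {F : Fam σ}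

/-- the product with the line as a piece with four parameters -/
lemma st_m1 (hG : CP0 G)
    (h : Gd G (fun A _ (x : Option ((Fin 0 ⊕ Fin 4) ⊕ σ) → A) =>
      Pc F [] [] 0 (0 : MvPolynomial (Fin 0) ℤ) A (fun i => x (some i)))) (a : Fin 4)
    (Z : List (MvPolynomial (Fin 4) ℤ))
    (hZ : ∀ (A : Type) [CommRing A] (z : Fin 4 → A), Cn Z [] A z ↔ ∀ i, i ≠ a → z i = 0) :
    Gd G (Pc F Z [] 0 (0 : MvPolynomial (Fin 4) ℤ)) := by
  refine gd_iso hG (rp_hc _ _ _)
    (fun A _ x => Sum.elim (Sum.elim (fun i => if i = a then x none else 0)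
      (fun i => x (some (Sum.inl (Sum.inr i))))) (fun i => x (some (Sum.inr i))))
    (fun A _ y => fun o => o.elim (y (Sum.inl (Sum.inl a)))
      (Sum.elim (Sum.elim finZeroElim (fun i => y (Sum.inl (Sum.inr i))))
        (fun i => y (Sum.inr i)))) ?_ ?_ ?_ ?_ ?_ ?_ h
  · intro A B _ _ φ x _ j
    rcases j with (j | j) | j
    · show φ (if j = a then x none else 0) = if j = a then φ (x none) else 0
      split_ifs
      · rfl
      · exact map_zero φ
    · rfl
    · rfl
  · intro A B _ _ φ y _ i
    rcases i with _ | ((i | i) | i)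
    · rfl
    · exact i.elim0
    · rfl
    · rfl
  · intro A _ x hx
    refine ⟨(hZ A _).mpr fun i hi => ?_, ?_⟩
    · show (if i = a then x none else 0) = 0
      rw [if_neg hi]
    · have h1 := hx.2
      simp only [pf_F, map_zero] at h1 ⊢
      exact h1
  · intro A _ y hy
    refine ⟨cn_nil _, ?_⟩
    have h1 := hy.2
    simp only [pf_F, map_zero] at h1 ⊢
    exact h1
  · intro A _ x hx
    funext o
    rcases o with _ | ((i | i) | i)
    · show (if a = a then x none else 0) = x none
      rw [if_pos rfl]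
    · exact i.elim0
    · rfl
    · rfl
  · intro A _ y hy
    have h1 := (hZ A _).mp hy.1
    funext j
    rcases j with (j | j) | j
    · show (if j = a then y (Sum.inl (Sum.inl a)) else 0) = y (Sum.inl (Sum.inl j))
      split_ifs with hj
      · rw [hj]
      · exact (h1 j hj).symm
    · rfl
    · rfl

/-- the product with the plane as a piece with four parameters -/
lemma st_m2 (hG : CP0 G)
    (h : Gd G (Pc F [X 1, X 2] [] 0 (0 : MvPolynomial (Fin 4) ℤ))) :
    Gd G (fun A _ (x : Option (Option ((Fin 0 ⊕ Fin 4) ⊕ σ)) → A) =>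
      Pc F [] [] 0 (0 : MvPolynomial (Fin 0) ℤ) A (fun i => x (some (some i)))) := by
  have hc : ∀ (A : Type) [CommRing A] (z : Fin 4 → A),
      Cn [X 1, X 2] [] A z ↔ z 1 = 0 ∧ z 2 = 0 := by
    intro A _ z
    simp only [Cn, List.forall_mem_cons, List.not_mem_nil, false_implies, implies_true,
        and_true, ev_X]
  refine gd_iso hG (rp_ext (fun i => some (some i)) (rp_hc _ _ _))
    (fun A _ y => fun o => o.elim (y (Sum.inl (Sum.inl 0))) (fun o' => o'.elim
      (y (Sum.inl (Sum.inl 3))) (Sum.elim (Sum.elim finZeroElim (fun i => y (Sum.inl (Sum.inr i))))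
        (fun i => y (Sum.inr i)))))
    (fun A _ x => Sum.elim (Sum.elim ![x none, 0, 0, x (some none)]
      (fun i => x (some (some (Sum.inl (Sum.inr i)))))) (fun i => x (some (some (Sum.inr i)))))
    ?_ ?_ ?_ ?_ ?_ ?_ h
  · intro A B _ _ φ y _ i
    rcases i with _ | _ | ((i | i) | i)
    · rfl
    · rfl
    · exact i.elim0
    · rfl
    · rfl
  · intro A B _ _ φ x _ j
    rcases j with (j | j) | j
    · show φ (![x none, 0, 0, x (some none)] j) = ![φ (x none), 0, 0, φ (x (some none))] j
      rw [vec4_map, map_zero]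
    · rfl
    · rfl
  · intro A _ y hy
    refine ⟨cn_nil _, ?_⟩
    have h1 := hy.2
    simp only [pf_F, map_zero] at h1 ⊢
    exact h1
  · intro A _ x hx
    refine ⟨(hc A _).mpr ⟨rfl, rfl⟩, ?_⟩
    have h1 := hx.2
    simp only [pf_F, map_zero] at h1 ⊢
    exact h1
  · intro A _ y hy
    obtain ⟨h1, h2⟩ := (hc A _).mp hy.1
    funext j
    rcases j with (j | j) | j
    · fin_cases j
      · rfl
      · exact h1.symm
      · exact h2.symm
      · rfl
    · rfl
    · rfl
  · intro A _ x hx
    funext o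
    rcases o with _ | _ | ((i | i) | i)
    · rfl
    · rfl
    · exact i.elim0
    · rfl
    · rfl

end

/-! ### The pieces -/

section

variable {G : ∀ (R : Type) [CommRing R], Prop} (hG : RG G) (hW : WT G) {σ : Type} [Finite σ]
  {F : Fam σ} (hB : Bs G F)

include hG hB

/-- the plane, with `t`, `1 + t` and `m` invertible -/
lemma st_p1 : Gd G (Pc F [] [1 + X 1, X 1, X 0] (X 3) (X 2 : MvPolynomial (Fin 4) ℤ)) := by
  have h0 : Gd G (Pc F [] [X 0] (X 3) (X 2 : MvPolynomial (Fin 4) ℤ)) :=
    hc_gm hG 0 (by simp) (by simp) (frH_pf (by simp) (by simp)) (hB.ph 3 2 (by decide))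
  refine hc_opn hG.cp0 (1 + X 1) ?_ ?_
  · exact hc_gm hG 1 (by simp) (by simp) (frH_pf (by simp) (by simp)) h0
  · have h1 := hc_solve hG 1 1 1 (by simp) (by simp) (frH_pf (by simp) (by simp)) (by simp)
      (by simp) (fun A _ z _ => by simp) h0
    refine pc_congr (fun A _ z => ?_) (fun A _ z hz => ⟨rfl, rfl⟩) h1
    simp only [Cn, List.forall_mem_cons, List.not_mem_nil, false_implies, implies_true,
      and_true, ev_X, map_add, map_mul, map_one, mul_one]
    constructor
    · rintro ⟨h, h'⟩
      have h2 : z 1 = -1 := by linear_combination h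
      exact ⟨by linear_combination h, by rw [h2]; exact isUnit_one.neg, h'⟩
    · rintro ⟨h, _, h'⟩
      exact ⟨by linear_combination h, h'⟩

/-- the total space of the part where `a`, `b`, `a + b` are invertible -/
lemma st_tot : Gd G (Pc F [] [1 + X 1, X 1, X 0] (X 3)
    (X 1 * (X 0 - X 0 * ((1 + X 1) * X 2) - X 3) : MvPolynomial (Fin 4) ℤ)) := by
  have hu : ∀ (A : Type) [CommRing A] (z : Fin 4 → A), Cn [] [1 + X 1, X 1, X 0] A z →
      IsUnit (1 + z 1) ∧ IsUnit (z 1) ∧ IsUnit (z 0) := by
    intro A _ z hz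
    simpa [Cn] using hz
  refine (pc_aff (κ := Fin 4) hG.cp0 (Z' := []) (U' := [1 + X 1, X 1, X 0]) (u' := X 3) (v' := X 2) 2
    (-(X 1 * X 0 * (1 + X 1))) (X 1 * (X 0 - X 3)) (by simp (maxDischargeDepth := 30))
    (by simp (maxDischargeDepth := 30))
    (fun A _ z hz => ?_) (fun A _ z hz => ?_) ?_).mpr (st_p1 hG hB)
  · obtain ⟨h1, h2, h3⟩ := hu A z hz
    simp only [map_neg, map_mul, map_add, map_one, ev_X]
    exact ((h2.mul h3).mul h1).neg
  · obtain ⟨h1, h2, h3⟩ := hu A z hz
    simp only [map_neg, map_mul, map_add, map_one, ev_X]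
    exact ((h2.mul h3).mul h1).neg
  · intro A _ z z' _ h1 h2
    have e0 := h1 0 (by decide)
    have e1 := h1 1 (by decide)
    have e3 := h1 3 (by decide)
    simp only [map_add, map_one, ev_X, map_mul, map_sub, map_neg] at h2
    simp only [Cn, List.forall_mem_cons, List.not_mem_nil, false_implies, implies_true,
      true_and, and_true, ev_X, map_add, map_one, map_mul, map_neg, map_sub, e0, e1, e3, h2]
    intro _
    ring

/-- the plane, with `t` and `1 + t` invertible -/
lemma st_p2 : Gd G (Pc F [X 2] [1 + X 1, X 1] (X 3) (X 0 : MvPolynomial (Fin 4) ℤ)) := by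
  have h0 : Gd G (Pc F [X 2] [] (X 3) (X 0 : MvPolynomial (Fin 4) ℤ)) :=
    hc_zero hG 2 (by simp) (by simp) (frH_pf (by simp) (by simp)) (hB.ph 3 0 (by decide))
  refine hc_opn hG.cp0 (1 + X 1) ?_ ?_
  · exact hc_gm hG 1 (by simp) (by simp) (frH_pf (by simp) (by simp)) h0
  · have h1 := hc_solve hG 1 1 1 (by simp) (by simp) (frH_pf (by simp) (by simp)) (by simp)
      (by simp) (fun A _ z _ => by simp) h0
    refine pc_congr (fun A _ z => ?_) (fun A _ z hz => ⟨rfl, rfl⟩) h1
    simp only [Cn, List.forall_mem_cons, List.not_mem_nil, false_implies, implies_true,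
      and_true, ev_X, map_add, map_mul, map_one, mul_one]
    constructor
    · rintro ⟨h, h'⟩
      have h2 : z 1 = -1 := by linear_combination h
      exact ⟨⟨by linear_combination h, h'⟩, by rw [h2]; exact isUnit_one.neg⟩
    · rintro ⟨⟨h, h'⟩, _⟩
      exact ⟨by linear_combination h, h'⟩

/-- the total space of the part `b = 0` -/
lemma st_tot2 : Gd G (Pc F [X 2] [1 + X 1, X 1] (X 3)
    (X 1 * (X 0 - X 3) : MvPolynomial (Fin 4) ℤ)) := by
  have hu : ∀ (A : Type) [CommRing A] (z : Fin 4 → A), Cn [X 2] [1 + X 1, X 1] A z →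
      IsUnit (z 1) := by
    intro A _ z hz
    simp only [Cn, List.forall_mem_cons, List.not_mem_nil, false_implies, implies_true,
        and_true, ev_X] at hz
    exact hz.2.2
  refine (pc_aff (κ := Fin 4) hG.cp0 (Z' := [X 2]) (U' := [1 + X 1, X 1]) (u' := X 3) (v' := X 0) 0
    (X 1) (-(X 1 * X 3)) (by simp) (by simp (maxDischargeDepth := 30))
    (fun A _ z hz => ?_) (fun A _ z hz => ?_) ?_).mpr (st_p2 hG hB)
  · rw [ev_X]
    exact hu A z hz
  · rw [ev_X]
    exact hu A z hz
  · intro A _ z z' _ h1 h2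
    have e1 := h1 1 (by decide)
    have e2 := h1 2 (by decide)
    have e3 := h1 3 (by decide)
    simp only [map_add, map_one, ev_X, map_mul, map_sub, map_neg] at h2
    simp only [Cn, List.forall_mem_cons, List.not_mem_nil, false_implies, implies_true,
      true_and, and_true, ev_X, map_add, map_one, map_mul, map_neg, map_sub, e1, e2, e3, h2]
    intro _
    ring

/-- the plane without a line -/
lemma st_p3 : Gd G (Pc F [] [X 1, X 0] (X 3) (X 3 + X 0 : MvPolynomial (Fin 4) ℤ)) := by
  refine hc_gm hG 1 (by simp) (by simp) (frH_pf (by simp) (by simp)) ?_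
  refine hc_opn hG.cp0 (X 0) ?_ ?_
  · refine (pc_aff (κ := Fin 4) hG.cp0 (Z' := []) (U' := []) (u' := X 3) (v' := X 0) 0
      1 (X 3) (by simp) (by simp) (by simp) (by simp) ?_).mpr (hB.ph 3 0 (by decide))
    intro A _ z z' _ h1 h2
    have e3 := h1 3 (by decide)
    simp only [map_one, ev_X] at h2
    simp only [Cn, List.not_mem_nil, false_implies, implies_true,
      true_and, and_true, ev_X, map_add, e3, h2]
    intro _
    ring
  · have h0 : Gd G (Pc F [X 0] [] (X 3) (X 3 : MvPolynomial (Fin 4) ℤ)) :=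
      hc_zero hG 0 (by simp) (by simp) (frH_pf (by simp) (by simp)) (hB.hw 3)
    refine pc_congr (fun A _ z => Iff.rfl) (fun A _ z hz => ?_) h0
    simp only [Cn, List.forall_mem_cons, List.not_mem_nil, false_implies, implies_true,
      and_true, ev_X] at hz
    simp only [map_add, ev_X, hz, add_zero, and_self]

/-- the part where `a + b = 0` -/
lemma st_q1 : Gd G (Pc F [X 1 + X 2] [X 1, X 2, X 0] (X 0 * (X 2 * X 3))
      (X 0 * (X 1 * (1 - X 1 - X 2 - X 3)) : MvPolynomial (Fin 4) ℤ)) := by
  have hu : ∀ (A : Type) [CommRing A] (z : Fin 4 → A), Cn [] [X 1, X 0] A z →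
      IsUnit (z 1) ∧ IsUnit (z 0) := by
    intro A _ z hz
    simpa [Cn] using hz
  have h1 : Gd G (Pc F [] [X 1, X 0] (X 3) (X 3 + X 0 * X 1 : MvPolynomial (Fin 4) ℤ)) := by
    refine (pc_aff (κ := Fin 4) hG.cp0 (Z' := []) (U' := [X 1, X 0]) (u' := X 3)
      (v' := X 3 + X 0) 0 (X 1) 0 (by simp) (by simp)
      (fun A _ z hz => ?_) (fun A _ z hz => ?_) ?_).mpr (st_p3 hG hB)
    · rw [ev_X]
      exact (hu A z hz).1
    · rw [ev_X]
      exact (hu A z hz).1
    · intro A _ z z' h0 h1 h2
      have e1 := h1 1 (by decide)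
      have e3 := h1 3 (by decide)
      rw [ev_X] at h0
      simp only [map_zero, ev_X, add_zero] at h2
      simp only [Cn, List.forall_mem_cons, List.not_mem_nil, false_implies, implies_true,
        true_and, and_true, ev_X, map_add, map_mul, e1, e3, h2, IsUnit.mul_iff, h0]
  have h2 : Gd G (Pc F [] [X 1, X 0] (-(X 0 * X 1 * X 3))
      (X 0 * X 1 * (1 - X 3) : MvPolynomial (Fin 4) ℤ)) := by
    refine (pc_aff (κ := Fin 4) hG.cp0 (Z' := []) (U' := [X 1, X 0]) (u' := X 3)
      (v' := X 3 + X 0 * X 1) 3 (-(X 0 * X 1)) 0 (by simp (maxDischargeDepth := 30)) (by simp)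
      (fun A _ z hz => ?_) (fun A _ z hz => ?_) ?_).mpr h1
    · rw [map_neg, map_mul, ev_X, ev_X]
      exact ((hu A z hz).2.mul (hu A z hz).1).neg
    · rw [map_neg, map_mul, ev_X, ev_X]
      exact ((hu A z hz).2.mul (hu A z hz).1).neg
    · intro A _ z z' h0 h1 h2
      have e0 := h1 0 (by decide)
      have e1 := h1 1 (by decide)
      simp only [map_zero, ev_X, add_zero, map_neg, map_mul] at h2
      simp only [Cn, List.forall_mem_cons, List.not_mem_nil, false_implies, implies_true,
        true_and, and_true, ev_X, map_add, map_mul, map_neg, map_sub, map_one, e0, e1, h2]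
      intro _
      constructor <;> ring
  have h3 := hc_solve hG 2 1 (X 1) (by simp) (by simp)
    (frH_pf (by simp (maxDischargeDepth := 30)) (by simp (maxDischargeDepth := 30))) (by simp)
    (by simp) (fun A _ z _ => by simp) h2
  refine pc_congr (fun A _ z => ?_) (fun A _ z hz => ?_) h3
  · simp only [Cn, List.forall_mem_cons, List.not_mem_nil, false_implies, implies_true,
      and_true, ev_X, map_add, map_mul, map_one, mul_one]
    constructor
    · rintro ⟨h, h', h''⟩
      have h4 : z 2 = - z 1 := by linear_combination h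
      exact ⟨by linear_combination h, h', by rw [h4]; exact h'.neg, h''⟩
    · rintro ⟨h, h', _, h''⟩
      exact ⟨by linear_combination h, h', h''⟩
  · simp only [Cn, List.forall_mem_cons, List.not_mem_nil, false_implies, implies_true,
      and_true, ev_X, map_add] at hz
    have h4 : z 2 = - z 1 := by linear_combination hz.1
    simp only [ev_X, map_add, map_mul, map_neg, map_sub, map_one, h4]
    constructor <;> ring

/-- the part where `a = 0` and `b` is invertible -/
lemma st_q2 : Gd G (Pc F [X 1] [X 2, X 0] (X 0 * (X 2 * X 3))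
      (X 0 * (X 1 * (1 - X 1 - X 2 - X 3)) : MvPolynomial (Fin 4) ℤ)) := by
  have hu : ∀ (A : Type) [CommRing A] (z : Fin 4 → A), Cn [X 1] [X 2, X 0] A z →
      IsUnit (z 0 * z 2) := by
    intro A _ z hz
    simp only [Cn, List.forall_mem_cons, List.not_mem_nil, false_implies, implies_true,
        and_true, ev_X] at hz
    exact hz.2.2.mul hz.2.1
  have h0 : Gd G (Pc F [X 1] [X 2, X 0] (X 3) (0 : MvPolynomial (Fin 4) ℤ)) := by
    refine hc_zero hG 1 (by simp) (by simp) (frH_pf (by simp) (by simp)) ?_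
    refine hc_gm hG 2 (by simp) (by simp) (frH_pf (by simp) (by simp)) ?_
    exact hc_gm hG 0 (by simp) (by simp) (frH_pf (by simp) (by simp)) (hB.hu 3)
  refine (pc_aff (κ := Fin 4) hG.cp0 (Z' := [X 1]) (U' := [X 2, X 0]) (u' := X 3) (v' := 0) 3
    (X 0 * X 2) 0 (by simp) (by simp)
    (fun A _ z hz => ?_) (fun A _ z hz => ?_) ?_).mpr h0
  · rw [map_mul, ev_X, ev_X]
    exact hu A z hz
  · rw [map_mul, ev_X, ev_X]
    exact hu A z hz
  · intro A _ z z' _ h1 h2
    have e0 := h1 0 (by decide)
    have e1 := h1 1 (by decide)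
    have e2 := h1 2 (by decide)
    simp only [map_add, map_one, ev_X, map_mul, map_sub, map_neg, map_zero] at h2
    simp only [Cn, List.forall_mem_cons, List.not_mem_nil, false_implies, implies_true,
      true_and, and_true, ev_X, map_add, map_one, map_mul, map_neg, map_sub, map_zero,
      e0, e1, e2, h2]
    rintro ⟨h3, _⟩
    rw [h3]
    constructor <;> ring

/-- the part where `b = 0` and `a` is invertible -/
lemma st_q3 : Gd G (Pc F [X 2] [X 1, X 0] (X 0 * (X 2 * X 3))
      (X 0 * (X 1 * (1 - X 1 - X 2 - X 3)) : MvPolynomial (Fin 4) ℤ)) := by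
  have hu : ∀ (A : Type) [CommRing A] (z : Fin 4 → A), Cn [X 2] [X 1, X 0] A z →
      IsUnit (-(z 0 * z 1)) := by
    intro A _ z hz
    simp only [Cn, List.forall_mem_cons, List.not_mem_nil, false_implies, implies_true,
        and_true, ev_X] at hz
    exact (hz.2.2.mul hz.2.1).neg
  have h0 : Gd G (Pc F [X 2] [X 1, X 0] 0 (X 3 : MvPolynomial (Fin 4) ℤ)) := by
    refine hc_zero hG 2 (by simp) (by simp) (frH_pf (by simp) (by simp)) ?_
    refine hc_gm hG 1 (by simp) (by simp) (frH_pf (by simp) (by simp)) ?_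
    exact hc_gm hG 0 (by simp) (by simp) (frH_pf (by simp) (by simp)) (hB.hv 3)
  refine (pc_aff (κ := Fin 4) hG.cp0 (Z' := [X 2]) (U' := [X 1, X 0]) (u' := 0) (v' := X 3) 3
    (-(X 0 * X 1)) (X 0 * (X 1 * (1 - X 1))) (by simp (maxDischargeDepth := 30))
    (by simp (maxDischargeDepth := 30))
    (fun A _ z hz => ?_) (fun A _ z hz => ?_) ?_).mpr h0
  · rw [map_neg, map_mul, ev_X, ev_X]
    exact hu A z hz
  · rw [map_neg, map_mul, ev_X, ev_X]
    exact hu A z hz
  · intro A _ z z' _ h1 h2
    have e0 := h1 0 (by decide)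
    have e1 := h1 1 (by decide)
    have e2 := h1 2 (by decide)
    simp only [map_add, map_one, ev_X, map_mul, map_sub, map_neg, map_zero] at h2
    simp only [Cn, List.forall_mem_cons, List.not_mem_nil, false_implies, implies_true,
      true_and, and_true, ev_X, map_add, map_one, map_mul, map_neg, map_sub, map_zero,
      e0, e1, e2, h2]
    rintro ⟨h3, _⟩
    rw [h3]
    constructor <;> ring

/-! ### The part which depends on the cone -/

/-- the part `b = 0`, `m = 0` -/
lemma st_c0 {G' : ∀ (R : Type) [CommRing R], Prop} (hG' : CP0 G')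
    (hle : ∀ (R : Type) [CommRing R], G R → G' R)
    (h : Gd G' (Pc F [X 3, X 0, X 2] [] 0 (0 : MvPolynomial (Fin 4) ℤ))) :
    Gd G' (Pc F [X 0, X 2] [1 + X 1, X 1] (X 3)
      (X 1 * (X 0 - X 3) : MvPolynomial (Fin 4) ℤ)) := by
  -- the line with `t` free
  have h1 : Gd G' (Pc F [X 0, X 2] [] (X 3) (-(X 1 * X 3) : MvPolynomial (Fin 4) ℤ)) := by
    refine hc_glue hG' (X 3) ?_ (gd_mono hle ?_)
    · refine pc_congr (fun A _ z => Iff.rfl) (fun A _ z hz => ?_) h
      simp only [Cn, List.forall_mem_cons, List.not_mem_nil, false_implies, implies_true,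
        and_true, ev_X] at hz
      simp only [map_neg, map_mul, map_zero, ev_X, hz.1, mul_zero, neg_zero, and_self]
    · have h2 : Gd G (Pc F [X 0, X 2] [X 3] (X 3) (X 1 : MvPolynomial (Fin 4) ℤ)) := by
        refine hc_opn hG.cp0 (X 3) ?_ ?_
        · refine hc_zero hG 0 (by simp) (by simp) (frH_pf (by simp) (by simp)) ?_
          exact hc_zero hG 2 (by simp) (by simp) (frH_pf (by simp) (by simp))
            (hB.ph 3 1 (by decide))
        · have h3 : Gd G (Pc F [X 3, X 0, X 2] [] 0 (X 1 : MvPolynomial (Fin 4) ℤ)) := by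
            refine hc_zero hG 3 (by simp) (by simp) (frH_pf (by simp) (by simp)) ?_
            refine hc_zero hG 0 (by simp) (by simp) (frH_pf (by simp) (by simp)) ?_
            exact hc_zero hG 2 (by simp) (by simp) (frH_pf (by simp) (by simp)) (hB.hv 1)
          refine pc_congr (fun A _ z => Iff.rfl) (fun A _ z hz => ?_) h3
          simp only [Cn, List.forall_mem_cons, List.not_mem_nil, false_implies, implies_true,
            and_true, ev_X] at hz
          simp only [map_zero, ev_X, hz.1, and_self]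
      have hu : ∀ (A : Type) [CommRing A] (z : Fin 4 → A), Cn [X 0, X 2] [X 3] A z →
          IsUnit (z 3) := by
        intro A _ z hz
        simp only [Cn, List.forall_mem_cons, List.not_mem_nil, false_implies, implies_true,
          and_true, ev_X] at hz
        exact hz.2
      refine (pc_aff (κ := Fin 4) hG.cp0 (Z' := [X 0, X 2]) (U' := [X 3]) (u' := X 3)
        (v' := X 1) 1 (-(X 3)) 0 (by simp) (by simp)
        (fun A _ z hz => ?_) (fun A _ z hz => ?_) ?_).mpr h2
      · rw [map_neg, ev_X]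
        exact (hu A z hz).neg
      · rw [map_neg, ev_X]
        exact (hu A z hz).neg
      · intro A _ z z' h0 h1 h2
        have e0 := h1 0 (by decide)
        have e2 := h1 2 (by decide)
        have e3 := h1 3 (by decide)
        simp only [map_zero, ev_X, add_zero, map_neg] at h2
        simp only [Cn, List.forall_mem_cons, List.not_mem_nil, false_implies, implies_true,
          true_and, and_true, ev_X, map_mul, map_neg, e0, e2, e3, h2]
        intro _
        ring
  -- without `t = 0`
  have h2 : Gd G' (Pc F [X 0, X 2] [X 1] (X 3) (-(X 1 * X 3) : MvPolynomial (Fin 4) ℤ)) := by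
    refine hc_opn hG' (X 1) h1 (gd_mono hle ?_)
    have h3 : Gd G (Pc F [X 1, X 0, X 2] [] (X 3) (0 : MvPolynomial (Fin 4) ℤ)) := by
      refine hc_zero hG 1 (by simp) (by simp) (frH_pf (by simp) (by simp)) ?_
      refine hc_zero hG 0 (by simp) (by simp) (frH_pf (by simp) (by simp)) ?_
      exact hc_zero hG 2 (by simp) (by simp) (frH_pf (by simp) (by simp)) (hB.hu 3)
    refine pc_congr (fun A _ z => Iff.rfl) (fun A _ z hz => ?_) h3
    simp only [Cn, List.forall_mem_cons, List.not_mem_nil, false_implies, implies_true,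
      and_true, ev_X] at hz
    simp only [map_neg, map_mul, map_zero, ev_X, hz.1, zero_mul, neg_zero, and_self]
  -- without `t = -1`
  have h4 : Gd G' (Pc F [X 0, X 2] [1 + X 1, X 1] (X 3)
      (-(X 1 * X 3) : MvPolynomial (Fin 4) ℤ)) := by
    refine hc_opn hG' (1 + X 1) h2 (gd_mono hle ?_)
    have h3 : Gd G (Pc F [X 0, X 2] [] (X 3) (X 3 : MvPolynomial (Fin 4) ℤ)) := by
      refine hc_zero hG 0 (by simp) (by simp) (frH_pf (by simp) (by simp)) ?_
      exact hc_zero hG 2 (by simp) (by simp) (frH_pf (by simp) (by simp)) (hB.hw 3)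
    have h5 := hc_solve hG 1 1 1 (by simp) (by simp) (frH_pf (by simp) (by simp)) (by simp)
      (by simp) (fun A _ z _ => by simp) h3
    refine pc_congr (fun A _ z => ?_) (fun A _ z hz => ?_) h5
    · simp only [Cn, List.forall_mem_cons, List.not_mem_nil, false_implies, implies_true,
        and_true, ev_X, map_add, map_mul, map_one, mul_one]
      constructor
      · rintro ⟨h, h'⟩
        have h2 : z 1 = -1 := by linear_combination h
        exact ⟨⟨by linear_combination h, h'⟩, by rw [h2]; exact isUnit_one.neg⟩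
      · rintro ⟨⟨h, h'⟩, _⟩
        exact ⟨by linear_combination h, h'⟩
    · simp only [Cn, List.forall_mem_cons, List.not_mem_nil, false_implies, implies_true,
        and_true, ev_X, map_add, map_one] at hz
      have h2 : z 1 = -1 := by linear_combination hz.1.1
      simp only [map_neg, map_mul, ev_X, h2, true_and]
      ring
  refine pc_congr (fun A _ z => Iff.rfl) (fun A _ z hz => ?_) h4
  simp only [Cn, List.forall_mem_cons, List.not_mem_nil, false_implies, implies_true,
    and_true, ev_X] at hz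
  simp only [map_neg, map_mul, map_sub, ev_X, hz.1.1, true_and]
  ring

/-- the part where `a`, `b` and `a + b` are invertible, in new coordinates -/
lemma st_a1 {G' : ∀ (R : Type) [CommRing R], Prop} (hG' : CP0 G')
    (hle : ∀ (R : Type) [CommRing R], G R → G' R)
    (h : Gd G' (Pc F [X 3, X 0, X 2] [] 0 (0 : MvPolynomial (Fin 4) ℤ))) :
    Gd G' (Pc F [] [X 2, 1 + X 1, X 1, X 0] (X 3)
      (X 1 * (X 0 - X 0 * ((1 + X 1) * X 2) - X 3) : MvPolynomial (Fin 4) ℤ)) := by
  refine hc_opn hG' (X 2) (gd_mono hle (st_tot hG hB)) ?_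
  have h1 := hc_opn hG' (X 0) (gd_mono hle (st_tot2 hG hB)) (st_c0 hG hB hG' hle h)
  refine pc_congr (fun A _ z => ?_) (fun A _ z hz => ?_) h1
  · simp only [Cn, List.forall_mem_cons, List.not_mem_nil, false_implies, implies_true,
      and_true, ev_X, map_add, map_one]
    tauto
  · simp only [Cn, List.forall_mem_cons, List.not_mem_nil, false_implies, implies_true,
      and_true, ev_X] at hz
    simp only [map_neg, map_mul, map_sub, map_add, map_one, ev_X, hz.1, true_and]
    ring

/-- the part where `a`, `b` and `a + b` are invertible -/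
lemma st_a2 {G' : ∀ (R : Type) [CommRing R], Prop} (hG' : CP0 G')
    (hle : ∀ (R : Type) [CommRing R], G R → G' R)
    (h : Gd G' (Pc F [X 3, X 0, X 2] [] 0 (0 : MvPolynomial (Fin 4) ℤ))) :
    Gd G' (Pc F [] [X 1 + X 2, X 1, X 2, X 0] (X 0 * (X 2 * X 3))
      (X 0 * (X 1 * (1 - X 1 - X 2 - X 3)) : MvPolynomial (Fin 4) ℤ)) := by
  have hu : ∀ (A : Type) [CommRing A] (z : Fin 4 → A), Cn [] [X 2, 1 + X 1, X 1, X 0] A z →
      IsUnit (z 2) ∧ IsUnit (1 + z 1) ∧ IsUnit (z 1) ∧ IsUnit (z 0) := by
    intro A _ z hz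
    simpa [Cn] using hz
  have hu' : ∀ (A : Type) [CommRing A] (z : Fin 4 → A), Cn [] [X 1 + X 2, X 1, X 2, X 0] A z →
      IsUnit (z 1 + z 2) ∧ IsUnit (z 1) ∧ IsUnit (z 2) ∧ IsUnit (z 0) := by
    intro A _ z hz
    simpa [Cn] using hz
  -- the parameter `3`
  have h1 : Gd G' (Pc F [] [X 2, 1 + X 1, X 1, X 0] (X 0 * X 3)
      (X 1 * (X 0 - X 0 * ((1 + X 1) * X 2) - X 0 * X 3) : MvPolynomial (Fin 4) ℤ)) := by
    refine (pc_aff (κ := Fin 4) hG' (Z' := []) (U' := [X 2, 1 + X 1, X 1, X 0]) (u' := X 3)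
      (v' := X 1 * (X 0 - X 0 * ((1 + X 1) * X 2) - X 3)) 3 (X 0) 0 (by simp) (by simp)
      (fun A _ z hz => ?_) (fun A _ z hz => ?_) ?_).mpr (st_a1 hG hB hG' hle h)
    · rw [ev_X]
      exact (hu A z hz).2.2.2
    · rw [ev_X]
      exact (hu A z hz).2.2.2
    · intro A _ z z' h0 h1 h2
      have e0 := h1 0 (by decide)
      have e1 := h1 1 (by decide)
      have e2 := h1 2 (by decide)
      simp only [map_zero, ev_X, add_zero] at h2
      simp only [Cn, List.forall_mem_cons, List.not_mem_nil, false_implies, implies_true,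
        true_and, and_true, ev_X, map_add, map_mul, map_neg, map_sub, map_one, e0, e1, e2, h2]
      intro _
      constructor <;> ring
  -- the parameter `0`
  have h2 : Gd G' (Pc F [] [X 2, 1 + X 1, X 1, X 0] (X 0 * (X 2 * X 3))
      (X 1 * (X 0 * X 2 * (1 - (1 + X 1) * X 2 - X 3)) : MvPolynomial (Fin 4) ℤ)) := by
    refine (pc_aff (κ := Fin 4) hG' (Z' := []) (U' := [X 2, 1 + X 1, X 1, X 0]) (u' := X 0 * X 3)
      (v' := X 1 * (X 0 - X 0 * ((1 + X 1) * X 2) - X 0 * X 3)) 0 (X 2) 0 (by simp) (by simp)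
      (fun A _ z hz => ?_) (fun A _ z hz => ?_) ?_).mpr h1
    · rw [ev_X]
      exact (hu A z hz).1
    · rw [ev_X]
      exact (hu A z hz).1
    · intro A _ z z' h0 h1 h2
      have e1 := h1 1 (by decide)
      have e2 := h1 2 (by decide)
      have e3 := h1 3 (by decide)
      rw [ev_X] at h0
      simp only [map_zero, ev_X, add_zero] at h2
      simp only [Cn, List.forall_mem_cons, List.not_mem_nil, false_implies, implies_true,
        true_and, and_true, ev_X, map_add, map_mul, map_neg, map_sub, map_one, e1, e2, e3, h2,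
        IsUnit.mul_iff, h0]
      intro _
      constructor <;> ring
  -- the parameter `1`
  refine (pc_aff (κ := Fin 4) hG' (Z := []) (U := [X 2, 1 + X 1, X 1, X 0])
    (u := X 0 * (X 2 * X 3))
    (v := X 1 * (X 0 * X 2 * (1 - (1 + X 1) * X 2 - X 3))) 1 (X 2) 0 (by simp) (by simp)
    (fun A _ z hz => ?_) (fun A _ z hz => ?_) ?_).mp h2
  · rw [ev_X]
    exact (hu A z hz).1
  · rw [ev_X]
    exact (hu' A z hz).2.2.1
  · intro A _ z z' h0 h1 h2
    have e0 := h1 0 (by decide)
    have e2 := h1 2 (by decide)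
    have e3 := h1 3 (by decide)
    rw [ev_X] at h0
    simp only [map_zero, ev_X, add_zero] at h2
    have e4 : z 1 * z 2 + z 2 = (1 + z 1) * z 2 := by ring
    simp only [Cn, List.forall_mem_cons, List.not_mem_nil, false_implies, implies_true,
      true_and, and_true, ev_X, map_add, map_mul, map_neg, map_sub, map_one, e0, e2, e3, h2, e4,
      IsUnit.mul_iff, h0]
    intro _
    ring

include hW

/-- the parameters are `S`, `a`, `b`, `d` (and `c = 1 - a - b - d`) -/
theorem st_2a (hT : Gd G (Pc F [] [X 0] (X 0 * (X 2 * X 3))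
      (X 0 * (X 1 * (1 - X 1 - X 2 - X 3)) : MvPolynomial (Fin 4) ℤ))) :
    Gd G (Pc F [] [] 0 (0 : MvPolynomial (Fin 0) ℤ)) := by
  refine gd_wt hG hW (rp_hc _ _ _) fun G' hG' hle h => ?_
  refine st_m2 hG' ?_
  -- the products with the line
  have m1 : Gd G' (Pc F [X 3, X 0, X 2] [] 0 (0 : MvPolynomial (Fin 4) ℤ)) := by
    refine st_m1 hG' h 1 _ fun A _ z => ?_
    simp only [Cn, List.forall_mem_cons, List.not_mem_nil, false_implies, implies_true,
      and_true, ev_X]
    constructor
    · rintro ⟨h3, h0, h2⟩ i hi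
      fin_cases i
      · exact h0
      · exact absurd rfl hi
      · exact h2
      · exact h3
    · intro h
      exact ⟨h 3 (by decide), h 0 (by decide), h 2 (by decide)⟩
  have m2 : Gd G' (Pc F [X 0, X 1, X 2] [] 0 (0 : MvPolynomial (Fin 4) ℤ)) := by
    refine st_m1 hG' h 3 _ fun A _ z => ?_
    simp only [Cn, List.forall_mem_cons, List.not_mem_nil, false_implies, implies_true,
      and_true, ev_X]
    constructor
    · rintro ⟨h0, h1, h2⟩ i hi
      fin_cases i
      · exact h0
      · exact h1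
      · exact h2
      · exact absurd rfl hi
    · intro h
      exact ⟨h 0 (by decide), h 1 (by decide), h 2 (by decide)⟩
  refine hc_glue hG' (X 0) m2 ?_
  -- the part where `b` is invertible
  have hb : Gd G' (Pc F [] [X 2, X 0] (X 0 * (X 2 * X 3))
      (X 0 * (X 1 * (1 - X 1 - X 2 - X 3)) : MvPolynomial (Fin 4) ℤ)) := by
    refine hc_glue hG' (X 1) (gd_mono hle (st_q2 hG hB)) ?_
    exact hc_glue hG' (X 1 + X 2) (gd_mono hle (st_q1 hG hB)) (st_a2 hG hB hG' hle m1)
  -- the part where `b = 0`
  have hz : Gd G' (Pc F [X 2] [X 0] (X 0 * (X 2 * X 3))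
      (X 0 * (X 1 * (1 - X 1 - X 2 - X 3)) : MvPolynomial (Fin 4) ℤ)) :=
    hc_closed hG' (X 2) (gd_mono hle hT) hb
  -- the part where `a = b = 0`
  have hd : Gd G' (Pc F [X 1, X 2] [X 0] (X 0 * (X 2 * X 3))
      (X 0 * (X 1 * (1 - X 1 - X 2 - X 3)) : MvPolynomial (Fin 4) ℤ)) :=
    hc_closed hG' (X 1) hz (gd_mono hle (st_q3 hG hB))
  refine pc_congr (fun A _ z => Iff.rfl) (fun A _ z hz => ?_) hd
  simp only [Cn, List.forall_mem_cons, List.not_mem_nil, false_implies, implies_true,
    and_true, ev_X] at hz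
  simp only [map_mul, map_sub, map_one, map_zero, ev_X, hz.1.1, hz.1.2, zero_mul, mul_zero,
    and_self]

end

end Pool.Agent.Sym3
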