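import Pool.Agent.Sym3.StE

/-!
# From the vertex of degree four of the graph with a rung to that of the graph
-/

set_option autoImplicit false
set_option linter.unusedSectionVars false
set_option linter.unusedVariables false
set_option linter.unusedSimpArgs false

open Matrix MvPolynomial
open Pool.Agent.Helper81.CP Pool.Agent.Helper81.HG Pool.Agent.Phi4

namespace Pool.Agent.Sym3

variable {G : ∀ (R : Type) [CommRing R], Prop} (hG : RG G) {σ : Type} [Finite σ] {F : Fam σ}
  (hB : Bs G F)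

include hG hB

/-- the parameters are `D`, `β`, `γ` -/
theorem st_3 (h : Gd G (Pc F [] [X 0] (X 0 * (X 1 * X 2)) (0 : MvPolynomial (Fin 3) ℤ))) :
    Gd G (Pc F [] [] 0 (0 : MvPolynomial (Fin 0) ℤ)) := by
  -- `γ` is invertible
  have h1 : Gd G (Pc F [] [X 0] (X 1) (0 : MvPolynomial (Fin 3) ℤ)) :=
    hc_gm hG 0 (by simp) (by simp) (frH_pf (by simp) (by simp)) (hB.hu (1 : Fin 3))
  have h2 : Gd G (Pc F [] [X 2, X 0] (X 1) (0 : MvPolynomial (Fin 3) ℤ)) :=
    hc_gm hG 2 (by simp) (by simp) (frH_pf (by simp) (by simp)) h1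
  have hu : ∀ (A : Type) [CommRing A] (z : Fin 3 → A), Cn [] [X 2, X 0] A z →
      IsUnit (z 2) ∧ IsUnit (z 0) := by
    intro A _ z hz
    simpa [Cn] using hz
  have h3 : Gd G (Pc F [] [X 2, X 0] (X 0 * (X 1 * X 2)) (0 : MvPolynomial (Fin 3) ℤ)) := by
    refine (pc_aff hG.cp0 (Z := []) (U := [X 2, X 0]) 1 (X 0 * X 2) 0 (by simp) (by simp)
      (fun A _ z hz => ?_) (fun A _ z hz => ?_) ?_).mpr h2
    · rw [map_mul, ev_X, ev_X]
      exact (hu A z hz).2.mul (hu A z hz).1
    · rw [map_mul, ev_X, ev_X]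
      exact (hu A z hz).2.mul (hu A z hz).1
    · intro A _ z z' _ h1 h2
      have e0 := h1 0 (by decide)
      have e2 := h1 2 (by decide)
      simp only [map_mul, ev_X, map_zero, add_zero] at h2
      simp only [Cn, List.forall_mem_cons, List.not_mem_nil, false_implies, implies_true,
        true_and, and_true, ev_X, map_mul, map_zero, e0, e2, h2]
      intro _
      ring
  -- `γ = 0`
  have h4 : Gd G (Pc F [X 2] [X 0] (X 0 * (X 1 * X 2)) (0 : MvPolynomial (Fin 3) ℤ)) :=
    hc_closed hG.cp0 (X 2) h h3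
  have h5 : Gd G (Pc F [X 2] [X 0] 0 (0 : MvPolynomial (Fin 3) ℤ)) := by
    refine pc_congr (fun A _ z => Iff.rfl) (fun A _ z hz => ?_) h4
    simp only [Cn, List.forall_mem_cons, List.not_mem_nil, false_implies, implies_true,
      and_true, ev_X] at hz
    simp only [map_mul, map_zero, ev_X, hz, mul_zero, and_self]
  have h6 : Gd G (Pc F [] [X 0] 0 (0 : MvPolynomial (Fin 3) ℤ)) :=
    hc_unzero hG 2 (by simp) (by simp) (frH_pf (by simp) (by simp)) h5
  have h7 : Gd G (Pc F [] [] 0 (0 : MvPolynomial (Fin 3) ℤ)) :=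
    hc_ungm hG 0 (by simp) (by simp) (frH_pf (by simp) (by simp)) h6
  refine pc_unext hG (κ' := Fin 3) (fun i => i.elim0) (fun i => i.elim0) ?_
  simpa using h7

end Pool.Agent.Sym3
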