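import Pool.Agent.Sym3.StF
import Pool.Agent.Sym3.StG
import Pool.Agent.Sym3.StH
import Pool.Agent.Sym3.StI

/-!
# The vertex of degree four
-/

set_option autoImplicit false
set_option linter.unusedSectionVars false
set_option linter.unusedVariables false
set_option linter.unusedSimpArgs false

open Matrix MvPolynomial
open Pool.Agent.Helper81.CP Pool.Agent.Helper81.HG Pool.Agent.Phi4

namespace Pool.Agent.Sym3

section

variable {G : ∀ (R : Type) [CommRing R], Prop} (hG : RG G) {E V : Type} [DecidableEq V]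
  [DecidableEq E] [Fintype E] [Fintype V] (s t : E → V) (o : V) (g : Fin 4 → V)

include hG

/-! ### The ring of a graph with a rung -/

/-- the part where the sum of the parameters is zero and the first one is invertible -/
lemma sj_krr (h : Gd G (Pc (fam s t o g) [] [X 0]
    ((X 5 + X 0) * (X 1 * (1 + X 2)) + X 3 * (X 1 * X 2) + X 4 * ((1 + X 1) * (1 + X 2)))
    (X 5 * (X 1 - X 2) : MvPolynomial (Fin 6) ℤ))) :
    Gd G (Hc (hN Kkrr s t o g) [X 0 + X 1 + X 2 + X 3] [X 0]) := by
  have hu : ∀ (A : Type) [CommRing A] (z : Fin 7 → A), Cn [X 0 + X 1 + X 2 + X 3] [X 0] A z →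
      IsUnit (z 0) ∧ z 0 + z 1 + z 2 + z 3 = 0 := by
    intro A _ z hz
    simp only [Cn, List.forall_mem_cons, List.not_mem_nil, false_implies, implies_true,
        and_true, ev_X, map_add] at hz
    exact ⟨hz.2, hz.1⟩
  have hu' : ∀ (A : Type) [CommRing A] (z : Fin 6 → A), Cn [] [X 0] A z → IsUnit (z 0) := by
    intro A _ z hz
    simpa [Cn] using hz
  refine (hc_iso hG.cp0 (hN Kkrr s t o g) (pf (fam s t o g) ((X 5 + X 0) * (X 1 * (1 + X 2)) +
    X 3 * (X 1 * X 2) + X 4 * ((1 + X 1) * (1 + X 2)))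
    (X 5 * (X 1 - X 2) : MvPolynomial (Fin 6) ℤ)) (Z := [X 0 + X 1 + X 2 + X 3]) (U := [X 0])
    (Z' := []) (U' := [X 0])
    (fun A _ z => ![z 0, z 1 * Ring.inverse (z 0), (z 1 + z 2) * Ring.inverse (z 0), z 4, z 5,
      z 6])
    (fun A _ z => ![z 0, z 1 * z 0, (z 2 - z 1) * z 0, -((1 + z 2) * z 0), z 3, z 4, z 5])
    (fun A _ z => ![z 5 * (1 + z 2), -(z 5 * z 2), z 5 * ((1 + z 1) * (1 + z 1)) +
      z 3 * (z 1 * z 1) + (z 4 + z 0) * ((1 + z 1) * (1 + z 1)) - (1 + z 1) * z 0 -
      z 5 * (1 + z 2), z 5 * ((1 + z 2) * (1 + z 2)) + z 3 * (z 2 * z 2) +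
      (z 4 + z 0) * ((1 + z 2) * (1 + z 2)) - (1 + z 2) * z 0 - z 5 * (1 + z 2)])
    (fun A _ z => -(z 0 * z 0))
    ?_ ?_ ?_ ?_ ?_ ?_ ?_ ?_ ?_).mpr h
  · intro A B _ _ φ z hz j
    have h4 := map_inv_of_unit φ (hu A z hz).1
    fin_cases j <;> simp [h4]
  · intro A B _ _ φ z hz j
    fin_cases j <;> simp
  · intro A B _ _ φ z hz j
    rw [vec4_map]
    simp only [map_zero, map_mul, map_add, map_one, map_neg, map_sub]
  · intro A _ z hz
    simpa [Cn] using (hu A z hz).1
  · intro A _ z hz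
    have h5 : z 0 + z 1 * z 0 + (z 2 - z 1) * z 0 + -((1 + z 2) * z 0) = 0 := by ring
    have h6 := hu' A z hz
    simp only [Cn, List.forall_mem_cons, List.not_mem_nil, false_implies, implies_true,
        and_true, ev_X, map_add]
    exact ⟨h5, h6⟩
  · intro A _ z hz
    obtain ⟨h4, h5⟩ := hu A z hz
    have h6 := Ring.inverse_mul_cancel _ h4
    generalize Ring.inverse (z 0) = I at *
    funext j
    fin_cases j
    · rfl
    · simp
      linear_combination (z 1) * h6
    · simp
      linear_combination (z 2) * h6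
    · simp
      linear_combination (-(z 1 + z 2)) * h6 - h5
    · rfl
    · rfl
    · rfl
  · intro A _ z hz
    have h6 := Ring.mul_inverse_cancel _ (hu' A z hz)
    funext j
    fin_cases j
    · rfl
    · simp
      linear_combination (z 1) * h6
    · simp
      linear_combination (z 2) * h6
    · rfl
    · rfl
    · rfl
  · intro A _ z hz
    exact ((hu' A z hz).mul (hu' A z hz)).neg
  · intro A _ z x w hz
    have h7 := NF_krr s t o g w (z 0) (z 1) (z 2) (z 3) (z 4) (z 5) x
    rw [hN_F, h7, pf_F, fam_F, vec4]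
    simp only [map_add, map_mul, map_neg, ev_X, map_one, map_sub]
    congr 2
    funext i
    fin_cases i
    · rfl
    · exact (sub_eq_add_neg _ _)
    · simp
      ring
    · simp
      ring

/-- the variables of the ring of a graph with a rung -/
lemma sj_rung (h : Gd G (Hc (hN Kkrr s t o g) [X 0 + X 1 + X 2 + X 3] [X 0])) :
    Gd G (Hc (hN Kring (aE rS g s) (aE rT g t) (Sum.inr o) (rg' g)) [X 0 + X 1 + X 2 + X 3]
      [X 0]) := by
  let k : (Fin 7 ⊕ Fin 4) ⊕ E → (Fin 4 ⊕ Fin 4) ⊕ (Fin 3 ⊕ E) :=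
    Sum.elim (Sum.elim ![Sum.inl (Sum.inl 0), Sum.inl (Sum.inl 1), Sum.inl (Sum.inl 2),
      Sum.inl (Sum.inl 3), Sum.inl (Sum.inr 0), Sum.inl (Sum.inr 1), Sum.inr (Sum.inl 2)]
      ![Sum.inr (Sum.inl 0), Sum.inr (Sum.inl 1), Sum.inl (Sum.inr 2), Sum.inl (Sum.inr 3)])
      (fun e => Sum.inr (Sum.inr e))
  have hk : Function.Injective k := by
    rintro ((a | a) | a) ((b | b) | b) hab
    · fin_cases a <;> fin_cases b <;> simp_all [k]
    · fin_cases a <;> fin_cases b <;> simp [k] at hab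
    · fin_cases a <;> simp [k] at hab
    · fin_cases a <;> fin_cases b <;> simp [k] at hab
    · fin_cases a <;> fin_cases b <;> simp_all [k]
    · fin_cases a <;> simp [k] at hab
    · fin_cases b <;> simp [k] at hab
    · fin_cases b <;> simp [k] at hab
    · simpa [k] using hab
  refine (Gd.ext hG k hk h).congr fun A _ x => ?_
  have e := NF_ring_rung s t o g (pr x) (lg x) (fun i => ot x (Sum.inl i))
    (fun i => ot x (Sum.inr i))
  have e1 : (Sum.elim (fun i => ot x (Sum.inl i)) (fun i => ot x (Sum.inr i)) :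
      Fin 3 ⊕ E → A) = ot x := by
    funext i
    rcases i with i | i <;> rfl
  rw [e1] at e
  unfold Hc
  rw [hN_F, hN_F, e]
  have e2 : pr (fun i => x (k i)) = ![pr x 0, pr x 1, pr x 2, pr x 3, lg x 0, lg x 1,
      ot x (Sum.inl 2)] := by
    funext i
    fin_cases i <;> rfl
  have e3 : lg (fun i => x (k i)) = ![ot x (Sum.inl 0), ot x (Sum.inl 1), lg x 2, lg x 3] := by
    funext i
    fin_cases i <;> rfl
  rw [e2, e3]
  simp only [Cn, List.forall_mem_cons, List.not_mem_nil, false_implies, implies_true,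
        and_true, ev_X, map_add]
  rfl

/-- the part where the first parameter is zero -/
lemma sj_ring0 (h : Gd G (Hc (hN Kkc s t o (fun k => g (p1 k))) [X 0 + X 1 + X 2] [])) :
    Gd G (Hc (hN Kring s t o g) [X 0, X 0 + X 1 + X 2 + X 3] []) := by
  let H : Hf (Fin 4) E :=
    { F := fun A _ z x w => NF Kkc s t o (fun k => g (p1 k)) (Sum.elim ![z 1, z 2, z 3]
        ![x 1, x 2, x 3, x 0]) w
      nat := fun A B _ _ φ z x w => by
        rw [map_NF]
        congr 1
        funext i
        rcases i with i | i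
        · fin_cases i <;> rfl
        · fin_cases i <;> rfl }
  let k : (Fin 3 ⊕ Fin 4) ⊕ E → (Fin 4 ⊕ Fin 4) ⊕ E := Sum.map (Sum.map ![1, 2, 3] p1) id
  have hk : Function.Injective k := by
    refine Function.Injective.sumMap (Function.Injective.sumMap ?_ ?_) Function.injective_id
    · decide
    · decide
  have h1 : Gd G (Hc H [X 1 + X 2 + X 3] []) := by
    refine (Gd.ext hG k hk h).congr fun A _ x => ?_
    unfold Hc
    rw [hN_F]
    have e2 : pr (fun i => x (k i)) = ![pr x 1, pr x 2, pr x 3] := by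
      funext i
      fin_cases i <;> rfl
    have e3 : lg (fun i => x (k i)) = ![lg x 1, lg x 2, lg x 3, lg x 0] := by
      funext i
      fin_cases i <;> rfl
    rw [e2, e3]
    simp only [Cn, List.forall_mem_cons, List.not_mem_nil, false_implies, implies_true,
        and_true, ev_X, map_add]
    rfl
  have h2 : Gd G (Hc H [X 0, X 1 + X 2 + X 3] []) := by
    refine hc_zero hG 0 (by simp (maxDischargeDepth := 30)) (by simp)
      (fun A _ z z' x w h => ?_) h1
    show NF _ _ _ _ _ _ _ = NF _ _ _ _ _ _ _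
    rw [h 1 (by decide), h 2 (by decide), h 3 (by decide)]
  refine hc_congr (fun A _ z => ?_) (fun A _ z x w hz => ?_) h2
  · simp only [Cn, List.forall_mem_cons, List.not_mem_nil, false_implies, implies_true,
        and_true, ev_X, map_add]
    constructor
    · rintro ⟨h3, h4⟩
      exact ⟨h3, by rw [h3]; linear_combination h4⟩
    · rintro ⟨h3, h4⟩
      exact ⟨h3, by rw [h3] at h4; linear_combination h4⟩
  · simp only [Cn, List.forall_mem_cons, List.not_mem_nil, false_implies, implies_true,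
        and_true, ev_X, map_add] at hz
    show NF Kkc s t o (fun k => g (p1 k)) (Sum.elim ![z 1, z 2, z 3] ![x 1, x 2, x 3, x 0]) w = _
    rw [hN_F, NF_kc1, ← NF_ring_kc, eta4 z, hz.1]
    rfl

/-- the part where the sum of the parameters is invertible -/
lemma sj_unit (h : Gd G (Hc (hN Kring s t o g) [] [X 0 + X 1 + X 2 + X 3])) :
    Gd G (Pc (fam s t o g) [] [X 0] (X 0 * (X 2 * X 3))
      (X 0 * (X 1 * (1 - X 1 - X 2 - X 3)) : MvPolynomial (Fin 4) ℤ)) := by
  have hu : ∀ (A : Type) [CommRing A] (z : Fin 4 → A), Cn [] [X 0 + X 1 + X 2 + X 3] A z →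
      IsUnit (z 0 + z 1 + z 2 + z 3) := by
    intro A _ z hz
    simpa [Cn] using hz
  refine (hc_iso hG.cp0 (hN Kring s t o g) (pf (fam s t o g) (X 0 * (X 2 * X 3))
      (X 0 * (X 1 * (1 - X 1 - X 2 - X 3)) : MvPolynomial (Fin 4) ℤ))
    (U := [X 0 + X 1 + X 2 + X 3]) (U' := [X 0]) (Z := []) (Z' := [])
    (fun A _ z => ![z 0 + z 1 + z 2 + z 3, z 0 * Ring.inverse (z 0 + z 1 + z 2 + z 3),
      z 1 * Ring.inverse (z 0 + z 1 + z 2 + z 3), z 3 * Ring.inverse (z 0 + z 1 + z 2 + z 3)])
    (fun A _ z => ![z 0 * z 1, z 0 * z 2, z 0 * (1 - z 1 - z 2 - z 3), z 0 * z 3])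
    (fun A _ z => ![z 0 * (z 1 * z 3), z 0 * (z 1 * (z 2 + (1 - z 1 - z 2 - z 3))),
      z 0 * (z 1 * (1 - z 1 - z 2 - z 3) + z 2 * (1 - z 1 - z 2 - z 3) + z 2 * z 3),
      z 0 * (z 3 * (z 2 + (1 - z 1 - z 2 - z 3)))])
    (fun A _ z => z 0) ?_ ?_ ?_ ?_ ?_ ?_ ?_ ?_ ?_).mp h
  · intro A B _ _ φ z hz j
    have h4 := map_inv_of_unit φ (hu A z hz)
    simp only [map_add] at h4
    fin_cases j <;> simp [h4]
  · intro A B _ _ φ z hz j
    fin_cases j <;> simp
  · intro A B _ _ φ z hz j
    rw [vec4_map]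
    simp only [map_zero, map_mul, map_add, map_sub, map_one]
  · intro A _ z hz
    simpa [Cn] using hu A z hz
  · intro A _ z hz
    have h4 : IsUnit (z 0) := by simpa [Cn] using hz
    have h5 : z 0 * z 1 + z 0 * z 2 + z 0 * (1 - z 1 - z 2 - z 3) + z 0 * z 3 = z 0 := by ring
    simpa [Cn, h5] using h4
  · intro A _ z hz
    have h4 := Ring.mul_inverse_cancel _ (hu A z hz)
    generalize Ring.inverse (z 0 + z 1 + z 2 + z 3) = I at *
    funext j
    fin_cases j
    · simp
      linear_combination (z 0) * h4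
    · simp
      linear_combination (z 1) * h4
    · simp
      linear_combination (-(z 0 + z 1 + z 3)) * h4
    · simp
      linear_combination (z 3) * h4
  · intro A _ z hz
    have h4 : IsUnit (z 0) := by simpa [Cn] using hz
    have h5 : z 0 * z 1 + z 0 * z 2 + z 0 * (1 - z 1 - z 2 - z 3) + z 0 * z 3 = z 0 := by ring
    have h6 := Ring.mul_inverse_cancel _ h4
    funext j
    fin_cases j
    · simp [h5]
    · simp [h5]
      linear_combination (z 1) * h6
    · simp [h5]
      linear_combination (z 2) * h6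
    · simp [h5]
      linear_combination (z 3) * h6
  · intro A _ z hz
    simpa [Cn] using hz
  · intro A _ z x w hz
    rw [hN_F, pf_F, fam_F, NF_ring s t o g w (z 0) (z 1) (z 2) (1 - z 1 - z 2 - z 3) (z 3)
      (by ring) x, vec4]
    simp only [map_mul, map_sub, map_one, ev_X]

/-! ### The star of a graph with a rung -/

lemma sj_star (h : Gd G (Pc (fam (aE rS g s) (aE rT g t) (Sum.inr o) (rg' g)) [] [] 0
    (0 : MvPolynomial (Fin 0) ℤ))) : Gd G (Hc (hN Kkrs s t o g) [] []) := by
  let k : (Fin 3 ⊕ Fin 4) ⊕ E → (Fin 0 ⊕ Fin 4) ⊕ (Fin 3 ⊕ E) :=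
    Sum.elim (Sum.elim ![Sum.inl (Sum.inr 0), Sum.inl (Sum.inr 1), Sum.inr (Sum.inl 2)]
      ![Sum.inr (Sum.inl 0), Sum.inr (Sum.inl 1), Sum.inl (Sum.inr 2), Sum.inl (Sum.inr 3)])
      (fun e => Sum.inr (Sum.inr e))
  have hk : Function.Injective k := by
    rintro ((a | a) | a) ((b | b) | b) hab
    · fin_cases a <;> fin_cases b <;> simp_all [k]
    · fin_cases a <;> fin_cases b <;> simp [k] at hab
    · fin_cases a <;> simp [k] at hab
    · fin_cases a <;> fin_cases b <;> simp [k] at hab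
    · fin_cases a <;> fin_cases b <;> simp_all [k]
    · fin_cases a <;> simp [k] at hab
    · fin_cases b <;> simp [k] at hab
    · fin_cases b <;> simp [k] at hab
    · simpa [k] using hab
  refine Gd.unext hG k hk (rp_hc _ _ _) (h.congr fun A _ x => ?_)
  have e := NF_star_rung s t o g (pr x) (lg x) (fun i => ot x (Sum.inl i))
    (fun i => ot x (Sum.inr i))
  have e1 : (Sum.elim (fun i => ot x (Sum.inl i)) (fun i => ot x (Sum.inr i)) :
      Fin 3 ⊕ E → A) = ot x := by
    funext i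
    rcases i with i | i <;> rfl
  rw [e1, NF_star] at e
  unfold Pc Hc
  rw [hN_F, pf_F, fam_F, map_zero, e]
  have e2 : pr (fun i => x (k i)) = ![lg x 0, lg x 1, ot x (Sum.inl 2)] := by
    funext i
    fin_cases i <;> rfl
  have e3 : lg (fun i => x (k i)) = ![ot x (Sum.inl 0), ot x (Sum.inl 1), lg x 2, lg x 3] := by
    funext i
    fin_cases i <;> rfl
  rw [e2, e3]
  simp only [Cn, List.not_mem_nil, false_implies, implies_true, and_true]
  rfl

lemma sj_krs0 (h : Gd G (Hc (hN Kkc s t o (fun k => g (p2 k))) [X 0 + X 1 + X 2] [])) :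
    Gd G (Hc (hN Kkrs s t o g) [X 0 + X 1 + X 2] []) := by
  let k : (Fin 3 ⊕ Fin 4) ⊕ E → (Fin 3 ⊕ Fin 4) ⊕ E := Sum.map (Sum.map ![1, 2, 0] p2) id
  have hk : Function.Injective k := by
    refine Function.Injective.sumMap (Function.Injective.sumMap ?_ ?_) Function.injective_id
    · decide
    · decide
  refine (Gd.ext hG k hk h).congr fun A _ x => ?_
  unfold Hc
  rw [hN_F, hN_F]
  have e2 : pr (fun i => x (k i)) = ![pr x 1, pr x 2, pr x 0] := by
    funext i
    fin_cases i <;> rfl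
  have e3 : lg (fun i => x (k i)) = ![lg x 3, lg x 1, lg x 0, lg x 2] := by
    funext i
    fin_cases i <;> rfl
  have e4 : ot (fun i => x (k i)) = ot x := rfl
  rw [e2, e3, e4, NF_kc2, ← NF_krs_kc, ← eta3]
  simp only [Cn, List.forall_mem_cons, List.not_mem_nil, false_implies, implies_true,
        and_true, ev_X, map_add]
  refine and_congr_left fun _ => ?_
  show pr x 1 + pr x 2 + pr x 0 = 0 ↔ _
  constructor
  · intro h
    linear_combination h
  · intro h
    linear_combination h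

lemma sj_krs_unit (h : Gd G (Hc (hN Kkrs s t o g) [] [X 0 + X 1 + X 2])) :
    Gd G (Pc (fam s t o g) [] [X 0] (X 0 * (X 1 * X 2)) (0 : MvPolynomial (Fin 3) ℤ)) := by
  have hu : ∀ (A : Type) [CommRing A] (z : Fin 3 → A), Cn [] [X 0 + X 1 + X 2] A z →
      IsUnit (z 0 + z 1 + z 2) := by
    intro A _ z hz
    simpa [Cn] using hz
  refine (hc_iso hG.cp0 (hN Kkrs s t o g) (pf (fam s t o g) (X 0 * (X 1 * X 2))
      (0 : MvPolynomial (Fin 3) ℤ))
    (U := [X 0 + X 1 + X 2]) (U' := [X 0]) (Z := []) (Z' := [])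
    (fun A _ z => ![z 0 + z 1 + z 2, z 0 * Ring.inverse (z 0 + z 1 + z 2),
      z 1 * Ring.inverse (z 0 + z 1 + z 2)])
    (fun A _ z => ![z 0 * z 1, z 0 * z 2, z 0 * (1 - z 1 - z 2)])
    (fun A _ z => ![z 0 * ((1 - z 1 - z 2) * z 1), z 0 * ((1 - z 1 - z 2) * z 2),
      z 0 * (z 1 * z 2), z 0 * (z 1 * z 2)])
    (fun A _ z => z 0) ?_ ?_ ?_ ?_ ?_ ?_ ?_ ?_ ?_).mp h
  · intro A B _ _ φ z hz j
    have h4 := map_inv_of_unit φ (hu A z hz)
    simp only [map_add] at h4
    fin_cases j <;> simp [h4]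
  · intro A B _ _ φ z hz j
    fin_cases j <;> simp
  · intro A B _ _ φ z hz j
    rw [vec4_map]
    simp only [map_zero, map_mul, map_add, map_sub, map_one]
  · intro A _ z hz
    simpa [Cn] using hu A z hz
  · intro A _ z hz
    have h4 : IsUnit (z 0) := by simpa [Cn] using hz
    have h5 : z 0 * z 1 + z 0 * z 2 + z 0 * (1 - z 1 - z 2) = z 0 := by ring
    simpa [Cn, h5] using h4
  · intro A _ z hz
    have h4 := Ring.mul_inverse_cancel _ (hu A z hz)
    generalize Ring.inverse (z 0 + z 1 + z 2) = I at *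
    funext j
    fin_cases j
    · simp
      linear_combination (z 0) * h4
    · simp
      linear_combination (z 1) * h4
    · simp
      linear_combination (-(z 0 + z 1)) * h4
  · intro A _ z hz
    have h4 : IsUnit (z 0) := by simpa [Cn] using hz
    have h5 : z 0 * z 1 + z 0 * z 2 + z 0 * (1 - z 1 - z 2) = z 0 := by ring
    have h6 := Ring.mul_inverse_cancel _ h4
    funext j
    fin_cases j
    · simp [h5]
    · simp [h5]
      linear_combination (z 1) * h6
    · simp [h5]
      linear_combination (z 2) * h6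
  · intro A _ z hz
    simpa [Cn] using hz
  · intro A _ z x w hz
    rw [hN_F, pf_F, fam_F, NF_krs_unit s t o g w (z 0) (1 - z 1 - z 2) (z 1) (z 2)
      (by ring) x, vec4]
    simp only [map_mul, map_sub, map_one, map_zero, ev_X]

end

/-- **the vertex of degree four** -/
theorem st_M {G : ∀ (R : Type) [CommRing R], Prop} (hG : RG G) (hW : WT G)
    (hpt : GS G (∅ : Set (MvPolynomial Empty ℤ))) (n : ℕ) (hI : IH3 G n) (E V : Type) [Fintype E]
    [DecidableEq E] [Fintype V] [DecidableEq V] (s t : E → V) (o : V) (g : Fin 4 → V)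
    (hl : ∀ e, s e ≠ t e) (hd : D4 s t g) (hx : exl s t g < n) : Gd G (NP Kstar s t o g) := by
  have hl' := loop_rung s t g hl
  have hd' := hd.rung
  have hx' := lt_of_le_of_lt (exl_rung s t g) hx
  have hB := st_bs hG hW hpt hI s t o g hl hd hx
  have hB' := st_bs hG hW hpt hI (aE rS g s) (aE rT g t) (Sum.inr o) (rg' g) hl' hd' hx'
  -- the ring of the graph with a rung
  have h1 := sj_rung hG s t o g (sj_krr hG s t o g (st_2b hG hB))
  have hp1 : Function.Bijective p1 := by decide
  have hp2 : Function.Bijective p2 := by decide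
  have h2 := sj_ring0 hG (aE rS g s) (aE rT g t) (Sum.inr o) (rg' g)
    (st_c1 hG hpt hI (aE rS g s) (aE rT g t) (Sum.inr o) (fun k => rg' g (p1 k)) hl'
      (hd'.perm p1 hp1) (by rw [exl_perm _ _ _ _ hp1]; exact hx'))
  have h3 := hc_glue hG.cp0 (X 0) h2 h1
  have h4 := hc_opn hG.cp0 _ (gd_ring hG hI (aE rS g s) (aE rT g t) (Sum.inr o) (rg' g) hl' hd'
    hx') h3
  have h5 := st_2a hG hW hB' (sj_unit hG _ _ _ _ h4)
  -- the star of the graph with a rung
  have h6 := sj_star hG s t o g h5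
  have h7 := sj_krs0 hG s t o g (st_c1 hG hpt hI s t o (fun k => g (p2 k)) hl
    (hd.perm p2 hp2) (by rw [exl_perm _ _ _ _ hp2]; exact hx))
  have h8 := sj_krs_unit hG s t o g (hc_opn hG.cp0 _ h6 h7)
  have h9 := st_3 hG hB h8
  refine h9.congr fun A _ x => ?_
  unfold NP Pc Hc
  rw [pf_F, fam_F, map_zero, ← NF_star s t o g _ (pr x)]
  simp only [Cn, List.not_mem_nil, false_implies, implies_true, and_true, true_and]
  have : (Sum.elim (pr x) (lg x) : Fin 0 ⊕ Fin 4 → A) = fun i => x (Sum.inl i) := by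
    funext i
    rcases i with i | i <;> rfl
  rw [this]
  rfl

end Pool.Agent.Sym3
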